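import Pool.Agent.Helper452.ContRec

open Set Filter Topology Metric

set_option linter.unusedSectionVars false
set_option linter.unusedVariables false

namespace Pool.Agent.Helper452.Cont

theorem open_box {G : Set Lset} (hG : IsOpen G) {z : Lset} (hz : z ∈ G) :
    ∃ (M : ℕ) (ε : ℝ), 0 < ε ∧ ∀ z' : Lset, (∀ t < M, z'.1.1 t = z.1.1 t) →
      |z'.1.2 - z.1.2| < ε → z' ∈ G := by
  obtain ⟨U, hU, rfl⟩ := isOpen_induced_iff.1 hG
  have h1 : z.1 ∈ U := hz
  obtain ⟨A, B, hA, hB, hzA, hzB, hAB⟩ := isOpen_prod_iff.1 hU z.1.1 z.1.2 h1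
  obtain ⟨M, hM⟩ := cyl_nhds hA hzA
  obtain ⟨ε, hε, hεB⟩ := Metric.isOpen_iff.1 hB z.1.2 hzB
  refine ⟨M, ε, hε, fun z' h2 h3 => ?_⟩
  apply hAB
  refine ⟨hM _ h2, hεB ?_⟩
  rw [Metric.mem_ball, Real.dist_eq]
  exact h3

theorem isOpen_of_box {G : Set Lset} (hG : ∀ z ∈ G, ∃ (M : ℕ) (ε : ℝ), 0 < ε ∧ ∀ z' : Lset,
    (∀ t < M, z'.1.1 t = z.1.1 t) → |z'.1.2 - z.1.2| < ε → z' ∈ G) : IsOpen G := by
  rw [isOpen_iff_mem_nhds]
  intro z hz
  obtain ⟨M, ε, hε, h1⟩ := hG z hz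
  have h2 : IsOpen {z' : Lset | ∀ t ∈ Finset.range M, z'.1.1 t = z.1.1 t} := by
    have : {z' : Lset | ∀ t ∈ Finset.range M, z'.1.1 t = z.1.1 t} =
        ⋂ t ∈ Finset.range M, {z' : Lset | z'.1.1 t = z.1.1 t} := by
      ext z'
      simp
    rw [this]
    refine isOpen_biInter_finset fun t _ => ?_
    have h6 : Continuous (fun z' : Lset => z'.1.1 t) :=
      (continuous_apply t).comp (continuous_fst.comp continuous_subtype_val)
    exact (isOpen_discrete ({z.1.1 t} : Set Bool)).preimage h6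
  have h3 : IsOpen {z' : Lset | |z'.1.2 - z.1.2| < ε} :=
    isOpen_lt ((continuous_snd.comp continuous_subtype_val).sub continuous_const).abs
      continuous_const
  refine Filter.mem_of_superset ((h2.inter h3).mem_nhds ⟨fun t _ => rfl, by simpa using hε⟩) ?_
  rintro z' ⟨h4, h5⟩
  exact h1 z' (fun t ht => h4 t (Finset.mem_range.2 ht)) h5

/-- the lift of a subset of the punctured space -/
def upS (G : Set EY) : Set Lset := {z | ∃ y ∈ G, mk ja jb jh z = y.1}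

theorem isOpen_upS {G : Set EY} (hG : IsOpen G) : IsOpen (upS G) := by
  have h1 : IsOpen (Subtype.val '' G : Set EX) := by
    have h2 : IsOpen {y : EX | y ≠ ep} := isOpen_ne
    exact h2.isOpenMap_subtype_val G hG
  have h3 : upS G = mk ja jb jh ⁻¹' (Subtype.val '' G) := by
    ext z
    constructor
    · rintro ⟨y, hy, hzy⟩
      exact ⟨y, hy, hzy.symm⟩
    · rintro ⟨y, hy, hzy⟩
      exact ⟨y, hy, hzy.symm⟩
  rw [h3]
  exact h1.preimage (continuous_mk ja jb jh)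

/-- an accumulating open set contains a box at arbitrarily large levels -/
def HasBox (G : Set EY) (j i l : ℕ) (mid : ℝ) : Prop :=
  (1 / 2 : ℝ) ^ (j + 1) < mid ∧ mid < (1 / 2 : ℝ) ^ j ∧
    ∀ z : Lset, z.1.1 ∈ Al j → z.1.2 = mid → (∀ t < l, z.1.1 t = base j i t) → z ∈ upS G

theorem exists_box {G : Set EY} (hG : IsOpen G) (hacc : Acc G) (m : ℕ) :
    ∃ j, m ≤ j ∧ ∃ i l mid, HasBox G j i l mid := by
  rw [acc_iff] at hacc
  obtain ⟨y, hy, hym⟩ := hacc _
    (small_mem_nhds ja jb jh (show (0 : ℝ) < (1 / 2) ^ m by positivity))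
  obtain ⟨⟨⟨x, u⟩, hz⟩, hzy⟩ := mk_surjective ja jb jh y.1
  have hym' : uu ja jb jh y.1 ≤ (1 / 2 : ℝ) ^ m := hym
  have hu : 0 < u := by
    have := uu_pos ja jb jh y.2
    rw [← hzy] at this
    exact this
  rw [← hzy] at hym'
  have hum : u ≤ (1 / 2 : ℝ) ^ m := hym'
  obtain ⟨j, hj1, hj2⟩ := exists_strip hu hz.2.1
  have hmj : m ≤ j := by
    by_contra hcon
    push Not at hcon
    have := half_pow_le (show j + 1 ≤ m from hcon)
    linarith
  have hzG : (⟨(x, u), hz⟩ : Lset) ∈ upS G := ⟨y, hy, hzy⟩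
  obtain ⟨M, ε, hε, hbox⟩ := open_box (isOpen_upS hG) hzG
  obtain ⟨i, hi⟩ := exists_testBit x M
  have hxA : x ∈ Al j := Al_of_mem_Lset hz hj1
  obtain ⟨mid, hm1, hm2⟩ := exists_between
    (show max ((1 / 2 : ℝ) ^ (j + 1)) (u - ε) < u from max_lt hj1 (by linarith))
  have hm3 := lt_of_le_of_lt (le_max_left _ _) hm1
  have hm4 := lt_of_le_of_lt (le_max_right _ _) hm1
  refine ⟨j, hmj, i, M, mid, hm3, lt_of_lt_of_le hm2 hj2, ?_⟩
  intro z hzA hzm hzt
  apply hbox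
  · intro t ht
    rw [hzt t ht]
    show base j i t = x t
    unfold base
    rw [← hi t ht]
    cases hxt : x t
    · simp
    · simp [hxA t hxt]
  · rw [hzm]
    show |mid - u| < ε
    rw [abs_lt]
    constructor <;> linarith

end Pool.Agent.Helper452.Cont
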