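import Pool.Agent.Helper452.ContSpB

open Set Filter Topology Metric

set_option linter.unusedSectionVars false
set_option linter.unusedVariables false

namespace Pool.Agent.Helper452.Cont

/-- level of the `r`-th low join of the `n`-th path -/
def lev (n r : ℕ) : ℕ := n - 1 - padicValNat 2 r / n

/-- target index of the `r`-th low join of the `n`-th path -/
def idx (n r : ℕ) : ℕ := padicValNat 2 r % n

/-- top coordinates -/
def key (n r s : ℕ) : ℕ := Nat.pair (lev n r) (3 * Nat.pair n r + s)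

/-- target points -/
def base (j i : ℕ) (k : ℕ) : Bool := i.testBit k && decide (blk k ≤ j)

/-- the line before the `r`-th low join of the `n`-th path -/
def qm (n r : ℕ) (k : ℕ) : Bool := base (lev n r) (idx n r) k || decide (k = key n r 0)

/-- the line after the `r`-th low join of the `n`-th path -/
def qp (n r : ℕ) (k : ℕ) : Bool := qm n r k || decide (k = key n r 1)

/-- heights of joins -/
noncomputable def ht (j m : ℕ) : ℝ := (1 / 2 : ℝ) ^ j * (1 - 1 / (2 * ((m : ℝ) + 2)))

/-- index type of the joins: `(n, r, false)` is a low join, `(n, r, true)` a high join -/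
def Jn : Type := {c : ℕ × ℕ × Bool // 1 ≤ c.2.1 ∧
  (if c.2.2 then c.2.1 + 1 < 2 ^ (c.1 * c.1) else c.2.1 < 2 ^ (c.1 * c.1))}

def ja (c : Jn) : ℕ → Bool := if c.1.2.2 then qp c.1.1 c.1.2.1 else qm c.1.1 c.1.2.1

def jb (c : Jn) : ℕ → Bool := if c.1.2.2 then qm c.1.1 (c.1.2.1 + 1) else qp c.1.1 c.1.2.1

noncomputable def jh (c : Jn) : ℝ :=
  if c.1.2.2 then ht (Nat.pair c.1.1 c.1.2.1) (2 * Nat.pair c.1.1 c.1.2.1 + 1)
  else ht (lev c.1.1 c.1.2.1) (2 * Nat.pair c.1.1 c.1.2.1)

theorem ht_bounds (j m : ℕ) : (1 / 2 : ℝ) ^ (j + 1) < ht j m ∧ ht j m < (1 / 2 : ℝ) ^ j := by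
  have hp : (0 : ℝ) < (1 / 2 : ℝ) ^ j := by positivity
  have h1 : (0 : ℝ) < 1 / (2 * ((m : ℝ) + 2)) := by positivity
  have h2 : 1 / (2 * ((m : ℝ) + 2)) ≤ 1 / 4 := by
    apply one_div_le_one_div_of_le (by norm_num)
    have : (0 : ℝ) ≤ m := Nat.cast_nonneg m
    linarith
  unfold ht
  constructor
  · rw [pow_succ]
    apply mul_lt_mul_of_pos_left _ hp
    linarith
  · nlinarith

theorem half_pow_lt {i j : ℕ} (hij : i < j) : (1 / 2 : ℝ) ^ j < (1 / 2 : ℝ) ^ i :=
  pow_lt_pow_right_of_lt_one₀ (by norm_num) (by norm_num) hij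

theorem half_pow_le {i j : ℕ} (hij : i ≤ j) : (1 / 2 : ℝ) ^ j ≤ (1 / 2 : ℝ) ^ i :=
  pow_le_pow_of_le_one (by norm_num) (by norm_num) hij

/-- the strip containing a height is unique -/
theorem strip_unique {u : ℝ} {i j : ℕ} (hi : (1 / 2 : ℝ) ^ (i + 1) < u) (hi' : u ≤ (1 / 2 : ℝ) ^ i)
    (hj : (1 / 2 : ℝ) ^ (j + 1) < u) (hj' : u ≤ (1 / 2 : ℝ) ^ j) : i = j := by
  rcases lt_trichotomy i j with h1 | h1 | h1
  · have := half_pow_le (show i + 1 ≤ j from h1)
    linarith
  · exact h1
  · have := half_pow_le (show j + 1 ≤ i from h1)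
    linarith

theorem ht_inj {j m j' m' : ℕ} (hh : ht j m = ht j' m') : j = j' ∧ m = m' := by
  obtain ⟨h1, h2⟩ := ht_bounds j m
  obtain ⟨h3, h4⟩ := ht_bounds j' m'
  have hj : j = j' := strip_unique h1 h2.le (hh ▸ h3) (hh ▸ h4.le)
  refine ⟨hj, ?_⟩
  subst hj
  unfold ht at hh
  have hp : (1 / 2 : ℝ) ^ j ≠ 0 := by positivity
  have h5 := mul_left_cancel₀ hp hh
  have h6 : 1 / (2 * ((m : ℝ) + 2)) = 1 / (2 * ((m' : ℝ) + 2)) := by linarith
  have h7 : (2 * ((m : ℝ) + 2)) = (2 * ((m' : ℝ) + 2)) := by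
    have := congrArg (fun t => 1 / t) h6
    simpa using this
  have h8 : (m : ℝ) = m' := by linarith
  exact_mod_cast h8

theorem pair_inj {a b c d : ℕ} (hh : Nat.pair a b = Nat.pair c d) : a = c ∧ b = d :=
  Nat.pair_eq_pair.1 hh

theorem blk_key (n r s : ℕ) : blk (key n r s) = lev n r := by
  simp [blk, key]

theorem pair_le_key (n r s : ℕ) : 3 * Nat.pair n r + s ≤ key n r s := Nat.right_le_pair _ _

theorem key_lt (n r : ℕ) {s s' : ℕ} (hs : s < s') : key n r s < key n r s' :=
  Nat.pair_lt_pair_right _ (by omega)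

theorem key_inj {n r s n' r' s' : ℕ} (hs : s < 3) (hs' : s' < 3)
    (hh : key n r s = key n' r' s') : n = n' ∧ r = r' ∧ s = s' := by
  obtain ⟨_, h1⟩ := pair_inj hh
  have h2 : Nat.pair n r = Nat.pair n' r' := by omega
  obtain ⟨h3, h4⟩ := pair_inj h2
  exact ⟨h3, h4, by omega⟩

theorem base_blk {j i k : ℕ} (hk : base j i k = true) : blk k ≤ j := by
  simp only [base, Bool.and_eq_true, decide_eq_true_eq] at hk
  exact hk.2

theorem testBit_lt {i k : ℕ} (hk : i.testBit k = true) : k < i := by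
  by_contra hcon
  push Not at hcon
  have h1 : i < 2 ^ k := lt_of_le_of_lt hcon Nat.lt_two_pow_self
  rw [Nat.testBit_lt_two_pow h1] at hk
  exact absurd hk (by simp)

theorem idx_le (n r : ℕ) : idx n r ≤ r := by
  unfold idx
  refine le_trans (Nat.mod_le _ _) ?_
  rcases Nat.eq_zero_or_pos r with rfl | hr
  · simp
  · have h1 : 2 ^ padicValNat 2 r ≤ r := Nat.le_of_dvd hr pow_padicValNat_dvd
    exact le_of_lt (lt_of_lt_of_le Nat.lt_two_pow_self h1)

theorem r_le_pair (n r : ℕ) : r ≤ Nat.pair n r := Nat.right_le_pair _ _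

theorem n_le_pair (n r : ℕ) : n ≤ Nat.pair n r := Nat.left_le_pair _ _

theorem base_lt_key {n r s k : ℕ} (hk : base (lev n r) (idx n r) k = true) : k < key n r s := by
  simp only [base, Bool.and_eq_true, decide_eq_true_eq] at hk
  have h1 := testBit_lt hk.1
  have h2 := idx_le n r
  have h3 := r_le_pair n r
  have h4 := pair_le_key n r s
  omega

theorem qm_blk {n r k : ℕ} (hk : qm n r k = true) : blk k ≤ lev n r := by
  simp only [qm, Bool.or_eq_true, decide_eq_true_eq] at hk
  rcases hk with hk | rfl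
  · exact base_blk hk
  · rw [blk_key]

theorem qp_blk {n r k : ℕ} (hk : qp n r k = true) : blk k ≤ lev n r := by
  simp only [qp, Bool.or_eq_true, decide_eq_true_eq] at hk
  rcases hk with hk | rfl
  · exact qm_blk hk
  · rw [blk_key]

theorem qm_key (n r : ℕ) : qm n r (key n r 0) = true := by simp [qm]

theorem qp_key0 (n r : ℕ) : qp n r (key n r 0) = true := by simp [qp, qm]

theorem qp_key (n r : ℕ) : qp n r (key n r 1) = true := by simp [qp]

theorem qm_top {n r k : ℕ} (hk : qm n r k = true) : k ≤ key n r 0 := by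
  simp only [qm, Bool.or_eq_true, decide_eq_true_eq] at hk
  rcases hk with hk | rfl
  · exact (base_lt_key hk).le
  · exact le_rfl

theorem qp_top {n r k : ℕ} (hk : qp n r k = true) : k ≤ key n r 1 := by
  simp only [qp, Bool.or_eq_true, decide_eq_true_eq] at hk
  rcases hk with hk | rfl
  · exact (qm_top hk).trans (key_lt n r (by norm_num)).le
  · exact le_rfl

theorem qm_eq_qp {n r k : ℕ} (hk : k ≠ key n r 1) : qm n r k = qp n r k := by
  simp [qp, hk]

theorem qm_near {n r k : ℕ} (hk : k < n) : qm n r k = base (lev n r) (idx n r) k := by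
  have h1 : k ≠ key n r 0 := by
    have h2 := n_le_pair n r
    have h3 := pair_le_key n r 0
    omega
  simp [qm, h1]

theorem qp_near {n r k : ℕ} (hk : k < n) : qp n r k = base (lev n r) (idx n r) k := by
  have h1 : k ≠ key n r 1 := by
    have h2 := n_le_pair n r
    have h3 := pair_le_key n r 1
    omega
  rw [← qm_eq_qp h1, qm_near hk]

/-- the point with sign -/
def qq (n r : ℕ) (s : Bool) : ℕ → Bool := if s then qp n r else qm n r

theorem qq_key (n r : ℕ) (s : Bool) : qq n r s (key n r s.toNat) = true := by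
  cases s
  · exact qm_key n r
  · exact qp_key n r

theorem qq_top {n r : ℕ} {s : Bool} {k : ℕ} (hk : qq n r s k = true) : k ≤ key n r s.toNat := by
  cases s
  · exact qm_top hk
  · exact qp_top hk

theorem qq_blk {n r : ℕ} {s : Bool} {k : ℕ} (hk : qq n r s k = true) : blk k ≤ lev n r := by
  cases s
  · exact qm_blk hk
  · exact qp_blk hk

theorem qq_near {n r : ℕ} {s : Bool} {k : ℕ} (hk : k < n) :
    qq n r s k = base (lev n r) (idx n r) k := by
  cases s
  · exact qm_near hk
  · exact qp_near hk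

theorem qq_key0 (n r : ℕ) (s : Bool) : qq n r s (key n r 0) = true := by
  cases s
  · exact qm_key n r
  · exact qp_key0 n r

theorem qq_inj {n r n' r' : ℕ} {s s' : Bool} (hh : qq n r s = qq n' r' s') :
    n = n' ∧ r = r' ∧ s = s' := by
  have h1 : key n r s.toNat ≤ key n' r' s'.toNat := by
    apply qq_top
    rw [← hh]
    exact qq_key n r s
  have h2 : key n' r' s'.toNat ≤ key n r s.toNat := by
    apply qq_top
    rw [hh]
    exact qq_key n' r' s'
  obtain ⟨h3, h4, h5⟩ := key_inj (by cases s <;> simp) (by cases s' <;> simp) (le_antisymm h1 h2)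
  refine ⟨h3, h4, ?_⟩
  cases s <;> cases s' <;> simp at h5 ⊢

theorem lev_le {n r : ℕ} : lev n r ≤ n - 1 := Nat.sub_le _ _

theorem lev_lt {n r : ℕ} (h1 : 1 ≤ r) (h2 : r < 2 ^ (n * n)) : lev n r < n := by
  have hn : n ≠ 0 := by
    rintro rfl
    simp at h2
    omega
  have := lev_le (n := n) (r := r)
  omega

theorem mem_Lset_of_blk {x : ℕ → Bool} {j : ℕ} {u : ℝ} (hx : ∀ k, x k = true → blk k ≤ j)
    (hu : 0 ≤ u) (huj : u ≤ (1 / 2 : ℝ) ^ j) : (x, u) ∈ Lset := by
  refine ⟨hu, huj.trans (pow_le_one₀ (by norm_num) (by norm_num)), ?_⟩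
  intro k hk
  exact huj.trans (half_pow_le (hx k hk))

theorem ht_pos (j m : ℕ) : 0 < ht j m := lt_trans (by positivity) (ht_bounds j m).1

theorem closed_insert_zero {A : Set ℝ} (hpos : ∀ y ∈ A, 0 ≤ y)
    (hfin : ∀ m : ℕ, {y ∈ A | (1 / 2 : ℝ) ^ m ≤ y}.Finite) : IsClosed (insert 0 A) := by
  rw [← isOpen_compl_iff, isOpen_iff_mem_nhds]
  intro y hy
  simp only [mem_compl_iff, mem_insert_iff, not_or] at hy
  rcases lt_or_gt_of_ne hy.1 with h1 | h1
  · refine Filter.mem_of_superset (Iio_mem_nhds h1) ?_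
    rintro z hz (rfl | hz')
    · exact lt_irrefl _ (Set.mem_Iio.1 hz)
    · exact absurd (hpos z hz') (not_le.2 (Set.mem_Iio.1 hz))
  · obtain ⟨m, hm⟩ := exists_pow_lt_of_lt_one h1 (show (1 / 2 : ℝ) < 1 by norm_num)
    have h2 : {z ∈ A | (1 / 2 : ℝ) ^ m ≤ z}ᶜ ∈ 𝓝 y :=
      (hfin m).isClosed.isOpen_compl.mem_nhds (fun h' => hy.2 h'.1)
    refine Filter.mem_of_superset (inter_mem h2 (Ioi_mem_nhds hm)) ?_
    rintro z ⟨hz1, hz2⟩ (rfl | hz')
    · have : (0 : ℝ) < (1 / 2 : ℝ) ^ m := by positivity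
      exact absurd (Set.mem_Ioi.1 hz2) (not_lt.2 this.le)
    · exact hz1 ⟨hz', le_of_lt (Set.mem_Ioi.1 hz2)⟩

theorem goodJoins : GoodJoins ja jb jh where
  pos := by
    rintro ⟨⟨n, r, s⟩, hc⟩
    cases s
    · exact ht_pos _ _
    · exact ht_pos _ _
  inj := by
    rintro ⟨⟨n, r, s⟩, hc⟩ ⟨⟨n', r', s'⟩, hc'⟩ hh
    apply Subtype.ext
    cases s <;> cases s' <;> simp only [jh, if_true, if_false, Bool.false_eq_true] at hh <;>
      obtain ⟨h1, h2⟩ := ht_inj hh
    · have h3 : Nat.pair n r = Nat.pair n' r' := by omega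
      obtain ⟨rfl, rfl⟩ := pair_inj h3
      rfl
    · omega
    · omega
    · obtain ⟨rfl, rfl⟩ := pair_inj h1
      rfl
  closed := by
    intro i l
    unfold Tset
    apply closed_insert_zero
    · rintro _ ⟨⟨⟨n, r, s⟩, hc⟩, _, rfl⟩
      cases s
      · exact (ht_pos _ _).le
      · exact (ht_pos _ _).le
    · intro m
      have h1 : {c : ℕ × ℕ × Bool | Nat.pair c.1 c.2.1 ≤ m + l}.Finite := by
        refine ((Set.finite_Iic (m + l)).prod ((Set.finite_Iic (m + l)).prod
          (Set.toFinite (univ : Set Bool)))).subset ?_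
        rintro ⟨n, r, s⟩ hc
        simp only [mem_ofPred_eq] at hc
        refine ⟨?_, ?_, mem_univ _⟩
        · exact (n_le_pair n r).trans hc
        · exact (r_le_pair n r).trans hc
      have h2 : {c : Jn | Nat.pair c.1.1 c.1.2.1 ≤ m + l}.Finite :=
        h1.preimage Subtype.val_injective.injOn
      refine (h2.image jh).subset ?_
      rintro y ⟨⟨⟨⟨n, r, s⟩, hc⟩, hsep, rfl⟩, hy⟩
      refine ⟨⟨⟨n, r, s⟩, hc⟩, ?_, rfl⟩
      show Nat.pair n r ≤ m + l
      cases s
      · -- low join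
        by_contra hlt
        push Not at hlt
        apply hsep
        have hk : l < key n r 1 := by
          have := pair_le_key n r 1
          omega
        simp only [Cyl, ja, jb, if_false, Bool.false_eq_true]
        constructor
        · intro h3 t ht'
          rw [← qm_eq_qp (by omega)]
          exact h3 t ht'
        · intro h3 t ht'
          rw [qm_eq_qp (show t ≠ key n r 1 by omega)]
          exact h3 t ht'
      · simp only [jh, if_true] at hy
        have h3 := (ht_bounds (Nat.pair n r) (2 * Nat.pair n r + 1)).2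
        by_contra hlt
        push Not at hlt
        have h4 := half_pow_le (show m ≤ Nat.pair n r by omega)
        linarith
  left := by
    rintro ⟨⟨n, r, s⟩, hc⟩
    cases s
    · simp only [ja, jh, if_false, Bool.false_eq_true]
      exact mem_Lset_of_blk (fun k hk => qm_blk hk) (ht_pos _ _).le (ht_bounds _ _).2.le
    · simp only [ja, jh, if_true]
      have h1 : lev n r ≤ Nat.pair n r := by
        have := lev_le (n := n) (r := r)
        have := n_le_pair n r
        omega
      exact mem_Lset_of_blk (fun k hk => (qp_blk hk).trans h1) (ht_pos _ _).le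
        (ht_bounds _ _).2.le
  right := by
    rintro ⟨⟨n, r, s⟩, hc⟩
    cases s
    · simp only [jb, jh, if_false, Bool.false_eq_true]
      exact mem_Lset_of_blk (fun k hk => qp_blk hk) (ht_pos _ _).le (ht_bounds _ _).2.le
    · simp only [jb, jh, if_true]
      have h1 : lev n (r + 1) ≤ Nat.pair n r := by
        have := lev_le (n := n) (r := r + 1)
        have := n_le_pair n r
        omega
      exact mem_Lset_of_blk (fun k hk => (qm_blk hk).trans h1) (ht_pos _ _).le
        (ht_bounds _ _).2.le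

end Pool.Agent.Helper452.Cont
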