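import Pool.Agent.Helper452.ContRem

open Set Filter Topology

set_option linter.unusedSectionVars false
set_option linter.unusedVariables false

namespace Pool.Agent.Helper452.Cont

universe u

variable {X : Type u} [TopologicalSpace X] [TopologicalSpace.MetrizableSpace X] [CompactSpace X]
  {p : X}

/-- a criterion for indecomposability of the remainder -/
theorem indecomposable_of_splits'
    (h : ∀ O W : Set {x : X // x ≠ p}, IsOpen O → IsOpen W → Disjoint O W → Acc O → Acc W →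
      ∃ (P Q : Set {x : X // x ≠ p}) (N : Set X), IsClosed P ∧ IsClosed Q ∧ Disjoint P Q ∧
        N ∈ 𝓝 p ∧ Subtype.val ⁻¹' N ⊆ P ∪ Q ∪ O ∧ Acc (P ∩ W) ∧ Acc (Q ∩ W))
    (A B : Set (StoneCech {x : X // x ≠ p})) (hA : IsCompact A) (hAc : IsConnected A)
    (hB : IsCompact B) (hAB : A ∪ B = Rem {x : X // x ≠ p}) :
    A = Rem {x : X // x ≠ p} ∨ B = Rem {x : X // x ≠ p} := by
  by_contra hcon
  push Not at hcon
  obtain ⟨hA', hB'⟩ := hcon
  have hAsub : A ⊆ Rem {x : X // x ≠ p} := hAB ▸ subset_union_left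
  have hBsub : B ⊆ Rem {x : X // x ≠ p} := hAB ▸ subset_union_right
  obtain ⟨r, hr, hrA⟩ := exists_of_ssubset (hAsub.ssubset_of_ne hA')
  obtain ⟨s, hs, hsB⟩ := exists_of_ssubset (hBsub.ssubset_of_ne hB')
  have hsA : s ∈ A := by
    have : s ∈ A ∪ B := hAB ▸ hs
    exact this.resolve_right hsB
  -- separate
  obtain ⟨f, hf0, hf1, -⟩ := exists_continuous_zero_one_of_isClosed hA.isClosed
    (isClosed_singleton (x := r)) (Set.disjoint_singleton_right.2 hrA)
  obtain ⟨g, hg0, hg1, -⟩ := exists_continuous_zero_one_of_isClosed hB.isClosed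
    (isClosed_singleton (x := s)) (Set.disjoint_singleton_right.2 hsB)
  have hcf : Continuous (fun y : {x : X // x ≠ p} => f (stoneCechUnit y)) :=
    f.continuous.comp continuous_stoneCechUnit
  have hcg : Continuous (fun y : {x : X // x ≠ p} => g (stoneCechUnit y)) :=
    g.continuous.comp continuous_stoneCechUnit
  have hfr : f r = 1 := hf1 rfl
  have hgs : g s = 1 := hg1 rfl
  have dense : ∀ t ∈ Rem {x : X // x ≠ p}, ∀ o : Set (StoneCech {x : X // x ≠ p}), IsOpen o →
      t ∈ o → Acc {y : {x : X // x ≠ p} | stoneCechUnit y ∈ o} := by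
    intro t ht o ho hto
    refine acc_of_mem ht ?_
    rw [mem_closure_iff]
    intro o' ho' hto'
    have h3 : t ∈ closure (range (stoneCechUnit : {x : X // x ≠ p} → _)) :=
      denseRange_stoneCechUnit t
    obtain ⟨_, hz, y, rfl⟩ := mem_closure_iff.1 h3 _ (ho.inter ho') ⟨hto, hto'⟩
    exact ⟨stoneCechUnit y, hz.2, y, hz.1, rfl⟩
  have hG0 : ¬ Acc ({y : {x : X // x ≠ p} | f (stoneCechUnit y) ∈ Ioi (1/2 : ℝ)} ∩
      {y | g (stoneCechUnit y) ∈ Ioi (1/2 : ℝ)}) := by
    intro hacc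
    obtain ⟨t, ht, ht'⟩ := exists_mem_of_acc hacc
    have h6 : closure (stoneCechUnit '' ({y : {x : X // x ≠ p} |
          f (stoneCechUnit y) ∈ Ioi (1/2 : ℝ)} ∩ {y | g (stoneCechUnit y) ∈ Ioi (1/2 : ℝ)})) ⊆
          f ⁻¹' (Ici (1/2 : ℝ)) ∩ g ⁻¹' (Ici (1/2 : ℝ)) := by
      refine closure_minimal ?_
        ((isClosed_Ici.preimage f.continuous).inter (isClosed_Ici.preimage g.continuous))
      rintro _ ⟨y, hy, rfl⟩
      exact ⟨le_of_lt (show (1/2 : ℝ) < f (stoneCechUnit y) from hy.1),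
        le_of_lt (show (1/2 : ℝ) < g (stoneCechUnit y) from hy.2)⟩
    obtain ⟨h7, h7'⟩ := h6 ht'
    have htAB : t ∈ A ∪ B := hAB ▸ ht
    rcases htAB with h8 | h8
    · have h9 : f t = 0 := hf0 h8
      simp only [mem_preimage, mem_Ici, h9] at h7
      norm_num at h7
    · have h9 : g t = 0 := hg0 h8
      simp only [mem_preimage, mem_Ici, h9] at h7'
      norm_num at h7'
  have hN0 : (closure (Subtype.val '' ({y : {x : X // x ≠ p} |
      f (stoneCechUnit y) ∈ Ioi (1/2 : ℝ)} ∩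
      {y | g (stoneCechUnit y) ∈ Ioi (1/2 : ℝ)})))ᶜ ∈ 𝓝 p :=
    isClosed_closure.isOpen_compl.mem_nhds hG0
  obtain ⟨P, Q, N, hP, hQ, hPQ, hN, hcov', hPW, hQW⟩ := h
    ({y | f (stoneCechUnit y) ∈ Ioi (1/2 : ℝ)} ∩ Subtype.val ⁻¹'
      (closure (Subtype.val '' ({y : {x : X // x ≠ p} |
      f (stoneCechUnit y) ∈ Ioi (1/2 : ℝ)} ∩
      {y | g (stoneCechUnit y) ∈ Ioi (1/2 : ℝ)})))ᶜ)
    {y | g (stoneCechUnit y) ∈ Ioi (1/2 : ℝ)}
    ((isOpen_Ioi.preimage hcf).inter
      (isClosed_closure.isOpen_compl.preimage continuous_subtype_val))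
    (isOpen_Ioi.preimage hcg)
    (by
      rw [Set.disjoint_left]
      rintro y ⟨hy1, hy2⟩ hy3
      exact hy2 (subset_closure ⟨y, ⟨hy1, hy3⟩, rfl⟩))
    (acc_inter (dense r hr (f ⁻¹' Ioi (1/2 : ℝ)) (isOpen_Ioi.preimage f.continuous)
      (by simp only [mem_preimage, mem_Ioi, hfr]; norm_num)) hN0)
    (dense s hs (g ⁻¹' Ioi (1/2 : ℝ)) (isOpen_Ioi.preimage g.continuous)
      (by simp only [mem_preimage, mem_Ioi, hgs]; norm_num))
  have hcov : Subtype.val ⁻¹' N ⊆ P ∪ Q ∪
      {y : {x : X // x ≠ p} | f (stoneCechUnit y) ∈ Ioi (1/2 : ℝ)} :=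
    hcov'.trans (union_subset_union_right _ inter_subset_left)
  have hAcov : A ⊆ closure (stoneCechUnit '' P) ∪ closure (stoneCechUnit '' Q) := by
    intro z hz
    have hzR := hAsub hz
    have h3 : z ∈ closure (stoneCechUnit '' (univ : Set {x : X // x ≠ p})) := by
      rw [image_univ]
      exact denseRange_stoneCechUnit z
    have h4 := mem_closure_near hzR h3 hN
    rw [univ_inter] at h4
    have h5 := closure_mono (image_mono hcov) h4
    rw [image_union, closure_union, image_union, closure_union] at h5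
    rcases h5 with h5 | h5
    · exact h5
    · exfalso
      have h6 : closure (stoneCechUnit '' {y : {x : X // x ≠ p} |
          f (stoneCechUnit y) ∈ Ioi (1/2 : ℝ)}) ⊆ f ⁻¹' (Ici (1/2 : ℝ)) := by
        refine closure_minimal ?_ (isClosed_Ici.preimage f.continuous)
        rintro _ ⟨y, hy, rfl⟩
        exact le_of_lt (show (1/2 : ℝ) < f (stoneCechUnit y) from hy)
      have h7 := h6 h5
      have h8 : f z = 0 := hf0 hz
      simp only [mem_preimage, mem_Ici, h8] at h7
      norm_num at h7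
  have hWA : ∀ G : Set {x : X // x ≠ p},
      Acc (G ∩ {y | g (stoneCechUnit y) ∈ Ioi (1/2 : ℝ)}) →
      (A ∩ closure (stoneCechUnit '' G)).Nonempty := by
    intro G hG
    obtain ⟨t, ht, ht'⟩ := exists_mem_of_acc hG
    have h6 : closure (stoneCechUnit '' (G ∩ {y : {x : X // x ≠ p} |
          g (stoneCechUnit y) ∈ Ioi (1/2 : ℝ)})) ⊆ g ⁻¹' (Ici (1/2 : ℝ)) := by
      refine closure_minimal ?_ (isClosed_Ici.preimage g.continuous)
      rintro _ ⟨y, hy, rfl⟩
      exact le_of_lt (show (1/2 : ℝ) < g (stoneCechUnit y) from hy.2)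
    have h7 := h6 ht'
    have htB : t ∉ B := by
      intro htB
      have h8 : g t = 0 := hg0 htB
      simp only [mem_preimage, mem_Ici, h8] at h7
      norm_num at h7
    have htA : t ∈ A := by
      have : t ∈ A ∪ B := hAB ▸ ht
      exact this.resolve_right htB
    exact ⟨t, htA, closure_mono (image_mono inter_subset_left) ht'⟩
  obtain ⟨z, _, hz⟩ := (isPreconnected_closed_iff.1 hAc.isPreconnected)
    (closure (stoneCechUnit '' P)) (closure (stoneCechUnit '' Q))
    isClosed_closure isClosed_closure hAcov (hWA P hPW) (hWA Q hQW)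
  exact Set.disjoint_left.1 (disjoint_closures hP hQ hPQ) hz.1 hz.2

end Pool.Agent.Helper452.Cont
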