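import Pool.Agent.Helper452.ContComb
import Pool.Agent.Helper452.ContCrit

open Set Filter Topology Metric

set_option linter.unusedSectionVars false
set_option linter.unusedVariables false

namespace Pool.Agent.Helper452.Cont

/-- the space of the counterexample -/
abbrev EX : Type := XX ja jb jh

/-- its special point -/
noncomputable abbrev ep : EX := pp ja jb jh

/-- the punctured space -/
abbrev EY : Type := {y : EX // y ≠ ep}

/-- points of level at most `j` -/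
def Al (j : ℕ) : Set (ℕ → Bool) := {x | ∀ k, x k = true → blk k ≤ j}

theorem Al_mono {i j : ℕ} (hij : i ≤ j) : Al i ⊆ Al j := fun x hx k hk => (hx k hk).trans hij

theorem mem_Lset_of_Al {x : ℕ → Bool} {j : ℕ} {u : ℝ} (hx : x ∈ Al j) (hu : 0 ≤ u)
    (huj : u ≤ (1 / 2 : ℝ) ^ j) : (x, u) ∈ Lset := mem_Lset_of_blk hx hu huj

theorem Al_of_mem_Lset {x : ℕ → Bool} {j : ℕ} {u : ℝ} (hx : (x, u) ∈ Lset)
    (hu : (1 / 2 : ℝ) ^ (j + 1) < u) : x ∈ Al j := by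
  intro k hk
  by_contra hcon
  push Not at hcon
  have h1 := hx.2.2 k hk
  have h2 := half_pow_le (show j + 1 ≤ blk k from hcon)
  simp only at h1
  linarith

theorem exists_strip {u : ℝ} (hu : 0 < u) (hu1 : u ≤ 1) :
    ∃ j : ℕ, (1 / 2 : ℝ) ^ (j + 1) < u ∧ u ≤ (1 / 2 : ℝ) ^ j := by
  obtain ⟨n, h1, h2⟩ := exists_nat_pow_near_of_lt_one hu hu1 (show (0 : ℝ) < 1 / 2 by norm_num)
    (by norm_num)
  exact ⟨n, h1, h2⟩

theorem cyl_nhds {U : Set (ℕ → Bool)} (hU : IsOpen U) {x : ℕ → Bool} (hx : x ∈ U) :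
    ∃ M : ℕ, ∀ y : ℕ → Bool, (∀ t < M, y t = x t) → y ∈ U := by
  rw [isOpen_pi_iff] at hU
  obtain ⟨I, u, h1, h2⟩ := hU x hx
  refine ⟨I.sup id + 1, fun y hy => h2 ?_⟩
  intro t ht
  have h3 : t ≤ I.sup id := Finset.le_sup (f := id) ht
  rw [hy t (by omega)]
  exact (h1 t ht).2

/-- the point of the punctured space lifts -/
def up (P : Set EY) (z : (ℕ → Bool) × ℝ) : Prop :=
  ∃ (hz : z ∈ Lset) (y : EY), y ∈ P ∧ mk ja jb jh ⟨z, hz⟩ = y.1

theorem up_disj {P Q : Set EY} (hPQ : Disjoint P Q) {z : (ℕ → Bool) × ℝ} (h1 : up P z)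
    (h2 : up Q z) : False := by
  obtain ⟨hz, y, hy, hzy⟩ := h1
  obtain ⟨hz', y', hy', hzy'⟩ := h2
  have : y = y' := Subtype.ext (by rw [← hzy, ← hzy'])
  subst this
  exact Set.disjoint_left.1 hPQ hy hy'

theorem up_glued {P : Set EY} {z z' : (ℕ → Bool) × ℝ} (h1 : up P z) (hz' : z' ∈ Lset)
    (hg : Glued ja jb jh z z') : up P z' := by
  obtain ⟨hz, y, hy, hzy⟩ := h1
  refine ⟨hz', y, hy, ?_⟩
  rw [← hzy]
  exact Subtype.ext (psi_eq_of_glued hg).symm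

theorem mk_ne_ep {z : Lset} (hz : 0 < z.1.2) : mk ja jb jh z ≠ ep := by
  intro h
  have := (uu_eq_zero ja jb jh).2 h
  rw [uu_mk] at this
  exact hz.ne' this

theorem up_cases {P Q : Set EY} {m : ℕ}
    (hcov : ∀ y : EY, uu ja jb jh y.1 ≤ (1 / 2 : ℝ) ^ m → y ∈ P ∪ Q)
    {z : (ℕ → Bool) × ℝ} (hz : z ∈ Lset) (h0 : 0 < z.2) (h1 : z.2 ≤ (1 / 2 : ℝ) ^ m) :
    up P z ∨ up Q z := by
  rcases hcov ⟨mk ja jb jh ⟨z, hz⟩, mk_ne_ep h0⟩ h1 with h2 | h2
  · exact Or.inl ⟨hz, _, h2, rfl⟩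
  · exact Or.inr ⟨hz, _, h2, rfl⟩

theorem up_line {P Q : Set EY} (hP : IsClosed P) (hQ : IsClosed Q) (hPQ : Disjoint P Q) {m : ℕ}
    (hcov : ∀ y : EY, uu ja jb jh y.1 ≤ (1 / 2 : ℝ) ^ m → y ∈ P ∪ Q)
    {x : ℕ → Bool} {u t : ℝ} (ht : (x, t) ∈ Lset) (ht0 : 0 < t) (ht1 : t ≤ (1 / 2 : ℝ) ^ m)
    (hu1 : u ≤ (1 / 2 : ℝ) ^ m) (h1 : up P (x, u)) : up P (x, t) := by
  obtain ⟨hz, y, hy, hzy⟩ := h1
  -- the longer of the two segments
  have key : ∀ s : ℝ, (x, s) ∈ Lset → s ≤ (1 / 2 : ℝ) ^ m → u ≤ s → t ≤ s → up P (x, t) := by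
    intro s hs hs1 hus hts
    have hpre := isPreconnected_lineY ja jb jh hs
    rw [isPreconnected_closed_iff] at hpre
    have hsub : lineY ja jb jh x s ⊆ P ∪ Q := by
      rintro w ⟨z, hz1, hz2, hz3⟩
      apply hcov
      rw [← hz3, uu_mk]
      exact hz2.trans hs1
    by_contra hcon
    have h2 : up Q (x, t) := (up_cases hcov ht ht0 ht1).resolve_left hcon
    obtain ⟨hz', y', hy', hzy'⟩ := h2
    obtain ⟨w, _, hw⟩ := hpre P Q hP hQ hsub ⟨y, ⟨⟨(x, u), hz⟩, rfl, hus, hzy⟩, hy⟩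
      ⟨y', ⟨⟨(x, t), hz'⟩, rfl, hts, hzy'⟩, hy'⟩
    exact Set.disjoint_left.1 hPQ hw.1 hw.2
  rcases le_total u t with h2 | h2
  · exact key t ht ht1 h2 le_rfl
  · exact key u hz hu1 le_rfl h2

theorem up_local {P Q : Set EY} (hP : IsClosed P) (hQ : IsClosed Q) (hPQ : Disjoint P Q) {m : ℕ}
    (hcov : ∀ y : EY, uu ja jb jh y.1 ≤ (1 / 2 : ℝ) ^ m → y ∈ P ∪ Q)
    {x : ℕ → Bool} {j : ℕ} (hx : x ∈ Al j) (hj : m ≤ j) (h1 : up P (x, (1 / 2 : ℝ) ^ j)) :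
    ∃ M : ℕ, ∀ x' ∈ Al j, (∀ t < M, x' t = x t) → up P (x', (1 / 2 : ℝ) ^ j) := by
  have hpos : (0 : ℝ) < (1 / 2 : ℝ) ^ j := by positivity
  let φ : Al j → EY := fun x => ⟨mk ja jb jh ⟨(x.1, (1 / 2 : ℝ) ^ j),
    mem_Lset_of_Al x.2 hpos.le le_rfl⟩, mk_ne_ep hpos⟩
  have hφ : Continuous φ := by
    refine Continuous.subtype_mk ((continuous_mk ja jb jh).comp ?_) _
    exact Continuous.subtype_mk (continuous_subtype_val.prodMk continuous_const) _
  have hopen : IsOpen (φ ⁻¹' Qᶜ) := hQ.isOpen_compl.preimage hφ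
  obtain ⟨U, hU, hUe⟩ := isOpen_induced_iff.1 hopen
  have hxU : x ∈ U := by
    have h2 : (⟨x, hx⟩ : Al j) ∈ φ ⁻¹' Qᶜ := by
      intro h3
      obtain ⟨hz, y, hy, hzy⟩ := h1
      have : φ ⟨x, hx⟩ = y := Subtype.ext hzy
      rw [this] at h3
      exact Set.disjoint_left.1 hPQ hy h3
    rw [← hUe] at h2
    exact h2
  obtain ⟨M, hM⟩ := cyl_nhds hU hxU
  refine ⟨M, fun x' hx' hxx => ?_⟩
  have h2 : (⟨x', hx'⟩ : Al j) ∈ φ ⁻¹' Qᶜ := by
    rw [← hUe]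
    exact hM x' hxx
  rcases up_cases hcov (mem_Lset_of_Al hx' hpos.le le_rfl) hpos (half_pow_le hj) with h3 | h3
  · exact h3
  · exfalso
    obtain ⟨hz, y, hy, hzy⟩ := h3
    have : φ ⟨x', hx'⟩ = y := Subtype.ext hzy
    exact h2 (this ▸ hy)

theorem qm_mem_Al (n r : ℕ) : qm n r ∈ Al (lev n r) := fun k hk => qm_blk hk

theorem qp_mem_Al (n r : ℕ) : qp n r ∈ Al (lev n r) := fun k hk => qp_blk hk

theorem low_glued {n r : ℕ} (h1 : 1 ≤ r) (h2 : r < 2 ^ (n * n)) :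
    Glued ja jb jh (qm n r, ht (lev n r) (2 * Nat.pair n r))
      (qp n r, ht (lev n r) (2 * Nat.pair n r)) := by
  refine ⟨rfl, Or.inr (Or.inr ⟨⟨(n, r, false), h1, by simpa using h2⟩, rfl, Or.inl ⟨rfl, rfl⟩⟩)⟩

theorem high_glued {n r : ℕ} (h1 : 1 ≤ r) (h2 : r + 1 < 2 ^ (n * n)) :
    Glued ja jb jh (qp n r, ht (Nat.pair n r) (2 * Nat.pair n r + 1))
      (qm n (r + 1), ht (Nat.pair n r) (2 * Nat.pair n r + 1)) := by
  refine ⟨rfl, Or.inr (Or.inr ⟨⟨(n, r, true), h1, by simpa using h2⟩, rfl, Or.inl ⟨rfl, rfl⟩⟩)⟩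

theorem lev_le_pair (n r r' : ℕ) : lev n r ≤ Nat.pair n r' := by
  have := lev_le (n := n) (r := r)
  have := n_le_pair n r'
  omega

/-- the colour is carried along the path -/
theorem up_step {P Q : Set EY} (hP : IsClosed P) (hQ : IsClosed Q) (hPQ : Disjoint P Q) {m : ℕ}
    (hcov : ∀ y : EY, uu ja jb jh y.1 ≤ (1 / 2 : ℝ) ^ m → y ∈ P ∪ Q)
    {n s : ℕ} (h1 : 1 ≤ s) (h2 : s + 1 < 2 ^ (n * n)) (hm1 : m ≤ lev n s)
    (hm2 : m ≤ lev n (s + 1)) (hup : up P (qm n s, (1 / 2 : ℝ) ^ lev n s)) :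
    up P (qm n (s + 1), (1 / 2 : ℝ) ^ lev n (s + 1)) := by
  have hb1 := ht_bounds (lev n s) (2 * Nat.pair n s)
  have hb2 := ht_bounds (Nat.pair n s) (2 * Nat.pair n s + 1)
  have e1 := half_pow_le hm1
  have e2 := half_pow_le hm2
  have e3 := half_pow_le (lev_le_pair n s s)
  have e4 := half_pow_le (lev_le_pair n (s + 1) s)
  have a1 : up P (qm n s, ht (lev n s) (2 * Nat.pair n s)) :=
    up_line hP hQ hPQ hcov (mem_Lset_of_Al (qm_mem_Al n s) (ht_pos _ _).le hb1.2.le)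
      (ht_pos _ _) (hb1.2.le.trans e1) e1 hup
  have a2 : up P (qp n s, ht (lev n s) (2 * Nat.pair n s)) :=
    up_glued a1 (mem_Lset_of_Al (qp_mem_Al n s) (ht_pos _ _).le hb1.2.le)
      (low_glued h1 (by omega))
  have a3 : up P (qp n s, ht (Nat.pair n s) (2 * Nat.pair n s + 1)) :=
    up_line hP hQ hPQ hcov (mem_Lset_of_Al (qp_mem_Al n s) (ht_pos _ _).le
      (hb2.2.le.trans e3)) (ht_pos _ _) ((hb2.2.le.trans e3).trans e1) (hb1.2.le.trans e1) a2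
  have a4 : up P (qm n (s + 1), ht (Nat.pair n s) (2 * Nat.pair n s + 1)) :=
    up_glued a3 (mem_Lset_of_Al (qm_mem_Al n (s + 1)) (ht_pos _ _).le (hb2.2.le.trans e4))
      (high_glued h1 h2)
  exact up_line hP hQ hPQ hcov (mem_Lset_of_Al (qm_mem_Al n (s + 1)) (by positivity) le_rfl)
    (by positivity) e2 ((hb2.2.le.trans e3).trans e1) a4

theorem lev_ge {n j s : ℕ} (hs0 : 1 ≤ s) (hj : j < n) (hs : s < 2 ^ ((n - j) * n)) :
    j ≤ lev n s := by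
  have h1 : padicValNat 2 s < (n - j) * n := by
    by_contra hcon
    push Not at hcon
    have h2 : 2 ^ ((n - j) * n) ≤ s :=
      (Nat.pow_le_pow_right (by norm_num) hcon).trans
        (Nat.le_of_dvd hs0 pow_padicValNat_dvd)
    omega
  have h3 : padicValNat 2 s / n < n - j := Nat.div_lt_of_lt_mul (by rwa [Nat.mul_comm] at h1)
  unfold lev
  omega

theorem lev_idx_pow {n j i : ℕ} (hj : j < n) (hi : i < n) :
    lev n (2 ^ ((n - 1 - j) * n + i)) = j ∧ idx n (2 ^ ((n - 1 - j) * n + i)) = i := by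
  have h1 : padicValNat 2 (2 ^ ((n - 1 - j) * n + i)) = (n - 1 - j) * n + i := by
    simp
  have h2 : ((n - 1 - j) * n + i) / n = n - 1 - j := by
    rw [Nat.mul_comm, Nat.mul_add_div (by omega), Nat.div_eq_of_lt hi, Nat.add_zero]
  have h3 : ((n - 1 - j) * n + i) % n = i := by
    rw [Nat.mul_comm, Nat.mul_add_mod, Nat.mod_eq_of_lt hi]
  unfold lev idx
  rw [h1, h2, h3]
  omega

theorem up_walk {P Q : Set EY} (hP : IsClosed P) (hQ : IsClosed Q) (hPQ : Disjoint P Q) {m : ℕ}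
    (hcov : ∀ y : EY, uu ja jb jh y.1 ≤ (1 / 2 : ℝ) ^ m → y ∈ P ∪ Q)
    {n j r : ℕ} (hj : j < n) (hmj : m ≤ j) (h1 : 1 ≤ r)
    (hup : up P (qm n r, (1 / 2 : ℝ) ^ lev n r)) (r' : ℕ) (hr : r ≤ r')
    (hr' : r' < 2 ^ ((n - j) * n)) : up P (qm n r', (1 / 2 : ℝ) ^ lev n r') := by
  induction r', hr using Nat.le_induction with
  | base => exact hup
  | succ s hs ih =>
    have h2 : 2 ^ ((n - j) * n) ≤ 2 ^ (n * n) :=
      Nat.pow_le_pow_right (by norm_num) (Nat.mul_le_mul_right n (Nat.sub_le n j))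
    exact up_step hP hQ hPQ hcov (by omega) (by omega)
      (hmj.trans (lev_ge (by omega) hj (by omega)))
      (hmj.trans (lev_ge (by omega) hj (by omega))) (ih (by omega))

theorem same_colour {P Q : Set EY} (hP : IsClosed P) (hQ : IsClosed Q) (hPQ : Disjoint P Q)
    {m : ℕ} (hcov : ∀ y : EY, uu ja jb jh y.1 ≤ (1 / 2 : ℝ) ^ m → y ∈ P ∪ Q)
    {j : ℕ} (hmj : m ≤ j) {x x' : ℕ → Bool} (hx : x ∈ Al j) (hx' : x' ∈ Al j)
    (h1 : up P (x, (1 / 2 : ℝ) ^ j)) (h2 : up Q (x', (1 / 2 : ℝ) ^ j)) : False := by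
  have hcov' : ∀ y : EY, uu ja jb jh y.1 ≤ (1 / 2 : ℝ) ^ m → y ∈ Q ∪ P := by
    intro y hy
    exact (hcov y hy).symm
  obtain ⟨M, hM⟩ := up_local hP hQ hPQ hcov hx hmj h1
  obtain ⟨M', hM'⟩ := up_local hQ hP hPQ.symm hcov' hx' hmj h2
  obtain ⟨i, hi⟩ := exists_testBit x M
  obtain ⟨i', hi'⟩ := exists_testBit x' M'
  obtain ⟨n, hnd⟩ : ∃ n, n = j + M + M' + i + i' + 1 := ⟨_, rfl⟩
  obtain ⟨hl, hid⟩ := lev_idx_pow (n := n) (j := j) (i := i) (by omega) (by omega)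
  obtain ⟨hl', hid'⟩ := lev_idx_pow (n := n) (j := j) (i := i') (by omega) (by omega)
  have hlt : ∀ i'' < n, 2 ^ ((n - 1 - j) * n + i'') < 2 ^ ((n - j) * n) := by
    intro i'' hi''
    apply Nat.pow_lt_pow_right (by norm_num)
    have : n - j = (n - 1 - j) + 1 := by omega
    rw [this, Nat.add_mul, Nat.one_mul]
    omega
  have b1 : up P (qm n (2 ^ ((n - 1 - j) * n + i)),
      (1 / 2 : ℝ) ^ lev n (2 ^ ((n - 1 - j) * n + i))) := by
    rw [hl]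
    refine hM _ ?_ ?_
    · have := qm_mem_Al n (2 ^ ((n - 1 - j) * n + i))
      rwa [hl] at this
    · intro t ht'
      rw [qm_near (by omega), hl, hid]
      unfold base
      rw [← hi t ht']
      cases hxt : x t
      · simp
      · simp [hx t hxt]
  have b2 : up Q (qm n (2 ^ ((n - 1 - j) * n + i')),
      (1 / 2 : ℝ) ^ lev n (2 ^ ((n - 1 - j) * n + i'))) := by
    rw [hl']
    refine hM' _ ?_ ?_
    · have := qm_mem_Al n (2 ^ ((n - 1 - j) * n + i'))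
      rwa [hl'] at this
    · intro t ht'
      rw [qm_near (by omega), hl', hid']
      unfold base
      rw [← hi' t ht']
      cases hxt : x' t
      · simp
      · simp [hx' t hxt]
  rcases le_total (2 ^ ((n - 1 - j) * n + i)) (2 ^ ((n - 1 - j) * n + i')) with hle | hle
  · exact up_disj hPQ (up_walk hP hQ hPQ hcov (by omega) hmj (Nat.one_le_two_pow) b1 _ hle
      (hlt i' (by omega))) b2
  · exact up_disj hPQ b1 (up_walk hQ hP hPQ.symm hcov' (by omega) hmj (Nat.one_le_two_pow) b2 _ hle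
      (hlt i (by omega)))

theorem up_of_acc {P : Set EY} (hP : Acc P) (m : ℕ) :
    ∃ (j : ℕ) (x : ℕ → Bool) (u : ℝ), m ≤ j ∧ x ∈ Al j ∧ 0 < u ∧ u ≤ (1 / 2 : ℝ) ^ j ∧
      up P (x, u) := by
  rw [acc_iff] at hP
  obtain ⟨y, hy, hym⟩ := hP _ (small_mem_nhds ja jb jh (show (0 : ℝ) < (1 / 2) ^ m by positivity))
  obtain ⟨⟨⟨x, u⟩, hz⟩, hzy⟩ := mk_surjective ja jb jh y.1
  have hym' : uu ja jb jh y.1 ≤ (1 / 2 : ℝ) ^ m := hym
  have hu : 0 < u := by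
    have := uu_pos ja jb jh y.2
    rw [← hzy] at this
    exact this
  rw [← hzy] at hym'
  have hum : u ≤ (1 / 2 : ℝ) ^ m := hym'
  obtain ⟨j, hj1, hj2⟩ := exists_strip hu hz.2.1
  refine ⟨j, x, u, ?_, Al_of_mem_Lset hz hj1, hu, hj2, hz, y, hy, hzy⟩
  by_contra hcon
  push Not at hcon
  have := half_pow_le (show j + 1 ≤ m from hcon)
  linarith

/-- the punctured space does not split near the special point -/
theorem no_split {P Q : Set EY} (hP : IsClosed P) (hQ : IsClosed Q) (hPQ : Disjoint P Q)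
    {N : Set EX} (hN : N ∈ 𝓝 ep) (hcovN : Subtype.val ⁻¹' N ⊆ P ∪ Q) (haP : Acc P)
    (haQ : Acc Q) : False := by
  obtain ⟨m, hm⟩ := nhds_small ja jb jh hN
  have hcov : ∀ y : EY, uu ja jb jh y.1 ≤ (1 / 2 : ℝ) ^ m → y ∈ P ∪ Q :=
    fun y hy => hcovN (hm y.1 hy)
  have hcov' : ∀ y : EY, uu ja jb jh y.1 ≤ (1 / 2 : ℝ) ^ m → y ∈ Q ∪ P :=
    fun y hy => (hcov y hy).symm
  obtain ⟨j, x, u, hj, hx, hu, huj, h1⟩ := up_of_acc haP m
  obtain ⟨j', x', u', hj', hx', hu', huj', h2⟩ := up_of_acc haQ m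
  have hJ1 := half_pow_le (le_max_left j j')
  have hJ2 := half_pow_le (le_max_right j j')
  have hJ3 := half_pow_le (hj.trans (le_max_left j j'))
  refine same_colour hP hQ hPQ hcov (hj.trans (le_max_left j j'))
    (Al_mono (le_max_left j j') hx) (Al_mono (le_max_right j j') hx') ?_ ?_
  · exact up_line hP hQ hPQ hcov (mem_Lset_of_Al (Al_mono (le_max_left j j') hx)
      (by positivity) le_rfl) (by positivity) hJ3 (huj.trans (half_pow_le hj)) h1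
  · exact up_line hQ hP hPQ.symm hcov' (mem_Lset_of_Al (Al_mono (le_max_right j j') hx')
      (by positivity) le_rfl) (by positivity) hJ3 (huj'.trans (half_pow_le hj')) h2

theorem preconnected_rem : IsPreconnected (Rem EY) := by
  have h1 := preconnected_star (p := ep) (F := univ) isClosed_univ
    (fun P Q N hP hQ hPQ _ _ hN hcov haP haQ => no_split hP hQ hPQ hN (by
      rwa [univ_inter] at hcov) haP haQ)
  have h2 : Rem EY ∩ closure (stoneCechUnit '' (univ : Set EY)) = Rem EY := by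
    apply inter_eq_left.2
    intro z _
    rw [image_univ]
    exact denseRange_stoneCechUnit z
  rwa [h2] at h1

end Pool.Agent.Helper452.Cont
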