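import Pool.Agent.Helper452.ContSplit

open Set Filter Topology Metric

set_option linter.unusedSectionVars false
set_option linter.unusedVariables false

namespace Pool.Agent.Helper452.Cont

/-- choice of boxes -/
theorem choose_boxes (G : Set EY) : ∃ (i l : ℕ → ℕ) (mid : ℕ → ℝ),
    (∀ j, (1 / 2 : ℝ) ^ (j + 1) < mid j ∧ mid j < (1 / 2 : ℝ) ^ j) ∧
    ∀ j, (∃ i' l' mid', HasBox G j i' l' mid') → HasBox G j (i j) (l j) (mid j) := by
  have h1 : ∀ j, ∃ (i l : ℕ) (mid : ℝ), ((1 / 2 : ℝ) ^ (j + 1) < mid ∧ mid < (1 / 2 : ℝ) ^ j) ∧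
      ((∃ i' l' mid', HasBox G j i' l' mid') → HasBox G j i l mid) := by
    intro j
    by_cases h2 : ∃ i' l' mid', HasBox G j i' l' mid'
    · obtain ⟨i, l, mid, h3⟩ := h2
      exact ⟨i, l, mid, ⟨h3.1, h3.2.1⟩, fun _ => h3⟩
    · obtain ⟨mid, h3, h4⟩ := exists_between (half_pow_lt (Nat.lt_succ_self j))
      exact ⟨0, 0, mid, ⟨h3, h4⟩, fun h => absurd h h2⟩
  choose i l mid h2 h3 using h1
  exact ⟨i, l, mid, h2, h3⟩

theorem exists_cutData {O W : Set EY} (hO : IsOpen O) (haO : Acc O) (hW : IsOpen W)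
    (haW : Acc W) : ∃ (D : CutData) (midw : ℕ → ℝ),
      (∀ j, (1 / 2 : ℝ) ^ (j + 1) < D.mid j ∧ D.mid j < (1 / 2 : ℝ) ^ j) ∧
      (∀ j, j ≠ 0 → (∃ n, D.c n = j) → HasBox O j (D.ic j) (D.lc j) (D.mid j)) ∧
      ∀ m, ∃ j, m ≤ j ∧ (1 / 2 : ℝ) ^ (j + 1) < midw j ∧ midw j < (1 / 2 : ℝ) ^ j ∧
        ∀ (b : Bool) (z : Lset), z.1 = (D.z j b, midw j) → z ∈ upS W := by
  classical
  obtain ⟨i, l, mid, h1, h2⟩ := choose_boxes O
  obtain ⟨iw, lw, midw, h3, h4⟩ := choose_boxes W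
  have h5 : ∀ j, ∃ N : ℕ, ∀ m, N ≤ m → mid j < ht j (2 * m) := fun j => exists_high (h1 j).2
  choose N hN using h5
  let P : ℕ → ℕ → Prop := fun n j =>
    (∃ i' l' mid', HasBox O j i' l' mid') ∧ N j + l j + i j + 1 ≤ n
  let c : ℕ → ℕ := fun n => Nat.findGreatest (P n) (n - 1)
  have hcP : ∀ n, c n ≠ 0 → P n (c n) := by
    intro n hn
    exact Nat.findGreatest_of_ne_zero rfl hn
  refine ⟨⟨c, i, l, mid, zz iw lw, ?_, ?_, ?_, zz_pt iw lw, zz_ne iw lw, zz_inj iw lw⟩, midw,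
    h1, ?_, ?_⟩
  · intro n hn
    have : c n ≤ n - 1 := Nat.findGreatest_le (n - 1)
    omega
  · intro j
    obtain ⟨j', hj', hbox⟩ := exists_box hO haO (j + 1)
    refine ⟨N j' + l j' + i j' + 1 + j' + 1, fun n hn => ?_⟩
    have h6 : j' ≤ c n := Nat.le_findGreatest (by omega) ⟨hbox, by omega⟩
    omega
  · intro n hn
    obtain ⟨h6, h7⟩ := hcP n hn
    refine ⟨by omega, by omega, fun m hm => hN _ m (by omega)⟩
  · rintro j hj ⟨n, hn⟩
    have hn' : c n = j := hn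
    have h6 := (hcP n (by omega)).1
    rw [hn'] at h6
    exact h2 j h6
  · intro m
    obtain ⟨j, hj, hbox⟩ := exists_box hW haW m
    obtain ⟨h6, h7⟩ := h3 j
    refine ⟨j, hj, h6, h7, ?_⟩
    intro b z hz
    obtain ⟨-, -, h8⟩ := h4 j hbox
    apply h8
    · rw [hz]
      exact (zz_pt iw lw j b).1
    · rw [hz]
    · intro t ht
      rw [hz]
      exact zz_near ht

/-- the splitting property of the punctured space -/
theorem splits {O W : Set EY} (hO : IsOpen O) (hW : IsOpen W) (hOW : Disjoint O W)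
    (haO : Acc O) (haW : Acc W) :
    ∃ (P Q : Set EY) (N : Set EX), IsClosed P ∧ IsClosed Q ∧ Disjoint P Q ∧
        N ∈ 𝓝 ep ∧ Subtype.val ⁻¹' N ⊆ P ∪ Q ∪ O ∧ Acc (P ∩ W) ∧ Acc (Q ∩ W) := by
  classical
  obtain ⟨D, midw, hmid, hbox, hw⟩ := exists_cutData hO haO hW haW
  obtain ⟨Up, Lo, hdep, hcoh, hjump, hl1, hl2, hh, hz⟩ := exists_cols D
  have hH : ∀ z : Lset, ∀ j, z.1.2 = D.mid j → Lo j z.1.1 ≠ Up j z.1.1 → z ∈ upS O := by
    intro z j hzj hne
    have hzA : z.1.1 ∈ Al j := Al_of_mem_Lset z.2 (by rw [hzj]; exact (hmid j).1)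
    obtain ⟨h1, h2, h3⟩ := hjump j z.1.1 hzA hne
    exact (hbox j h1 h2).2.2 z hzA hzj h3
  let G : Bool → Set Lset := fun b => {z | 0 < z.1.2 ∧ z ∉ upS O ∧ chi Up Lo D.mid z = b}
  have hclosed : ∀ b, IsClosed (G b ∪ {z | z.1.2 = 0}) := by
    intro b
    rw [← isOpen_compl_iff]
    apply isOpen_of_box
    intro z hzc
    have hz0 : 0 < z.1.2 := by
      rcases lt_or_eq_of_le z.2.1 with h1 | h1
      · exact h1
      · exact absurd (Or.inr h1.symm) hzc
    by_cases hzO : z ∈ upS O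
    · obtain ⟨M, ε, hε, h1⟩ := open_box (isOpen_upS hO) hzO
      refine ⟨M, min ε z.1.2, lt_min hε hz0, fun z' h2 h3 => ?_⟩
      have h4 := h1 z' h2 (lt_of_lt_of_le h3 (min_le_left _ _))
      have h5 := lt_of_lt_of_le h3 (min_le_right _ _)
      rw [abs_lt] at h5
      rintro (h6 | h6)
      · exact h6.2.1 h4
      · have h7 : z'.1.2 = 0 := h6
        linarith [h5.1]
    · obtain ⟨M, ε, hε, h1⟩ := chi_loc hdep hcoh hmid hH hz0 hzO
      refine ⟨M, ε, hε, fun z' h2 h3 => ?_⟩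
      obtain ⟨h4, h5⟩ := h1 z' h2 h3
      rintro (h6 | h6)
      · apply hzc
        left
        exact ⟨hz0, hzO, by rw [← h5]; exact h6.2.2⟩
      · have h7 : z'.1.2 = 0 := h6
        linarith
  have hacc : ∀ b, Acc (imY ja jb jh (G b) ∩ W) := by
    intro b
    rw [acc_iff]
    intro N hN
    obtain ⟨m, hm⟩ := nhds_small ja jb jh hN
    obtain ⟨j, hj, h1, h2, h3⟩ := hw m
    have hpos : 0 < midw j := lt_trans (by positivity) h1
    have hzL : (D.z j b, midw j) ∈ Lset := mem_Lset_of_Al (D.z_pt j b).1 hpos.le h2.le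
    obtain ⟨y, hy, hzy⟩ := h3 b ⟨_, hzL⟩ rfl
    refine ⟨y, ⟨⟨⟨_, hzL⟩, ⟨hpos, ?_, ?_⟩, hzy⟩, hy⟩, ?_⟩
    · rintro ⟨y', hy', hzy'⟩
      have : y = y' := Subtype.ext (by rw [← hzy, ← hzy'])
      subst this
      exact Set.disjoint_left.1 hOW hy' hy
    · exact chi_both (j := j) h1 h2.le (hz j b).1 (hz j b).2
    · apply hm
      rw [← hzy, uu_mk]
      exact h2.le.trans (half_pow_le hj)
  refine ⟨imY ja jb jh (G true), imY ja jb jh (G false), univ, isClosed_imY _ _ _ (hclosed true),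
    isClosed_imY _ _ _ (hclosed false), ?_, univ_mem, ?_, hacc true, hacc false⟩
  · rw [Set.disjoint_left]
    rintro y ⟨z, ⟨h1, -, h2⟩, h3⟩ ⟨z', ⟨-, -, h4⟩, h5⟩
    have h6 : Psi ja jb jh z.1 = Psi ja jb jh z'.1 := congrArg Subtype.val (h3.trans h5.symm)
    have h7 := chi_glued (mid := D.mid) hcoh hl1 hl2 hh h1 ((psi_eq_iff goodJoins).1 h6)
    rw [h2, h4] at h7
    exact absurd h7 (by simp)
  · intro y _
    by_cases hyO : y ∈ O
    · exact Or.inr hyO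
    · left
      obtain ⟨z, hzy⟩ := mk_surjective ja jb jh y.1
      have h1 : 0 < z.1.2 := by
        have := uu_pos ja jb jh y.2
        rw [← hzy] at this
        exact this
      have h2 : z ∉ upS O := by
        rintro ⟨y', hy', hzy'⟩
        have : y = y' := Subtype.ext (by rw [← hzy, ← hzy'])
        subst this
        exact hyO hy'
      cases hc : chi Up Lo D.mid z
      · exact Or.inr ⟨z, ⟨h1, h2, hc⟩, hzy⟩
      · exact Or.inl ⟨z, ⟨h1, h2, hc⟩, hzy⟩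

theorem acc_univ_EY : Acc (univ : Set EY) := by
  rw [acc_iff]
  intro N hN
  obtain ⟨m, hm⟩ := nhds_small ja jb jh hN
  have hpos : (0 : ℝ) < (1 / 2 : ℝ) ^ m := by positivity
  have hz : ((fun _ => false : ℕ → Bool), (1 / 2 : ℝ) ^ m) ∈ Lset :=
    mem_Lset_of_Al (j := m) (fun k hk => absurd hk (by simp)) hpos.le le_rfl
  exact ⟨⟨mk ja jb jh ⟨_, hz⟩, mk_ne_ep hpos⟩, mem_univ _, hm _ le_rfl⟩

/-- the remainder of the punctured space is an indecomposable continuum -/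
theorem indec_EY : IsIndecomposableContinuum (Rem EY) := by
  refine ⟨isClosed_rem.isCompact, ⟨?_, preconnected_rem⟩, ?_⟩
  · obtain ⟨r, hr, -⟩ := exists_mem_of_acc acc_univ_EY
    exact ⟨r, hr⟩
  · intro A B hA hAc hB hBc hAB
    exact indecomposable_of_splits' (fun O W hO hW hOW haO haW => splits hO hW hOW haO haW)
      A B hA hAc hB hAB

end Pool.Agent.Helper452.Cont
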