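import Pool.Agent.Helper452.ContConn

open Set Filter Topology Metric

set_option linter.unusedSectionVars false
set_option linter.unusedVariables false

namespace Pool.Agent.Helper452.Cont

/-- `U` depends on finitely many coordinates, all in blocks below `j` -/
def Dep (j : ℕ) (U : (ℕ → Bool) → Bool) : Prop :=
  ∃ M : ℕ, ∀ x y : ℕ → Bool, (∀ t < M, blk t < j → x t = y t) → U x = U y

theorem Dep.mono {i j : ℕ} (hij : i ≤ j) {U : (ℕ → Bool) → Bool} (hU : Dep i U) : Dep j U := by
  obtain ⟨M, hM⟩ := hU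
  exact ⟨M, fun x y h => hM x y (fun t ht hb => h t ht (by omega))⟩

/-- finitely supported points of exact level `j` -/
def Pt (j : ℕ) (q : ℕ → Bool) : Prop :=
  q ∈ Al j ∧ (∃ t, q t = true ∧ blk t = j) ∧ ∃ B, ∀ t, B ≤ t → q t = false

theorem ev_ne {q q' : ℕ → Bool} (h : q ≠ q') : ∀ᶠ l in atTop, ∃ t < l, q t ≠ q' t := by
  obtain ⟨t, ht⟩ := exists_sep h
  filter_upwards [eventually_gt_atTop t] with l hl
  exact ⟨t, hl, ht⟩

theorem ev_lev {j : ℕ} {q : ℕ → Bool} (h : Pt j q) :
    ∀ᶠ l in atTop, ∃ t < l, q t = true ∧ blk t = j := by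
  obtain ⟨-, ⟨t, ht⟩, -⟩ := h
  filter_upwards [eventually_gt_atTop t] with l hl
  exact ⟨t, hl, ht⟩

theorem ev_pair {j : ℕ} {q : ℕ → Bool} (h : Pt j q) :
    ∀ᶠ l in atTop, ∀ n r, q ≠ qm n r → q ≠ qp n r →
      ((∀ t < l, qm n r t = q t) ↔ (∀ t < l, qp n r t = q t)) := by
  obtain ⟨-, -, B, hB⟩ := h
  have h1 : ∀ᶠ l in atTop, ∀ n ∈ Finset.range B, ∀ r ∈ Finset.range B,
      (q ≠ qm n r → ∃ t < l, q t ≠ qm n r t) ∧ (q ≠ qp n r → ∃ t < l, q t ≠ qp n r t) := by
    rw [Finset.eventually_all]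
    intro n _
    rw [Finset.eventually_all]
    intro r _
    refine Filter.Eventually.and ?_ ?_
    · by_cases h2 : q = qm n r
      · exact Filter.Eventually.of_forall (fun l h3 => absurd h2 h3)
      · filter_upwards [ev_ne h2] with l hl _
        exact hl
    · by_cases h2 : q = qp n r
      · exact Filter.Eventually.of_forall (fun l h3 => absurd h2 h3)
      · filter_upwards [ev_ne h2] with l hl _
        exact hl
  filter_upwards [h1] with l hl n r hm hp
  by_cases hk : key n r 1 < l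
  · -- both sides are false
    have hk0 : key n r 0 < l := (key_lt n r (by norm_num)).trans hk
    by_cases hq : q (key n r 0) = true
    · have hkB : key n r 0 < B := by
        by_contra hcon
        push Not at hcon
        rw [hB _ hcon] at hq
        exact absurd hq (by simp)
      have h2 := pair_le_key n r 0
      have h3 := n_le_pair n r
      have h4 := r_le_pair n r
      obtain ⟨h5, h6⟩ := hl n (Finset.mem_range.2 (by omega)) r (Finset.mem_range.2 (by omega))
      constructor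
      · intro h7
        obtain ⟨t, ht, ht'⟩ := h5 hm
        exact absurd (h7 t ht).symm ht'
      · intro h7
        obtain ⟨t, ht, ht'⟩ := h6 hp
        exact absurd (h7 t ht).symm ht'
    · constructor
      · intro h7
        exact absurd ((h7 _ hk0).symm.trans (qm_key n r)) hq
      · intro h7
        exact absurd ((h7 _ hk0).symm.trans (qp_key0 n r)) hq
  · constructor
    · intro h7 t ht
      rw [← qm_eq_qp (by omega)]
      exact h7 t ht
    · intro h7 t ht
      rw [qm_eq_qp (show t ≠ key n r 1 by omega)]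
      exact h7 t ht

theorem exists_tiny {j : ℕ} {F : Set (ℕ → Bool)} (hF : F.Finite) (hpt : ∀ q ∈ F, Pt j q)
    (L : ℕ) : ∃ l, L ≤ l ∧ (∀ q ∈ F, ∀ q' ∈ F, q ≠ q' → ∃ t < l, q t ≠ q' t) ∧
      (∀ q ∈ F, ∃ t < l, q t = true ∧ blk t = j) ∧
      ∀ q ∈ F, ∀ n r, q ≠ qm n r → q ≠ qp n r →
      ((∀ t < l, qm n r t = q t) ↔ (∀ t < l, qp n r t = q t)) := by
  have h1 : ∀ᶠ l in atTop, ∀ q ∈ F, ∀ q' ∈ F, q ≠ q' → ∃ t < l, q t ≠ q' t := by
    rw [eventually_all_finite hF]
    intro q hq
    rw [eventually_all_finite hF]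
    intro q' hq'
    by_cases h2 : q = q'
    · exact Filter.Eventually.of_forall (fun l h3 => absurd h2 h3)
    · filter_upwards [ev_ne h2] with l hl _
      exact hl
  have h2 : ∀ᶠ l in atTop, ∀ q ∈ F, ∃ t < l, q t = true ∧ blk t = j := by
    rw [eventually_all_finite hF]
    intro q hq
    exact ev_lev (hpt q hq)
  have h3 : ∀ᶠ l in atTop, ∀ q ∈ F, ∀ n r, q ≠ qm n r → q ≠ qp n r →
      ((∀ t < l, qm n r t = q t) ↔ (∀ t < l, qp n r t = q t)) := by
    rw [eventually_all_finite hF]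
    intro q hq
    exact ev_pair (hpt q hq)
  obtain ⟨l, h4, h5, h6, h7⟩ := (((eventually_ge_atTop L).and (h1.and (h2.and h3))).exists)
  exact ⟨l, h4, h5, h6, h7⟩

/-- modification of a colouring at finitely many points of level `j` -/
theorem exists_mod {j : ℕ} {U : (ℕ → Bool) → Bool} (hU : Dep (j + 1) U) {F : Set (ℕ → Bool)}
    (hF : F.Finite) (hpt : ∀ q ∈ F, Pt j q) (f : (ℕ → Bool) → Bool)
    (hpair : ∀ n r, lev n r = j → qm n r ∉ F → qp n r ∉ F → U (qm n r) = U (qp n r)) (L : ℕ) :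
    ∃ U' : (ℕ → Bool) → Bool, Dep (j + 1) U' ∧ (∀ q ∈ F, U' q = f q) ∧
      (∀ n r, lev n r = j → qm n r ∉ F → qp n r ∉ F → U' (qm n r) = U' (qp n r)) ∧
      (∀ x, (∀ k, x k = true → blk k < j) → U' x = U x) ∧
      (∀ x ∈ Al j, U' x ≠ U x → ∃ q ∈ F, f q ≠ U q ∧ ∀ t < L, x t = q t) := by
  classical
  obtain ⟨l, hL, h1, h2, h3⟩ := exists_tiny hF hpt L
  obtain ⟨M, hM⟩ := hU
  let C : (ℕ → Bool) → Prop := fun x => ∃ q ∈ F, f q ≠ U q ∧ ∀ t < l, blk t ≤ j → x t = q t
  have hC : ∀ x ∈ Al j, C x ↔ ∃ q ∈ F, f q ≠ U q ∧ ∀ t < l, x t = q t := by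
    intro x hx
    constructor
    · rintro ⟨q, hq, hq1, hq2⟩
      refine ⟨q, hq, hq1, fun t ht => ?_⟩
      by_cases hb : blk t ≤ j
      · exact hq2 t ht hb
      · have e1 : x t = false := by
          cases hxt : x t
          · rfl
          · exact absurd (hx t hxt) hb
        have e2 : q t = false := by
          cases hxt : q t
          · rfl
          · exact absurd ((hpt q hq).1 t hxt) hb
        rw [e1, e2]
    · rintro ⟨q, hq, hq1, hq2⟩
      exact ⟨q, hq, hq1, fun t ht _ => hq2 t ht⟩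
  refine ⟨fun x => if C x then !(U x) else U x, ⟨max M l, ?_⟩, ?_, ?_, ?_, ?_⟩
  · intro x y hxy
    have e1 : U x = U y := hM x y (fun t ht hb => hxy t (by omega) hb)
    have e2 : C x ↔ C y := by
      constructor
      · rintro ⟨q, hq, hq1, hq2⟩
        exact ⟨q, hq, hq1, fun t ht hb => (hxy t (by omega) (by omega)).symm.trans (hq2 t ht hb)⟩
      · rintro ⟨q, hq, hq1, hq2⟩
        exact ⟨q, hq, hq1, fun t ht hb => (hxy t (by omega) (by omega)).trans (hq2 t ht hb)⟩
    simp only [e1, e2]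
  · intro q hq
    by_cases h4 : f q = U q
    · have h5 : ¬ C q := by
        rw [hC q (hpt q hq).1]
        rintro ⟨q', hq', h6, h7⟩
        by_cases h8 : q = q'
        · subst h8
          exact h6 h4
        · obtain ⟨t, ht, ht'⟩ := h1 q hq q' hq' h8
          exact ht' (h7 t ht)
      simp only [if_neg h5, h4]
    · have h5 : C q := ⟨q, hq, h4, fun t _ _ => rfl⟩
      simp only [if_pos h5]
      cases hf : f q <;> cases hu : U q <;> simp_all
  · intro n r hlev hm hp
    have e1 := hpair n r hlev hm hp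
    have e2 : C (qm n r) ↔ C (qp n r) := by
      have i1 := qm_mem_Al n r
      have i2 := qp_mem_Al n r
      rw [hlev] at i1 i2
      rw [hC _ i1, hC _ i2]
      constructor
      · rintro ⟨q, hq, hq1, hq2⟩
        exact ⟨q, hq, hq1, (h3 q hq n r (fun h => hm (h ▸ hq)) (fun h => hp (h ▸ hq))).1 hq2⟩
      · rintro ⟨q, hq, hq1, hq2⟩
        exact ⟨q, hq, hq1, (h3 q hq n r (fun h => hm (h ▸ hq)) (fun h => hp (h ▸ hq))).2 hq2⟩
    simp only [e1, e2]
  · intro x hx
    have h5 : ¬ C x := by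
      rintro ⟨q, hq, h6, h7⟩
      obtain ⟨t, ht, ht1, ht2⟩ := h2 q hq
      have := hx t (by rw [h7 t ht ht2.le, ht1])
      omega
    simp only [if_neg h5]
  · intro x hx hne
    have h5 : C x := by
      by_contra hcon
      simp only [if_neg hcon] at hne
      exact hne rfl
    obtain ⟨q, hq, h6, h7⟩ := (hC x hx).1 h5
    exact ⟨q, hq, h6, fun t ht => h7 t (by omega)⟩

end Pool.Agent.Helper452.Cont
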