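import Pool.Agent.Helper452.ContIndec

open Set Filter Topology Metric

set_option linter.unusedSectionVars false
set_option linter.unusedVariables false

namespace Pool.Agent.Helper452.Cont

universe u

/-- boundary bumping -/
theorem boundary_bump {X : Type u} [TopologicalSpace X] [T2Space X] {K : Set X}
    (hK : IsCompact K) (hKc : IsPreconnected K) {f : X → ℝ} (hf : Continuous f) {q p : X}
    (hq : q ∈ K) (hp : p ∈ K) {δ : ℝ} (hqδ : δ ≤ f q) (hpδ : f p < δ) :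
    ∃ C : Set X, C ⊆ K ∧ (∀ y ∈ C, δ ≤ f y) ∧ IsCompact C ∧ IsConnected C ∧ q ∈ C ∧
      ∃ y ∈ C, f y = δ := by
  have hS : IsCompact (K ∩ {y | δ ≤ f y}) :=
    hK.inter_right (isClosed_le continuous_const hf)
  have : CompactSpace ↥(K ∩ {y | δ ≤ f y}) := isCompact_iff_compactSpace.1 hS
  let q' : ↥(K ∩ {y | δ ≤ f y}) := ⟨q, hq, hqδ⟩
  refine ⟨Subtype.val '' connectedComponent q', ?_, ?_, ?_, ?_, ?_, ?_⟩
  · rintro _ ⟨y, _, rfl⟩
    exact y.2.1
  · rintro _ ⟨y, _, rfl⟩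
    exact y.2.2
  · exact isClosed_connectedComponent.isCompact.image continuous_subtype_val
  · exact isConnected_connectedComponent.image _ continuous_subtype_val.continuousOn
  · exact ⟨q', mem_connectedComponent, rfl⟩
  · by_contra hcon
    push Not at hcon
    have hE : IsCompact {s : ↥(K ∩ {y | δ ≤ f y}) | f s.1 = δ} :=
      (isClosed_eq (hf.comp continuous_subtype_val) continuous_const).isCompact
    obtain ⟨t, ht⟩ := hE.elim_finite_subcover
      (fun s : {s : Set ↥(K ∩ {y | δ ≤ f y}) // IsClopen s ∧ q' ∈ s} => (s.1)ᶜ)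
      (fun s => s.2.1.1.isOpen_compl) (by
        intro y hy
        have h1 : y ∉ connectedComponent q' := fun h2 => hcon y.1 ⟨y, h2, rfl⟩ hy
        rw [connectedComponent_eq_iInter_isClopen, mem_iInter] at h1
        push Not at h1
        obtain ⟨s, hs⟩ := h1
        exact mem_iUnion.2 ⟨s, hs⟩)
    let V : Set ↥(K ∩ {y | δ ≤ f y}) := ⋂ s ∈ t, s.1
    have hV : IsClopen V := isClopen_biInter_finset (fun s _ => s.2.1)
    have hqV : q' ∈ V := by
      simp only [V, mem_iInter]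
      intro s _
      exact s.2.2
    have hVE : ∀ y ∈ V, f y.1 ≠ δ := by
      intro y hy hyE
      have h1 := ht hyE
      simp only [mem_iUnion] at h1
      obtain ⟨s, hs, hys⟩ := h1
      simp only [V, mem_iInter] at hy
      exact hys (hy s hs)
    rw [isPreconnected_closed_iff] at hKc
    have c1 : IsClosed (Subtype.val '' V) :=
      (hV.1.isCompact.image continuous_subtype_val).isClosed
    have c2 : IsClosed (Subtype.val '' Vᶜ ∪ (K ∩ {y | f y ≤ δ})) :=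
      (hV.2.isClosed_compl.isCompact.image continuous_subtype_val).isClosed.union
        (hK.isClosed.inter (isClosed_le hf continuous_const))
    obtain ⟨x, hxK, ⟨y, hyV, hyx⟩, hx2⟩ := hKc _ _ c1 c2 (by
      intro x hx
      by_cases h1 : δ ≤ f x
      · by_cases h2 : (⟨x, hx, h1⟩ : ↥(K ∩ {y | δ ≤ f y})) ∈ V
        · exact Or.inl ⟨_, h2, rfl⟩
        · exact Or.inr (Or.inl ⟨_, h2, rfl⟩)
      · exact Or.inr (Or.inr ⟨hx, (not_le.1 h1).le⟩)) ⟨q, hq, q', hqV, rfl⟩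
      ⟨p, hp, Or.inr ⟨hp, hpδ.le⟩⟩
    subst hyx
    rcases hx2 with ⟨w, hw, hwy⟩ | ⟨_, h3⟩
    · exact hw (Subtype.ext hwy ▸ hyV)
    · exact hVE y hyV (le_antisymm h3 y.2.2)

/-- the segment from a point of the bundle down to the special point -/
theorem seg_isCompact {x : ℕ → Bool} {t : ℝ} (ht : (x, t) ∈ Lset) :
    IsCompact ((fun u => mk ja jb jh (clampSeg ht u)) '' Icc 0 t) :=
  isCompact_Icc.image ((continuous_mk ja jb jh).comp (continuous_clampSeg ht))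

theorem ht_ne_pow (j m i : ℕ) : ht j m ≠ (1 / 2 : ℝ) ^ i := by
  intro h
  obtain ⟨h1, h2⟩ := ht_bounds j m
  rw [h] at h1 h2
  rcases Nat.lt_or_ge j i with h3 | h3
  · have := half_pow_le (show j + 1 ≤ i from h3)
    linarith
  · have := half_pow_le h3
    linarith

theorem jh_ne_pow (k : Jn) (i : ℕ) : jh k ≠ (1 / 2 : ℝ) ^ i := by
  unfold jh
  split_ifs
  · exact ht_ne_pow _ _ _
  · exact ht_ne_pow _ _ _

/-- the space is not the union of a compact set missing the special point and a continuum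
irreducible to the special point -/
theorem not_irreducible {M K : Set EX} {q : EX} (hM : IsCompact M) (hpM : ep ∉ M)
    (hK : IsCompact K) (hKc : IsConnected K) (hq : q ∈ K) (hp : ep ∈ K)
    (hirr : ∀ L ⊆ K, IsCompact L → IsConnected L → q ∈ L → ep ∈ L → L = K)
    (hMK : M ∪ K = univ) : False := by
  obtain ⟨m, hm⟩ := nhds_small ja jb jh (hM.isClosed.isOpen_compl.mem_nhds hpM)
  have hmK : ∀ y : EX, uu ja jb jh y ≤ (1 / 2 : ℝ) ^ m → y ∈ K := by
    intro y hy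
    have h1 : y ∈ M ∪ K := hMK ▸ mem_univ y
    exact h1.resolve_left (hm y hy)
  have hAa : (fun _ => false : ℕ → Bool) ∈ Al 0 := fun k hk => absurd hk (by simp)
  have hAb : (fun k => decide (k = 0) : ℕ → Bool) ∈ Al 0 := by
    intro k hk
    have h1 : k = 0 := by simpa using hk
    subst h1
    simp [blk]
  have hab : (fun _ => false : ℕ → Bool) ≠ (fun k => decide (k = 0) : ℕ → Bool) := by
    intro h
    have := congrFun h 0
    simp at this
  have hle1 : ∀ i : ℕ, (1 / 2 : ℝ) ^ i ≤ (1 / 2 : ℝ) ^ 0 := fun i => half_pow_le (Nat.zero_le i)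
  have hqp : q ≠ ep := by
    rintro rfl
    have h1 := hirr {ep} (singleton_subset_iff.2 hp) isCompact_singleton isConnected_singleton
      rfl rfl
    have h2 : mk ja jb jh ⟨_, mem_Lset_of_Al hAa (by positivity) (hle1 m)⟩ ∈ K := hmK _ le_rfl
    rw [← h1] at h2
    exact mk_ne_ep (show (0 : ℝ) < (1 / 2 : ℝ) ^ m by positivity) h2
  have hq0 := uu_pos ja jb jh hqp
  obtain ⟨m₁, hm₁⟩ := exists_pow_lt_of_lt_one hq0 (show (1 / 2 : ℝ) < 1 by norm_num)
  obtain ⟨m', hm'1, hm'2⟩ : ∃ m', m ≤ m' ∧ (1 / 2 : ℝ) ^ m' ≤ uu ja jb jh q :=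
    ⟨max m m₁, le_max_left _ _, (half_pow_le (le_max_right m m₁)).trans hm₁.le⟩
  have hδ : (0 : ℝ) < (1 / 2 : ℝ) ^ m' := by positivity
  obtain ⟨C, hCK, hCδ, hC1, hC2, hqC, y₀, hy₀, hy₀δ⟩ := boundary_bump hK hKc.isPreconnected
    (continuous_uu ja jb jh) hq hp hm'2 (by rw [uu_pp]; exact hδ)
  obtain ⟨⟨⟨x₀, t₀⟩, hz₀⟩, rfl⟩ := mk_surjective ja jb jh y₀
  have ht₀ : t₀ = (1 / 2 : ℝ) ^ m' := hy₀δ
  subst ht₀
  have hsegK : (fun u => mk ja jb jh (clampSeg hz₀ u)) '' Icc 0 ((1 / 2 : ℝ) ^ m') ⊆ K := by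
    rintro _ ⟨u, ⟨hu0, hu1⟩, rfl⟩
    apply hmK
    simp only [clampSeg_eq hz₀ hu0 hu1, uu_mk]
    exact hu1.trans (half_pow_le hm'1)
  have h1 : mk ja jb jh ⟨(x₀, (1 / 2 : ℝ) ^ m'), hz₀⟩ ∈
      (fun u => mk ja jb jh (clampSeg hz₀ u)) '' Icc 0 ((1 / 2 : ℝ) ^ m') := by
    refine ⟨(1 / 2 : ℝ) ^ m', ⟨hδ.le, le_rfl⟩, ?_⟩
    simp only [clampSeg_eq hz₀ hδ.le le_rfl]
  have h2 : ep ∈ (fun u => mk ja jb jh (clampSeg hz₀ u)) '' Icc 0 ((1 / 2 : ℝ) ^ m') := by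
    refine ⟨0, ⟨le_rfl, hδ.le⟩, ?_⟩
    simp only [clampSeg_eq hz₀ le_rfl hδ.le]
    exact mk_eq_pp _ _ _ rfl
  have hL := hirr (C ∪ (fun u => mk ja jb jh (clampSeg hz₀ u)) '' Icc 0 ((1 / 2 : ℝ) ^ m'))
    (union_subset hCK hsegK) (hC1.union (seg_isCompact hz₀))
    ⟨⟨q, Or.inl hqC⟩, IsPreconnected.union _ hy₀ h1 hC2.isPreconnected
      (isPreconnected_seg ja jb jh hz₀)⟩ (Or.inl hqC) (Or.inr h2)
  -- a point of `K` outside
  obtain ⟨x₁, hx₁A, hx₁⟩ : ∃ x₁ ∈ Al 0, x₁ ≠ x₀ := by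
    by_cases h3 : (fun _ => false : ℕ → Bool) = x₀
    · exact ⟨_, hAb, fun h4 => hab (h3.trans h4.symm)⟩
    · exact ⟨_, hAa, h3⟩
  have hz₁ : (x₁, (1 / 2 : ℝ) ^ (m' + 1)) ∈ Lset := mem_Lset_of_Al hx₁A (by positivity) (hle1 _)
  have h3 : mk ja jb jh ⟨_, hz₁⟩ ∈ K :=
    hmK _ (half_pow_le (show m ≤ m' + 1 by omega))
  rw [← hL] at h3
  have hlt := half_pow_lt (Nat.lt_succ_self m')
  rcases h3 with h3 | ⟨u, ⟨hu0, hu1⟩, h3⟩
  · have h4 := hCδ _ h3
    have h5 : (1 / 2 : ℝ) ^ m' ≤ (1 / 2 : ℝ) ^ (m' + 1) := h4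
    exact absurd hlt (not_lt.2 h5)
  · simp only [clampSeg_eq hz₀ hu0 hu1] at h3
    have h4 : Psi ja jb jh (x₀, u) = Psi ja jb jh (x₁, (1 / 2 : ℝ) ^ (m' + 1)) :=
      congrArg Subtype.val h3
    obtain ⟨h5, h6⟩ := (psi_eq_iff goodJoins).1 h4
    have h7 : u = (1 / 2 : ℝ) ^ (m' + 1) := h5
    rcases h6 with h6 | h6 | ⟨k, hk, -⟩
    · have h8 : u = 0 := h6
      rw [h7] at h8
      exact absurd h8 (by positivity)
    · exact hx₁ h6.symm
    · have h8 : jh k = u := hk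
      rw [h7] at h8
      exact jh_ne_pow k _ h8

end Pool.Agent.Helper452.Cont
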