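import Pool.Agent.Helper452.ContQ1c

open Set Filter Topology Metric

set_option linter.unusedSectionVars false
set_option linter.unusedVariables false

namespace Pool.Agent.Helper452.Cont

universe u

/-- `X` is connected im kleinen at `p` -/
def ConnectedImKleinenAt {X : Type u} [TopologicalSpace X] (p : X) : Prop :=
  ∀ U : Set X, IsOpen U → p ∈ U → ∃ C : Set X, C ⊆ U ∧ IsConnected C ∧ p ∈ interior C

section

variable {X : Type u} [MetricSpace X] [CompactSpace X] {p : X}

/-- relatively clopen subsets of `Z` containing `p` -/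
def RelClopen (Z : Set X) (p : X) (B : Set X) : Prop :=
  B ⊆ Z ∧ IsClosed B ∧ IsClosed (Z \ B) ∧ p ∈ B

theorem exists_relClopen {U : Set X} {ρ : ℝ} (hρ : 0 < ρ) (hZU : closedBall p ρ ⊆ U)
    (hU : ∀ C : Set X, C ⊆ U → IsConnected C → p ∉ interior C) {ε : ℝ} (hε : 0 < ε) :
    ∃ x ∈ closedBall p ρ, dist x p < ε ∧ ∃ B, RelClopen (closedBall p ρ) p B ∧ x ∉ B := by
  by_contra hcon
  push Not at hcon
  have hpZ : p ∈ closedBall p ρ := mem_closedBall_self hρ.le
  have : CompactSpace (closedBall p ρ) := isCompact_iff_compactSpace.1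
    isClosed_closedBall.isCompact
  let p' : closedBall p ρ := ⟨p, hpZ⟩
  refine hU (Subtype.val '' connectedComponent p') ?_
    (isConnected_connectedComponent.image _ continuous_subtype_val.continuousOn) ?_
  · rintro _ ⟨x, _, rfl⟩
    exact hZU x.2
  · rw [mem_interior_iff_mem_nhds]
    refine Filter.mem_of_superset (ball_mem_nhds p (lt_min hε hρ)) ?_
    intro x hx
    have hxε : dist x p < ε := lt_of_lt_of_le hx (min_le_left _ _)
    have hxρ : x ∈ closedBall p ρ :=
      mem_closedBall.2 (lt_of_lt_of_le (mem_ball.1 hx) (min_le_right _ _)).le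
    refine ⟨⟨x, hxρ⟩, ?_, rfl⟩
    rw [connectedComponent_eq_iInter_isClopen, mem_iInter]
    rintro ⟨s, hs, hps⟩
    have h1 : RelClopen (closedBall p ρ) p (Subtype.val '' s) := by
      refine ⟨?_, isClosed_closedBall.isClosedEmbedding_subtypeVal.isClosedMap _ hs.1, ?_,
        ⟨p', hps, rfl⟩⟩
      · rintro _ ⟨y, _, rfl⟩
        exact y.2
      · have : closedBall p ρ \ Subtype.val '' s =
            (Subtype.val '' sᶜ : Set X) := by
          ext y
          constructor
          · rintro ⟨hy1, hy2⟩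
            exact ⟨⟨y, hy1⟩, fun h' => hy2 ⟨_, h', rfl⟩, rfl⟩
          · rintro ⟨z, hz, rfl⟩
            refine ⟨z.2, ?_⟩
            rintro ⟨w, hw, hwz⟩
            exact hz (Subtype.ext hwz ▸ hw)
        rw [this]
        exact isClosed_closedBall.isClosedEmbedding_subtypeVal.isClosedMap _ hs.compl.1
    obtain ⟨z, hz, hzx⟩ := hcon x hxρ hxε _ h1
    have : z = ⟨x, hxρ⟩ := Subtype.ext hzx
    rwa [this] at hz

theorem exists_pieces {U : Set X} {ρ : ℝ} (hρ : 0 < ρ) (hZU : closedBall p ρ ⊆ U)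
    (hU : ∀ C : Set X, C ⊆ U → IsConnected C → p ∉ interior C) :
    ∃ (E : ℕ → Set X) (x : ℕ → X), Pieces p (closedBall p ρ) E ∧ (∀ n, x n ∈ E n) ∧
      Tendsto x atTop (𝓝 p) := by
  set Z := closedBall p ρ with hZ
  have hZc : IsClosed Z := isClosed_closedBall
  have hZp : Z ∈ 𝓝 p := closedBall_mem_nhds p hρ
  have step : ∀ (n : ℕ) (B : {B // RelClopen Z p B}), ∃ B' : {B // RelClopen Z p B},
      B'.1 ⊆ B.1 ∧ ∃ x, x ∈ B.1 ∧ x ∉ B'.1 ∧ dist x p < 1 / ((n : ℝ) + 1) := by
    rintro n ⟨B, hB1, hB2, hB3, hB4⟩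
    have hnb : B ∈ 𝓝 p := by
      have h1 : (Z \ B)ᶜ ∈ 𝓝 p := hB3.isOpen_compl.mem_nhds (fun h' => h'.2 hB4)
      refine Filter.mem_of_superset (inter_mem h1 hZp) ?_
      rintro x ⟨hx1, hx2⟩
      by_contra hx3
      exact hx1 ⟨hx2, hx3⟩
    obtain ⟨ε, hε, hεB⟩ := Metric.mem_nhds_iff.1 hnb
    obtain ⟨x, hxZ, hxε, B', hB', hxB'⟩ := exists_relClopen hρ hZU hU
      (lt_min hε (show (0 : ℝ) < 1 / ((n : ℝ) + 1) by positivity))
    refine ⟨⟨B ∩ B', fun y hy => hB1 hy.1, hB2.inter hB'.2.1, ?_, hB4, hB'.2.2.2⟩,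
      inter_subset_left, x, hεB (lt_of_lt_of_le hxε (min_le_left _ _)), fun h' => hxB' h'.2,
      lt_of_lt_of_le hxε (min_le_right _ _)⟩
    rw [sdiff_inter]
    exact hB3.union hB'.2.2.1
  choose f hf1 hf2 using step
  choose g hg1 hg2 hg3 using hf2
  let B : ℕ → {B // RelClopen Z p B} := fun n => Nat.rec
    ⟨Z, subset_rfl, hZc, by simp, mem_of_mem_nhds hZp⟩ (fun n B => f n B) n
  have hBs : ∀ n, B (n + 1) = f n (B n) := fun n => rfl
  have hanti : ∀ m n, m ≤ n → (B n).1 ⊆ (B m).1 := by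
    intro m n hmn
    induction hmn with
    | refl => exact subset_rfl
    | step _ ih =>
      refine subset_trans ?_ ih
      rw [hBs]
      exact hf1 _ _
  refine ⟨fun n => (B n).1 \ (B (n + 1)).1, fun n => g n (B n), ?_, ?_, ?_⟩
  · refine ⟨hZc, hZp, ?_, ?_, ?_, ?_, ?_⟩
    · intro n x hx
      exact (B n).2.1 hx.1
    · intro n
      have : (B n).1 \ (B (n + 1)).1 = (B n).1 ∩ (Z \ (B (n + 1)).1) := by
        ext x
        constructor
        · rintro ⟨h1, h2⟩
          exact ⟨h1, (B n).2.1 h1, h2⟩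
        · rintro ⟨h1, _, h2⟩
          exact ⟨h1, h2⟩
      rw [this]
      exact (B n).2.2.1.inter (B (n + 1)).2.2.2.1
    · intro n
      have : Z \ ((B n).1 \ (B (n + 1)).1) = (Z \ (B n).1) ∪ (B (n + 1)).1 := by
        ext x
        constructor
        · rintro ⟨h1, h2⟩
          by_cases h3 : x ∈ (B n).1
          · right
            by_contra h4
            exact h2 ⟨h3, h4⟩
          · exact Or.inl ⟨h1, h3⟩
        · rintro (⟨h1, h2⟩ | h1)
          · exact ⟨h1, fun h' => h2 h'.1⟩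
          · exact ⟨(B (n + 1)).2.1 h1, fun h' => h'.2 h1⟩
      rw [this]
      exact (B n).2.2.2.1.union (B (n + 1)).2.2.1
    · intro m n x hxm hxn
      rcases lt_trichotomy m n with h1 | h1 | h1
      · exact absurd (hanti _ _ h1 hxn.1) hxm.2
      · exact h1
      · exact absurd (hanti _ _ h1 hxm.1) hxn.2
    · intro n hp
      exact hp.2 (B (n + 1)).2.2.2.2
  · intro n
    refine ⟨hg1 n (B n), ?_⟩
    rw [hBs]
    exact hg2 n (B n)
  · rw [Metric.tendsto_atTop]
    intro ε hε
    obtain ⟨k, hk⟩ := exists_nat_one_div_lt hε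
    refine ⟨k, fun n hn => lt_of_lt_of_le (hg3 n (B n)) (le_trans ?_ hk.le)⟩
    apply one_div_le_one_div_of_le (by positivity)
    have : (k : ℝ) ≤ n := by exact_mod_cast hn
    linarith

theorem cik_metric (hH : IsIndecomposableContinuum (Rem {x : X // x ≠ p})) :
    ConnectedImKleinenAt p := by
  unfold ConnectedImKleinenAt
  by_contra hcon
  push Not at hcon
  obtain ⟨U, hUo, hpU, hU⟩ := hcon
  obtain ⟨ρ, hρ, hZU⟩ := Metric.nhds_basis_closedBall.mem_iff.1 (hUo.mem_nhds hpU)
  obtain ⟨E, x, h, hxE, hx⟩ := exists_pieces hρ hZU hU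
  set Z := closedBall p ρ with hZ
  obtain ⟨Gf, hG⟩ := exists_countable_squeeze X
  obtain ⟨S, hS⟩ := exists_split (ι := Option (ℕ × ℕ × Finset ℕ × Finset ℕ))
    (fun i => match i with
      | none => univ
      | some (k, l, s, t) => Dset p E (1 / ((k : ℝ) + 1)) l (Gf s) (Gf t))
  have hSinf : S.Infinite := by
    have := (hS none infinite_univ).1
    rwa [univ_inter] at this
  have hSinf' : Sᶜ.Infinite := by
    have := (hS none infinite_univ).2
    rwa [← compl_eq_univ_sdiff] at this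
  have hRem : IsPreconnected (Rem {x : X // x ≠ p}) := hH.2.1.isPreconnected
  have hA := star_preconnected h hRem Gf hG S (fun k l s t hinf => (hS (some (k, l, s, t)) hinf).1)
  have hB := star_preconnected h hRem Gf hG Sᶜ (fun k l s t hinf => by
    have := (hS (some (k, l, s, t)) hinf).2
    rwa [sdiff_eq] at this)
  -- accumulation
  have hcl : ∀ T : Set ℕ, IsClosed {y : {x : X // x ≠ p} | ∃ n ∈ T, (y : X) = x n} := by
    classical
    intro T
    have h1 : Tendsto (fun n => if n ∈ T then x n else p) atTop (𝓝 p) := by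
      rw [_root_.tendsto_nhds] at hx ⊢
      intro s hs hps
      filter_upwards [hx s hs hps] with n hn
      simp only [mem_preimage] at hn ⊢
      split_ifs
      · exact hn
      · exact hps
    have h2 := h1.isCompact_insert_range.isClosed
    have h3 : {y : {x : X // x ≠ p} | ∃ n ∈ T, (y : X) = x n} = Subtype.val ⁻¹'
        (insert p (range fun n => if n ∈ T then x n else p)) := by
      ext y
      simp only [mem_ofPred_eq, mem_preimage, mem_insert_iff, mem_range]
      constructor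
      · rintro ⟨n, hn, hy⟩
        exact Or.inr ⟨n, by rw [if_pos hn, hy]⟩
      · rintro (hy | ⟨n, hy⟩)
        · exact absurd hy y.2
        · split_ifs at hy with hn
          · exact ⟨n, hn, hy.symm⟩
          · exact absurd hy.symm y.2
    rw [h3]
    exact h2.preimage continuous_subtype_val
  have hacc : ∀ T : Set ℕ, T.Infinite → Acc {y : {x : X // x ≠ p} | ∃ n ∈ T, (y : X) = x n} := by
    intro T hT
    rw [acc_iff]
    intro N hN
    have h1 : ∀ᶠ n in atTop, x n ∈ N := hx hN
    obtain ⟨n₀, hn₀⟩ := eventually_atTop.1 h1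
    obtain ⟨n, hnT, hn⟩ := hT.exists_gt n₀
    have hne : x n ≠ p := by
      intro h'
      exact h.notMem n (h' ▸ hxE n)
    exact ⟨⟨x n, hne⟩, ⟨n, hnT, rfl⟩, hn₀ n hn.le⟩
  have hxF : ∀ T : Set ℕ, {y : {x : X // x ≠ p} | ∃ n ∈ T, (y : X) = x n} ⊆ FS p Z E T := by
    rintro T y ⟨n, hn, hy⟩
    rw [FS, mem_ofPred_eq, hy]
    refine ⟨h.sub n (hxE n), ?_⟩
    intro m hm hxm
    exact hm (h.disj m n _ hxm (hxE n) ▸ hn)
  have hxF' : ∀ T : Set ℕ, Disjoint {y : {x : X // x ≠ p} | ∃ n ∈ Tᶜ, (y : X) = x n}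
      (FS p Z E T) := by
    intro T
    rw [Set.disjoint_left]
    rintro y ⟨n, hn, hy⟩ hyF
    exact hyF.2 n hn (hy ▸ hxE n)
  have hne : ∀ T : Set ℕ, T.Infinite →
      (Rem {x : X // x ≠ p} ∩ closure (stoneCechUnit '' FS p Z E T)).Nonempty := by
    intro T hT
    obtain ⟨r, hr, hr'⟩ := exists_mem_of_acc ((hacc T hT).mono (hxF T))
    exact ⟨r, hr, hr'⟩
  have hproper : ∀ T : Set ℕ, Tᶜ.Infinite →
      Rem {x : X // x ≠ p} ∩ closure (stoneCechUnit '' FS p Z E T) ≠ Rem {x : X // x ≠ p} := by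
    intro T hT heq
    obtain ⟨r, hr, hr'⟩ := exists_mem_of_acc (hacc Tᶜ hT)
    have hrT : r ∈ closure (stoneCechUnit '' FS p Z E T) := by
      rw [← heq] at hr
      exact hr.2
    exact Set.disjoint_left.1 (disjoint_closures (hcl Tᶜ) (isClosed_FS h T) (hxF' T)) hr' hrT
  have hun : (Rem {x : X // x ≠ p} ∩ closure (stoneCechUnit '' FS p Z E S)) ∪
      (Rem {x : X // x ≠ p} ∩ closure (stoneCechUnit '' FS p Z E Sᶜ)) = Rem {x : X // x ≠ p} := by
    apply Subset.antisymm
    · exact union_subset inter_subset_left inter_subset_left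
    · intro r hr
      have h3 : r ∈ closure (stoneCechUnit '' (univ : Set {x : X // x ≠ p})) := by
        rw [image_univ]
        exact denseRange_stoneCechUnit r
      have h4 := mem_closure_near hr h3 h.hZp
      have h5 : (univ ∩ Subtype.val ⁻¹' Z : Set {x : X // x ≠ p}) ⊆
          FS p Z E S ∪ FS p Z E Sᶜ := by
        rintro y ⟨_, hy⟩
        by_contra h6
        simp only [mem_union, not_or, FS, mem_ofPred_eq, not_and, not_forall, not_not] at h6
        obtain ⟨m, hm, hm'⟩ := h6.1 hy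
        obtain ⟨n, hn, hn'⟩ := h6.2 hy
        have := h.disj m n _ hm' hn'
        subst this
        exact hn hm
      have h7 := closure_mono (image_mono h5) h4
      rw [image_union, closure_union] at h7
      rcases h7 with h7 | h7
      · exact Or.inl ⟨hr, h7⟩
      · exact Or.inr ⟨hr, h7⟩
  have hcomp : ∀ T : Set ℕ, IsCompact (Rem {x : X // x ≠ p} ∩
      closure (stoneCechUnit '' FS p Z E T)) := fun T =>
    (isClosed_rem.inter isClosed_closure).isCompact
  rcases hH.2.2 _ _ (hcomp S) ⟨hne S hSinf, hA⟩ (hcomp Sᶜ) ⟨hne Sᶜ hSinf', hB⟩ hun with h1 | h1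
  · exact hproper S hSinf' h1
  · exact hproper Sᶜ (by rwa [compl_compl]) h1

end

/-- Question 1: the affirmative answer -/
theorem cik_of_indecomposable_remainder {X : Type u} [TopologicalSpace X]
    [TopologicalSpace.MetrizableSpace X] [CompactSpace X] (p : X)
    (hH : IsIndecomposableContinuum (Rem {x : X // x ≠ p})) : ConnectedImKleinenAt p := by
  let _ := TopologicalSpace.metrizableSpaceMetric X
  exact cik_metric hH

end Pool.Agent.Helper452.Cont
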