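import Pool.Agent.Helper452.ContRem

open Set Filter Topology

set_option linter.unusedSectionVars false

namespace Pool.Agent.Helper452.Cont

universe u

/-- a set of naturals splitting countably many infinite sets -/
theorem exists_split {ι : Type*} [Countable ι] [Nonempty ι] (D : ι → Set ℕ) :
    ∃ S : Set ℕ, ∀ i, (D i).Infinite → (D i ∩ S).Infinite ∧ (D i \ S).Infinite := by
  classical
  obtain ⟨e, he⟩ := exists_surjective_nat ι
  let D' : ℕ → Set ℕ := fun m => if (D (e (m / 2).unpair.1)).Infinite then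
    D (e (m / 2).unpair.1) else univ
  have hD' : ∀ m, (D' m).Infinite := by
    intro m
    simp only [D']
    split_ifs with h
    · exact h
    · exact infinite_univ
  obtain ⟨a, ha, haD⟩ := extraction_forall_of_frequently
    (fun m => Nat.frequently_atTop_iff_infinite.2 (hD' m))
  refine ⟨{x | ∃ m, x = a (2 * m)}, ?_⟩
  intro i hi
  obtain ⟨n, rfl⟩ := he i
  constructor
  · refine Set.infinite_of_injective_forall_mem (f := fun k => a (2 * Nat.pair n k)) ?_ ?_
    · intro k k' hkk
      have h1 := ha.injective hkk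
      have h2 : Nat.pair n k = Nat.pair n k' := by omega
      exact (Nat.pair_eq_pair.1 h2).2
    · intro k
      have h1 : a (2 * Nat.pair n k) ∈ D' (2 * Nat.pair n k) := haD _
      have h2 : (2 * Nat.pair n k) / 2 = Nat.pair n k := by omega
      simp only [D', h2, Nat.unpair_pair, hi, if_true] at h1
      exact ⟨h1, _, rfl⟩
  · refine Set.infinite_of_injective_forall_mem (f := fun k => a (2 * Nat.pair n k + 1)) ?_ ?_
    · intro k k' hkk
      have h1 := ha.injective hkk
      have h2 : Nat.pair n k = Nat.pair n k' := by omega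
      exact (Nat.pair_eq_pair.1 h2).2
    · intro k
      have h1 : a (2 * Nat.pair n k + 1) ∈ D' (2 * Nat.pair n k + 1) := haD _
      have h2 : (2 * Nat.pair n k + 1) / 2 = Nat.pair n k := by omega
      simp only [D', h2, Nat.unpair_pair, hi, if_true] at h1
      refine ⟨h1, ?_⟩
      rintro ⟨m, hm⟩
      have := ha.injective hm
      omega

/-- a choice of witnesses that get better and better -/
theorem exists_choice {W : Type*} (B : ℕ → W → Prop) (R : ℕ → ℕ → W → Prop)
    (hmono : ∀ n l w, R n (l + 1) w → R n l w) (h0 : ∀ n, ∃ w, B n w)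
    (h : ∀ l, ∀ᶠ n in atTop, ∃ w, B n w ∧ R n l w) :
    ∃ w : ℕ → W, (∀ n, B n (w n)) ∧ ∀ l, ∀ᶠ n in atTop, R n l (w n) := by
  classical
  have hmono' : ∀ n l l' w, l ≤ l' → R n l' w → R n l w := by
    intro n l l' w hll
    induction hll with
    | refl => exact id
    | step _ ih => exact fun h => ih (hmono _ _ _ h)
  let L : ℕ → ℕ := fun n => Nat.findGreatest (fun l => ∃ w, B n w ∧ R n l w) n
  have key : ∀ n, ∃ w, B n w ∧ ((∃ w', B n w' ∧ R n (L n) w') → R n (L n) w) := by
    intro n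
    by_cases hn : ∃ w', B n w' ∧ R n (L n) w'
    · obtain ⟨w, hw⟩ := hn
      exact ⟨w, hw.1, fun _ => hw.2⟩
    · obtain ⟨w, hw⟩ := h0 n
      exact ⟨w, hw, fun h => absurd h hn⟩
  choose w hwB hwR using key
  refine ⟨w, hwB, ?_⟩
  intro l
  filter_upwards [h l, eventually_ge_atTop l] with n hn hln
  have h1 : l ≤ L n := Nat.le_findGreatest hln hn
  have h2 : ∃ w', B n w' ∧ R n (L n) w' :=
    Nat.findGreatest_spec (P := fun l => ∃ w, B n w ∧ R n l w) hln hn
  exact hmono' n l (L n) _ h1 (hwR n h2)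

/-- a countable family of open sets fine enough to squeeze between compact and open sets -/
theorem exists_countable_squeeze (X : Type u) [TopologicalSpace X] [SecondCountableTopology X] :
    ∃ G : Finset ℕ → Set X, ∀ K U : Set X, IsCompact K → IsOpen U → K ⊆ U →
      ∃ s, IsOpen (G s) ∧ K ⊆ G s ∧ G s ⊆ U := by
  classical
  rcases isEmpty_or_nonempty X with hX | hX
  · refine ⟨fun _ => ∅, fun K U _ _ _ => ⟨∅, isOpen_empty, ?_, empty_subset _⟩⟩
    intro x
    exact (hX.false x).elim
  have hB := TopologicalSpace.isBasis_countableBasis X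
  have hcount := TopologicalSpace.countable_countableBasis X
  have hne : (TopologicalSpace.countableBasis X).Nonempty := by
    obtain ⟨x⟩ := hX
    obtain ⟨v, hv, _⟩ := hB.exists_subset_of_mem_open (mem_univ x) isOpen_univ
    exact ⟨v, hv⟩
  obtain ⟨b, hb⟩ := hcount.exists_eq_range hne
  refine ⟨fun s => ⋃ i ∈ s, b i, ?_⟩
  intro K U hK hU hKU
  have h1 : ∀ x ∈ K, ∃ i, x ∈ b i ∧ b i ⊆ U := by
    intro x hx
    obtain ⟨v, hv, hxv, hvU⟩ := hB.exists_subset_of_mem_open (hKU hx) hU
    rw [hb] at hv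
    obtain ⟨i, rfl⟩ := hv
    exact ⟨i, hxv, hvU⟩
  have hbo : ∀ i, IsOpen (b i) := by
    intro i
    refine hB.isOpen ?_
    rw [hb]
    exact ⟨i, rfl⟩
  obtain ⟨t, ht⟩ := hK.elim_finite_subcover (fun i : {i // b i ⊆ U} => b i.1)
    (fun i => hbo i.1) (by
      intro x hx
      obtain ⟨i, hi, hiU⟩ := h1 x hx
      exact mem_iUnion.2 ⟨⟨i, hiU⟩, hi⟩)
  refine ⟨t.image Subtype.val, isOpen_biUnion (fun i _ => hbo i), ?_, ?_⟩
  · intro x hx
    obtain ⟨i, hi, hxi⟩ := mem_iUnion₂.1 (ht hx)
    exact mem_iUnion₂.2 ⟨i.1, Finset.mem_image_of_mem _ hi, hxi⟩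
  · intro x hx
    obtain ⟨i, hi, hxi⟩ := mem_iUnion₂.1 hx
    obtain ⟨j, _, rfl⟩ := Finset.mem_image.1 hi
    exact j.2 hxi

end Pool.Agent.Helper452.Cont
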