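import Pool.Agent.Helper452.ContQ1a

open Set Filter Topology Metric

set_option linter.unusedSectionVars false
set_option linter.unusedVariables false

namespace Pool.Agent.Helper452.Cont

universe u

variable {X : Type u} [MetricSpace X] [CompactSpace X] {p : X} {Z : Set X} {E : ℕ → Set X}

/-- a sequence of pairwise disjoint relatively clopen subsets of a closed neighbourhood of `p` -/
structure Pieces (p : X) (Z : Set X) (E : ℕ → Set X) : Prop where
  hZ : IsClosed Z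
  hZp : Z ∈ 𝓝 p
  sub : ∀ n, E n ⊆ Z
  closed : ∀ n, IsClosed (E n)
  coclosed : ∀ n, IsClosed (Z \ E n)
  disj : ∀ m n x, x ∈ E m → x ∈ E n → m = n
  notMem : ∀ n, p ∉ E n

/-- the part of `Z` outside the pieces with index not in `S` -/
def FS (p : X) (Z : Set X) (E : ℕ → Set X) (S : Set ℕ) : Set {x : X // x ≠ p} :=
  {y | (y : X) ∈ Z ∧ ∀ n ∉ S, (y : X) ∉ E n}

/-- the part of a set outside of all pieces -/
def Core (E : ℕ → Set X) : Set {x : X // x ≠ p} := {y | ∀ n, (y : X) ∉ E n}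

theorem Pieces.openPart (h : Pieces p Z E) (n : ℕ) : IsOpen (interior Z ∩ (Z \ E n)ᶜ) :=
  isOpen_interior.inter (h.coclosed n).isOpen_compl

theorem Pieces.openPart_sub (h : Pieces p Z E) (n : ℕ) : interior Z ∩ (Z \ E n)ᶜ ⊆ E n := by
  intro x hx
  by_contra hx'
  exact hx.2 ⟨interior_subset hx.1, hx'⟩

theorem Pieces.mem_openPart (h : Pieces p Z E) {n : ℕ} {x : X} (hx : x ∈ interior Z)
    (hx' : x ∈ E n) : x ∈ interior Z ∩ (Z \ E n)ᶜ :=
  ⟨hx, fun h' => h'.2 hx'⟩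

theorem isClosed_FS (h : Pieces p Z E) (S : Set ℕ) : IsClosed (FS p Z E S) := by
  have h1 : FS p Z E S = Subtype.val ⁻¹' (Z ∩ ⋂ n : {n // n ∉ S}, (Z \ E n.1)) := by
    ext y
    simp only [FS, mem_ofPred_eq, mem_preimage, mem_inter_iff, mem_iInter, Set.mem_sdiff, Subtype.forall]
    constructor
    · rintro ⟨h1, h2⟩
      exact ⟨h1, fun n hn => ⟨h1, h2 n hn⟩⟩
    · rintro ⟨h1, h2⟩
      exact ⟨h1, fun n hn => (h2 n hn).2⟩
  rw [h1]
  refine IsClosed.preimage continuous_subtype_val (h.hZ.inter ?_)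
  exact isClosed_iInter (fun n => h.coclosed n.1)

/-- the gluing lemma: the union of a closed core part and of a good sequence of closed parts of
the pieces is closed -/
theorem closed_plus (h : Pieces p Z E) {r : ℝ} (hr : closedBall p r ⊆ interior Z)
    {A : Set {x : X // x ≠ p}} (hA : IsClosed A)
    {W : ℕ → Set X} (hW : ∀ n, IsClosed (W n)) (hWE : ∀ n, W n ⊆ E n)
    (hconv : ∀ l : ℕ, ∀ᶠ n in atTop, W n ∩ {x | 1 / ((l : ℝ) + 1) ≤ dist x p} ⊆
      thickening (1 / ((l : ℝ) + 1)) (Subtype.val '' (A ∩ Core E))) :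
    IsClosed {y : {x : X // x ≠ p} | (y : X) ∈ closedBall p r ∧
      ((y ∈ A ∧ y ∈ Core E) ∨ ∃ n, (y : X) ∈ W n)} := by
  rw [← isOpen_compl_iff, isOpen_iff_mem_nhds]
  intro y hy
  simp only [mem_compl_iff, mem_ofPred_eq, not_and, not_or, not_exists] at hy
  by_cases hyr : (y : X) ∈ closedBall p r
  swap
  · have : (Subtype.val ⁻¹' (closedBall p r)ᶜ : Set {x : X // x ≠ p}) ∈ 𝓝 y :=
      (isClosed_closedBall.isOpen_compl.preimage continuous_subtype_val).mem_nhds hyr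
    refine Filter.mem_of_superset this ?_
    intro z hz hz'
    exact hz hz'.1
  obtain ⟨hy1, hy2⟩ := hy hyr
  by_cases hyE : ∃ n, (y : X) ∈ E n
  · obtain ⟨n, hn⟩ := hyE
    have hopen : IsOpen ((interior Z ∩ (Z \ E n)ᶜ) ∩ (W n)ᶜ) :=
      (h.openPart n).inter (hW n).isOpen_compl
    have : (Subtype.val ⁻¹' ((interior Z ∩ (Z \ E n)ᶜ) ∩ (W n)ᶜ) : Set {x : X // x ≠ p}) ∈ 𝓝 y :=
      (hopen.preimage continuous_subtype_val).mem_nhds ⟨h.mem_openPart (hr hyr) hn, hy2 n⟩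
    refine Filter.mem_of_superset this ?_
    intro z hz hz'
    have hzn : (z : X) ∈ E n := h.openPart_sub n hz.1
    rcases hz'.2 with h1 | ⟨m, hm⟩
    · exact h1.2 n hzn
    · have := h.disj m n _ (hWE m hm) hzn
      subst this
      exact hz.2 hm
  · have hyC : y ∈ Core E := fun n hn => hyE ⟨n, hn⟩
    have hyA : y ∉ A := fun h' => hy1 h' hyC
    obtain ⟨δ, hδ, hδA⟩ := Metric.isOpen_iff.1 hA.isOpen_compl y hyA
    have hyp : 0 < dist (y : X) p := dist_pos.2 y.2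
    obtain ⟨l, hl⟩ := exists_nat_one_div_lt (show 0 < min (δ / 2) (dist (y : X) p / 2) by positivity)
    have hl1 : 1 / ((l : ℝ) + 1) < δ / 2 := lt_of_lt_of_le hl (min_le_left _ _)
    have hl2 : 1 / ((l : ℝ) + 1) < dist (y : X) p / 2 := lt_of_lt_of_le hl (min_le_right _ _)
    obtain ⟨n₀, hn₀⟩ := eventually_atTop.1 (hconv l)
    have hopen : IsOpen (ball (y : X) (min (δ / 2) (dist (y : X) p / 2)) ∩
        ⋂ n ∈ Finset.range n₀, (W n)ᶜ) := by
      refine isOpen_ball.inter ?_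
      exact isOpen_biInter_finset (fun n _ => (hW n).isOpen_compl)
    have hmem : (y : X) ∈ (ball (y : X) (min (δ / 2) (dist (y : X) p / 2)) ∩
        ⋂ n ∈ Finset.range n₀, (W n)ᶜ) := by
      refine ⟨mem_ball_self (by positivity), ?_⟩
      simp only [mem_iInter, mem_compl_iff]
      exact fun n _ => hy2 n
    have : (Subtype.val ⁻¹' (ball (y : X) (min (δ / 2) (dist (y : X) p / 2)) ∩
        ⋂ n ∈ Finset.range n₀, (W n)ᶜ) : Set {x : X // x ≠ p}) ∈ 𝓝 y :=
      (hopen.preimage continuous_subtype_val).mem_nhds hmem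
    refine Filter.mem_of_superset this ?_
    rintro z ⟨hz1, hz2⟩ hz'
    have hd1 : dist (z : X) y < δ / 2 := lt_of_lt_of_le hz1 (min_le_left _ _)
    have hd2 : dist (z : X) y < dist (y : X) p / 2 := lt_of_lt_of_le hz1 (min_le_right _ _)
    rcases hz'.2 with h1 | ⟨m, hm⟩
    · refine hδA ?_ h1.1
      rw [mem_ball, Subtype.dist_eq]
      linarith
    · rcases lt_or_ge m n₀ with hmn | hmn
      · simp only [mem_iInter, mem_compl_iff] at hz2
        exact hz2 m (Finset.mem_range.2 hmn) hm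
      · have h3 : dist (y : X) p ≤ dist (z : X) y + dist (z : X) p := by
          rw [dist_comm (z : X) y]
          exact dist_triangle _ _ _
        have h4 := hn₀ m hmn ⟨hm, show 1 / ((l : ℝ) + 1) ≤ dist (z : X) p by linarith⟩
        rw [mem_thickening_iff] at h4
        obtain ⟨_, ⟨a, ha, rfl⟩, hza⟩ := h4
        refine hδA ?_ ha.1
        rw [mem_ball, Subtype.dist_eq]
        have h5 : dist (a : X) y ≤ dist (z : X) a + dist (z : X) y := by
          rw [dist_comm (z : X) a]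
          exact dist_triangle _ _ _
        linarith

/-- parts of pieces admitted at stage `n` -/
def Adm (p : X) (E : ℕ → Set X) (r : ℝ) (n : ℕ) (w : Set X × Set X) : Prop :=
  IsClosed w.1 ∧ IsClosed w.2 ∧ Disjoint w.1 w.2 ∧ w.1 ∪ w.2 = E n ∩ closedBall p r

/-- the indices at which no admissible pair squeezes -/
def Dset (p : X) (E : ℕ → Set X) (r : ℝ) (l : ℕ) (G H : Set X) : Set ℕ :=
  {n | ¬ ∃ w, Adm p E r n w ∧ w.1 ∩ {x | 1 / ((l : ℝ) + 1) ≤ dist x p} ⊆ G ∧
    w.2 ∩ {x | 1 / ((l : ℝ) + 1) ≤ dist x p} ⊆ H}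

theorem acc_core (h : Pieces p Z E) (hRem : IsPreconnected (Rem {x : X // x ≠ p})) {S : Set ℕ}
    {P Q : Set {x : X // x ≠ p}} {N : Set X} (hP : IsClosed P)
    (hQ : IsClosed Q) (hPQ : Disjoint P Q) (hPF : P ⊆ FS p Z E S) (hN : N ∈ 𝓝 p)
    (hcov : FS p Z E S ∩ Subtype.val ⁻¹' N ⊆ P ∪ Q) (haP : Acc P) (haQ : Acc Q) :
    Acc (P ∩ Core E) := by
  by_contra hcon
  rw [acc_iff] at hcon
  push Not at hcon
  obtain ⟨N', hN', hN'2⟩ := hcon
  have hnb : N' ∩ (N ∩ interior Z) ∈ 𝓝 p :=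
    inter_mem hN' (inter_mem hN (interior_mem_nhds.2 h.hZp))
  obtain ⟨δ, hδ, hδs⟩ := Metric.nhds_basis_closedBall.mem_iff.1 hnb
  have hMp : closedBall p δ ∈ 𝓝 p := closedBall_mem_nhds p hδ
  refine not_preconnected_of_split (P := P ∩ Subtype.val ⁻¹' closedBall p δ)
    (Q := Subtype.val ⁻¹' closedBall p δ \ P) (N := closedBall p δ)
    (hP.inter (isClosed_closedBall.preimage continuous_subtype_val)) ?_ ?_ hMp ?_
    (acc_inter haP hMp) ?_ hRem
  · rw [← isOpen_compl_iff, isOpen_iff_mem_nhds]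
    intro y hy
    by_cases hyM : (y : X) ∈ closedBall p δ
    swap
    · have : (Subtype.val ⁻¹' (closedBall p δ)ᶜ : Set {x : X // x ≠ p}) ∈ 𝓝 y :=
        (isClosed_closedBall.isOpen_compl.preimage continuous_subtype_val).mem_nhds hyM
      refine Filter.mem_of_superset this ?_
      intro z hz hz'
      exact hz hz'.1
    have hyP : y ∈ P := by
      by_contra hyP
      exact hy ⟨hyM, hyP⟩
    have hyC : y ∉ Core E := fun hyC => hN'2 y ⟨hyP, hyC⟩ (hδs hyM).1
    simp only [Core, mem_ofPred_eq, not_forall, not_not] at hyC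
    obtain ⟨n, hn⟩ := hyC
    have hnS : n ∈ S := by
      by_contra hnS
      exact (hPF hyP).2 n hnS hn
    have hyQ : y ∉ Q := fun h' => Set.disjoint_left.1 hPQ hyP h'
    have : ((Subtype.val ⁻¹' (interior Z ∩ (Z \ E n)ᶜ)) ∩ Qᶜ : Set {x : X // x ≠ p}) ∈ 𝓝 y := by
      refine ((h.openPart n).preimage continuous_subtype_val |>.inter hQ.isOpen_compl).mem_nhds ?_
      exact ⟨h.mem_openPart (hδs hyM).2.2 hn, hyQ⟩
    refine Filter.mem_of_superset this ?_
    rintro z ⟨hz1, hz2⟩ ⟨hz3, hz4⟩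
    have hzn : (z : X) ∈ E n := h.openPart_sub n hz1
    have hzF : z ∈ FS p Z E S := by
      refine ⟨h.sub n hzn, ?_⟩
      intro m hm hzm
      have := h.disj m n _ hzm hzn
      exact hm (this ▸ hnS)
    rcases hcov ⟨hzF, (hδs hz3).2.1⟩ with h1 | h1
    · exact hz4 h1
    · exact hz2 h1
  · rw [Set.disjoint_left]
    intro y hy hy'
    exact hy'.2 hy.1
  · intro y hy
    by_cases hyP : y ∈ P
    · exact Or.inl ⟨hyP, hy⟩
    · exact Or.inr ⟨hy, hyP⟩
  · refine (acc_inter haQ hMp).mono ?_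
    intro y hy
    exact ⟨hy.2, fun h' => Set.disjoint_left.1 hPQ h' hy.1⟩

/-- squeezing the part of one colour for all but finitely many pieces -/
theorem squeeze_finite (h : Pieces p Z E) {r : ℝ} (hr : closedBall p r ⊆ interior Z) (l : ℕ)
    {P : Set {x : X // x ≠ p}} (hP : IsClosed P) {G : Set X} (hG : IsOpen G)
    (hPG : ∀ y ∈ P, y ∈ Core E → (y : X) ∈ closedBall p r →
      1 / ((l : ℝ) + 1) ≤ dist (y : X) p → (y : X) ∈ G) :
    ∃ F : Finset ℕ, ∀ n ∉ F, ∀ y ∈ P, (y : X) ∈ E n → (y : X) ∈ closedBall p r →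
      1 / ((l : ℝ) + 1) ≤ dist (y : X) p → (y : X) ∈ G := by
  classical
  -- the bad set is compact
  have hl : (0 : ℝ) < 1 / ((l : ℝ) + 1) := by positivity
  have hK1 : IsCompact {y : {x : X // x ≠ p} | (y : X) ∉ ball p (1 / ((l : ℝ) + 1))} :=
    isCompact_outside (ball_mem_nhds p hl) isOpen_ball
  have hK2 : IsClosed (P ∩ (Subtype.val ⁻¹' (closedBall p r ∩ Gᶜ)) : Set {x : X // x ≠ p}) :=
    hP.inter ((isClosed_closedBall.inter hG.isClosed_compl).preimage continuous_subtype_val)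
  have hK := (hK1.inter_right hK2).image continuous_subtype_val
  obtain ⟨F, hF⟩ := hK.elim_finite_subcover (fun n => interior Z ∩ (Z \ E n)ᶜ)
    (fun n => h.openPart n) (by
      rintro _ ⟨y, ⟨hy1, hy2, hy3, hy4⟩, rfl⟩
      simp only [mem_ofPred_eq, mem_ball, not_lt] at hy1
      have : y ∉ Core E := fun hyC => hy4 (hPG y hy2 hyC hy3 hy1)
      simp only [Core, mem_ofPred_eq, not_forall, not_not] at this
      obtain ⟨n, hn⟩ := this
      exact mem_iUnion.2 ⟨n, h.mem_openPart (hr hy3) hn⟩)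
  refine ⟨F, ?_⟩
  intro n hn y hyP hyE hyr hyl
  by_contra hyG
  have h1 : (y : X) ∈ Subtype.val '' ({y : {x : X // x ≠ p} | (y : X) ∉ ball p (1 / ((l : ℝ) + 1))} ∩
      (P ∩ (Subtype.val ⁻¹' (closedBall p r ∩ Gᶜ)))) := by
    refine ⟨y, ⟨?_, hyP, hyr, hyG⟩, rfl⟩
    simp only [mem_ofPred_eq, mem_ball, not_lt]
    exact hyl
  obtain ⟨m, hm, hym⟩ := mem_iUnion₂.1 (hF h1)
  have := h.disj m n _ (h.openPart_sub m hym) hyE
  subst this
  exact hn hm

/-- compact core part away from `p` -/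
theorem compact_corePart (h : Pieces p Z E) {r : ℝ} (hr : closedBall p r ⊆ interior Z) (l : ℕ)
    {P : Set {x : X // x ≠ p}} (hP : IsClosed P) :
    IsCompact (Subtype.val '' {y : {x : X // x ≠ p} | y ∈ P ∧ y ∈ Core E ∧
      (y : X) ∈ closedBall p r ∧ 1 / ((l : ℝ) + 1) ≤ dist (y : X) p}) := by
  have hl : (0 : ℝ) < 1 / ((l : ℝ) + 1) := by positivity
  have hK1 : IsCompact {y : {x : X // x ≠ p} | (y : X) ∉ ball p (1 / ((l : ℝ) + 1))} :=
    isCompact_outside (ball_mem_nhds p hl) isOpen_ball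
  have hcl : IsClosed (P ∩ (Subtype.val ⁻¹' (closedBall p r ∩ ⋂ n, (Z \ E n))) :
      Set {x : X // x ≠ p}) :=
    hP.inter ((isClosed_closedBall.inter (isClosed_iInter h.coclosed)).preimage
      continuous_subtype_val)
  have h2 : {y : {x : X // x ≠ p} | y ∈ P ∧ y ∈ Core E ∧
      (y : X) ∈ closedBall p r ∧ 1 / ((l : ℝ) + 1) ≤ dist (y : X) p} =
      {y : {x : X // x ≠ p} | (y : X) ∉ ball p (1 / ((l : ℝ) + 1))} ∩
      (P ∩ (Subtype.val ⁻¹' (closedBall p r ∩ ⋂ n, (Z \ E n)))) := by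
    ext y
    simp only [mem_ofPred_eq, mem_inter_iff, mem_preimage, mem_iInter, Set.mem_sdiff, mem_ball, not_lt,
      Core]
    constructor
    · rintro ⟨h1, h2, h3, h4⟩
      exact ⟨h4, h1, h3, fun n => ⟨interior_subset (hr h3), h2 n⟩⟩
    · rintro ⟨h1, h2, h3, h4⟩
      exact ⟨h2, fun n => (h4 n).2, h3, h1⟩
  rw [h2]
  exact (hK1.inter_right hcl).image continuous_subtype_val

end Pool.Agent.Helper452.Cont
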