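import Pool.Agent.Helper452.ContQ1b

open Set Filter Topology Metric

set_option linter.unusedSectionVars false
set_option linter.unusedVariables false

namespace Pool.Agent.Helper452.Cont

universe u

variable {X : Type u} [MetricSpace X] [CompactSpace X] {p : X} {Z : Set X} {E : ℕ → Set X}

theorem star_preconnected (h : Pieces p Z E) (hRem : IsPreconnected (Rem {x : X // x ≠ p}))
    (Gf : Finset ℕ → Set X)
    (hG : ∀ K U : Set X, IsCompact K → IsOpen U → K ⊆ U →
      ∃ s, IsOpen (Gf s) ∧ K ⊆ Gf s ∧ Gf s ⊆ U) (S : Set ℕ)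
    (hS : ∀ (k l : ℕ) (s t : Finset ℕ), (Dset p E (1 / ((k : ℝ) + 1)) l (Gf s) (Gf t)).Infinite →
      (Dset p E (1 / ((k : ℝ) + 1)) l (Gf s) (Gf t) ∩ S).Infinite) :
    IsPreconnected (Rem {x : X // x ≠ p} ∩ closure (stoneCechUnit '' FS p Z E S)) := by
  refine preconnected_star (isClosed_FS h S) ?_
  intro P Q N hP hQ hPQ hPF hQF hN hcov haP haQ
  have hnb : N ∩ interior Z ∈ 𝓝 p := inter_mem hN (interior_mem_nhds.2 h.hZp)
  obtain ⟨δ, hδ, hδs⟩ := Metric.nhds_basis_closedBall.mem_iff.1 hnb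
  obtain ⟨k, hk⟩ := exists_nat_one_div_lt hδ
  set r : ℝ := 1 / ((k : ℝ) + 1) with hrdef
  have hr0 : 0 < r := by positivity
  have hrs : closedBall p r ⊆ N ∩ interior Z :=
    (closedBall_subset_closedBall hk.le).trans hδs
  have hrZ : closedBall p r ⊆ interior Z := fun x hx => (hrs hx).2
  have hMp : closedBall p r ∈ 𝓝 p := closedBall_mem_nhds p hr0
  have hcoreP := acc_core h hRem hP hQ hPQ hPF hN hcov haP haQ
  have hcoreQ := acc_core h hRem hQ hP hPQ.symm hQF hN (by rwa [union_comm]) haQ haP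
  -- the requirement at level l
  let R : ℕ → ℕ → Set X × Set X → Prop := fun n l w =>
    w.1 ∩ {x | 1 / ((l : ℝ) + 1) ≤ dist x p} ⊆
      thickening (1 / ((l : ℝ) + 1)) (Subtype.val '' (P ∩ Core E)) ∧
    w.2 ∩ {x | 1 / ((l : ℝ) + 1) ≤ dist x p} ⊆
      thickening (1 / ((l : ℝ) + 1)) (Subtype.val '' (Q ∩ Core E))
  have hmono : ∀ n l w, R n (l + 1) w → R n l w := by
    intro n l w hw
    have hle : (1 : ℝ) / (((l + 1 : ℕ) : ℝ) + 1) ≤ 1 / ((l : ℝ) + 1) := by
      apply one_div_le_one_div_of_le (by positivity)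
      push_cast
      linarith
    constructor
    · intro x hx
      exact thickening_mono hle _ (hw.1 ⟨hx.1, hle.trans hx.2⟩)
    · intro x hx
      exact thickening_mono hle _ (hw.2 ⟨hx.1, hle.trans hx.2⟩)
  have h0 : ∀ n, ∃ w, Adm p E r n w := by
    intro n
    refine ⟨(E n ∩ closedBall p r, ∅), (h.closed n).inter isClosed_closedBall, isClosed_empty,
      disjoint_empty _, union_empty _⟩
  -- images of closed sets inside a piece are closed
  have himg : ∀ (A : Set {x : X // x ≠ p}), IsClosed A → ∀ n,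
      IsClosed (Subtype.val '' (A ∩ Subtype.val ⁻¹' (E n ∩ closedBall p r))) := by
    intro A hA n
    have h1 : (E n)ᶜ ∈ 𝓝 p := (h.closed n).isOpen_compl.mem_nhds (h.notMem n)
    have h2 := isCompact_outside h1 (h.closed n).isOpen_compl
    have h3 : A ∩ Subtype.val ⁻¹' (E n ∩ closedBall p r) =
        {y : {x : X // x ≠ p} | (y : X) ∉ (E n)ᶜ} ∩ (A ∩ Subtype.val ⁻¹' closedBall p r) := by
      ext y
      simp only [mem_inter_iff, mem_preimage, mem_ofPred_eq, mem_compl_iff, not_not]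
      tauto
    rw [h3]
    exact ((h2.inter_right (hA.inter (isClosed_closedBall.preimage
      continuous_subtype_val))).image continuous_subtype_val).isClosed
  have hcovn : ∀ n ∈ S, ∀ y : {x : X // x ≠ p}, (y : X) ∈ E n → (y : X) ∈ closedBall p r →
      y ∈ P ∪ Q := by
    intro n hn y hy hyr
    refine hcov ⟨⟨h.sub n hy, ?_⟩, (hrs hyr).1⟩
    intro m hm hym
    exact hm (h.disj m n _ hym hy ▸ hn)
  have hstage : ∀ l, ∀ᶠ n in atTop, ∃ w, Adm p E r n w ∧ R n l w := by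
    intro l
    set KP := Subtype.val '' {y : {x : X // x ≠ p} | y ∈ P ∧ y ∈ Core E ∧
      (y : X) ∈ closedBall p r ∧ 1 / ((l : ℝ) + 1) ≤ dist (y : X) p} with hKP
    set KQ := Subtype.val '' {y : {x : X // x ≠ p} | y ∈ Q ∧ y ∈ Core E ∧
      (y : X) ∈ closedBall p r ∧ 1 / ((l : ℝ) + 1) ≤ dist (y : X) p} with hKQ
    have hKPc : IsCompact KP := compact_corePart h hrZ l hP
    have hKQc : IsCompact KQ := compact_corePart h hrZ l hQ
    have hl : (0 : ℝ) < 1 / ((l : ℝ) + 1) := by positivity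
    obtain ⟨s, hso, hs1, hs2⟩ := hG KP (thickening (1 / ((l : ℝ) + 1)) KP) hKPc isOpen_thickening
      (self_subset_thickening hl _)
    obtain ⟨t, hto, ht1, ht2⟩ := hG KQ (thickening (1 / ((l : ℝ) + 1)) KQ) hKQc isOpen_thickening
      (self_subset_thickening hl _)
    obtain ⟨F₁, hF₁⟩ := squeeze_finite h hrZ l hP hso
      (fun y hyP hyC hyr hyl => hs1 ⟨y, ⟨hyP, hyC, hyr, hyl⟩, rfl⟩)
    obtain ⟨F₂, hF₂⟩ := squeeze_finite h hrZ l hQ hto
      (fun y hyP hyC hyr hyl => ht1 ⟨y, ⟨hyP, hyC, hyr, hyl⟩, rfl⟩)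
    have hfin : (Dset p E r l (Gf s) (Gf t) ∩ S).Finite := by
      refine ((F₁ ∪ F₂).finite_toSet).subset ?_
      rintro n ⟨hnD, hnS⟩
      by_contra hnF
      simp only [Finset.coe_union, mem_union, Finset.mem_coe, not_or] at hnF
      apply hnD
      refine ⟨(Subtype.val '' (P ∩ Subtype.val ⁻¹' (E n ∩ closedBall p r)),
        Subtype.val '' (Q ∩ Subtype.val ⁻¹' (E n ∩ closedBall p r))),
        ⟨himg P hP n, himg Q hQ n, ?_, ?_⟩, ?_, ?_⟩
      · rw [Set.disjoint_left]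
        rintro _ ⟨y, hy, rfl⟩ ⟨z, hz, hzy⟩
        have : z = y := Subtype.ext hzy
        subst this
        exact Set.disjoint_left.1 hPQ hy.1 hz.1
      · ext x
        constructor
        · rintro (⟨y, hy, rfl⟩ | ⟨y, hy, rfl⟩)
          · exact hy.2
          · exact hy.2
        · intro hx
          have hxp : x ≠ p := by
            rintro rfl
            exact h.notMem n hx.1
          rcases hcovn n hnS ⟨x, hxp⟩ hx.1 hx.2 with h1 | h1
          · exact Or.inl ⟨⟨x, hxp⟩, ⟨h1, hx⟩, rfl⟩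
          · exact Or.inr ⟨⟨x, hxp⟩, ⟨h1, hx⟩, rfl⟩
      · rintro _ ⟨⟨y, hy, rfl⟩, hyl⟩
        exact hF₁ n hnF.1 y hy.1 hy.2.1 hy.2.2 hyl
      · rintro _ ⟨⟨y, hy, rfl⟩, hyl⟩
        exact hF₂ n hnF.2 y hy.1 hy.2.1 hy.2.2 hyl
    have hDfin : (Dset p E r l (Gf s) (Gf t)).Finite := by
      by_contra hinf
      exact hS k l s t hinf hfin
    have hev : ∀ᶠ n in atTop, n ∉ Dset p E r l (Gf s) (Gf t) := by
      have := hDfin.isCompact.finite_of_discrete
      rw [← Nat.cofinite_eq_atTop]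
      exact hDfin.compl_mem_cofinite
    filter_upwards [hev] with n hn
    simp only [Dset, mem_ofPred_eq, not_not] at hn
    obtain ⟨w, hw, hw1, hw2⟩ := hn
    refine ⟨w, hw, ?_, ?_⟩
    · refine (hw1.trans hs2).trans (thickening_subset_of_subset _ ?_)
      exact image_mono (fun y hy => ⟨hy.1, hy.2.1⟩)
    · refine (hw2.trans ht2).trans (thickening_subset_of_subset _ ?_)
      exact image_mono (fun y hy => ⟨hy.1, hy.2.1⟩)
  obtain ⟨w, hwA, hwR⟩ := exists_choice (Adm p E r) R hmono h0 hstage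
  have hw1E : ∀ n, (w n).1 ⊆ E n := fun n x hx => by
    have : x ∈ (w n).1 ∪ (w n).2 := Or.inl hx
    rw [(hwA n).2.2.2] at this
    exact this.1
  have hw2E : ∀ n, (w n).2 ⊆ E n := fun n x hx => by
    have : x ∈ (w n).1 ∪ (w n).2 := Or.inr hx
    rw [(hwA n).2.2.2] at this
    exact this.1
  refine not_preconnected_of_split
    (closed_plus h hrZ hP (fun n => (hwA n).1) hw1E (fun l => (hwR l).mono fun n hn => hn.1))
    (closed_plus h hrZ hQ (fun n => (hwA n).2.1) hw2E (fun l => (hwR l).mono fun n hn => hn.2))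
    ?_ hMp ?_ ?_ ?_ hRem
  · rw [Set.disjoint_left]
    rintro y ⟨hyr, hy1⟩ ⟨_, hy2⟩
    rcases hy1 with hy1 | ⟨n, hn⟩
    · rcases hy2 with hy2 | ⟨m, hm⟩
      · exact Set.disjoint_left.1 hPQ hy1.1 hy2.1
      · exact hy1.2 m (hw2E m hm)
    · rcases hy2 with hy2 | ⟨m, hm⟩
      · exact hy2.2 n (hw1E n hn)
      · have := h.disj n m _ (hw1E n hn) (hw2E m hm)
        subst this
        exact Set.disjoint_left.1 (hwA n).2.2.1 hn hm
  · intro y hy
    by_cases hyC : y ∈ Core E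
    · have : y ∈ P ∪ Q := hcov ⟨⟨interior_subset (hrZ hy), fun n _ => hyC n⟩, (hrs hy).1⟩
      rcases this with h1 | h1
      · exact Or.inl ⟨hy, Or.inl ⟨h1, hyC⟩⟩
      · exact Or.inr ⟨hy, Or.inl ⟨h1, hyC⟩⟩
    · simp only [Core, mem_ofPred_eq, not_forall, not_not] at hyC
      obtain ⟨n, hn⟩ := hyC
      have : (y : X) ∈ (w n).1 ∪ (w n).2 := by
        rw [(hwA n).2.2.2]
        exact ⟨hn, hy⟩
      rcases this with h1 | h1
      · exact Or.inl ⟨hy, Or.inr ⟨n, h1⟩⟩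
      · exact Or.inr ⟨hy, Or.inr ⟨n, h1⟩⟩
  · refine (acc_inter hcoreP hMp).mono ?_
    intro y hy
    exact ⟨hy.2, Or.inl hy.1⟩
  · refine (acc_inter hcoreQ hMp).mono ?_
    intro y hy
    exact ⟨hy.2, Or.inl hy.1⟩

end Pool.Agent.Helper452.Cont
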