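import Pool.Agent.Helper452.ContMod

open Set Filter Topology Metric

set_option linter.unusedSectionVars false
set_option linter.unusedVariables false

namespace Pool.Agent.Helper452.Cont

/-- where to cut the paths, and where to put prescribed values -/
structure CutData where
  c : ℕ → ℕ
  ic : ℕ → ℕ
  lc : ℕ → ℕ
  mid : ℕ → ℝ
  z : ℕ → Bool → ℕ → Bool
  c_lt : ∀ n, 1 ≤ n → c n < n
  c_top : ∀ j, ∃ B, ∀ n, B ≤ n → j < c n
  c_ok : ∀ n, c n ≠ 0 → ic (c n) < n ∧ lc (c n) ≤ n ∧ ∀ m, n ≤ m → mid (c n) < ht (c n) (2 * m)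
  z_pt : ∀ j b, Pt j (z j b)
  z_ne : ∀ j b n r s, z j b ≠ qq n r s
  z_inj : ∀ j, z j true ≠ z j false

theorem qq_pt (n r : ℕ) (s : Bool) : Pt (lev n r) (qq n r s) := by
  refine ⟨fun k hk => qq_blk hk, ⟨key n r s.toNat, qq_key n r s, blk_key _ _ _⟩,
    key n r s.toNat + 1, ?_⟩
  intro t ht
  by_contra hcon
  have h1 := qq_top (show qq n r s t = true by simpa using hcon)
  omega

theorem lev_lt_iff {n c r : ℕ} (hr : 1 ≤ r) (hc : c < n) (hc0 : c ≠ 0) :
    lev n r < c ↔ 2 ^ ((n - c) * n) ∣ r := by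
  have h1 : 2 ^ ((n - c) * n) ∣ r ↔ (n - c) * n ≤ padicValNat 2 r := by
    rw [padicValNat_dvd_iff_le (by omega)]
  rw [h1]
  have h2 : (n - c) * n ≤ padicValNat 2 r ↔ n - c ≤ padicValNat 2 r / n := by
    rw [Nat.le_div_iff_mul_le (by omega)]
  rw [h2]
  unfold lev
  omega

theorem cut_exp_lt {n c i : ℕ} (hc : c < n) (hi : i < n) :
    (n - 1 - c) * n + i < (n - c) * n := by
  have : n - c = (n - 1 - c) + 1 := by omega
  rw [this, Nat.add_mul, Nat.one_mul]
  omega

theorem two_mul_cut {n c i : ℕ} (hc : c < n) (hi : i < n) :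
    2 * 2 ^ ((n - 1 - c) * n + i) ≤ 2 ^ ((n - c) * n) := by
  rw [← Nat.pow_succ']
  exact Nat.pow_le_pow_right (by norm_num) (cut_exp_lt hc hi)

theorem lev_idx_mod {n c i r : ℕ} (hc : c < n) (hi : i < n)
    (hr : r % 2 ^ ((n - c) * n) = 2 ^ ((n - 1 - c) * n + i)) :
    lev n r = c ∧ idx n r = i := by
  have hlt := cut_exp_lt hc hi
  have hd : 2 ^ ((n - 1 - c) * n + i + 1) ∣ 2 ^ ((n - c) * n) := Nat.pow_dvd_pow 2 hlt
  have hr0 : r ≠ 0 := by
    rintro rfl
    rw [Nat.zero_mod] at hr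
    exact absurd hr.symm (by positivity)
  have hdm := Nat.div_add_mod r (2 ^ ((n - c) * n))
  rw [hr] at hdm
  have h1 : 2 ^ ((n - 1 - c) * n + i) ∣ r := by
    rw [← hdm]
    exact Dvd.dvd.add (Dvd.dvd.mul_right ((Nat.pow_dvd_pow 2 (Nat.le_succ _)).trans hd) _)
      dvd_rfl
  have h2 : ¬ 2 ^ ((n - 1 - c) * n + i + 1) ∣ r := by
    intro h3
    rw [← hdm, Nat.dvd_add_right (Dvd.dvd.mul_right hd _)] at h3
    have h4 := Nat.le_of_dvd (by positivity) h3
    have h5 : 2 ^ ((n - 1 - c) * n + i) < 2 ^ ((n - 1 - c) * n + i + 1) :=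
      Nat.pow_lt_pow_right (by norm_num) (Nat.lt_succ_self _)
    omega
  have h3 : padicValNat 2 r = (n - 1 - c) * n + i := by
    rw [padicValNat_dvd_iff_le hr0] at h1 h2
    omega
  have h4 : ((n - 1 - c) * n + i) / n = n - 1 - c := by
    rw [Nat.mul_comm, Nat.mul_add_div (by omega), Nat.div_eq_of_lt hi, Nat.add_zero]
  have h5 : ((n - 1 - c) * n + i) % n = i := by
    rw [Nat.mul_comm, Nat.mul_add_mod, Nat.mod_eq_of_lt hi]
  unfold lev idx
  rw [h3, h4, h5]
  omega

theorem succ_mod_cases {r T : ℕ} (hT : 0 < T) :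
    (T ∣ r + 1 ∧ r % T = T - 1) ∨ (¬ T ∣ r + 1 ∧ (r + 1) % T = r % T + 1 ∧ r % T + 1 < T) := by
  have h1 := Nat.div_add_mod r T
  have h2 := Nat.mod_lt r hT
  rcases Nat.lt_or_ge (r % T + 1) T with h3 | h3
  · right
    have h4 : (r + 1) % T = r % T + 1 := by
      rw [Nat.add_mod]
      rcases Nat.lt_or_ge 1 T with h5 | h5
      · rw [Nat.mod_eq_of_lt h5, Nat.mod_eq_of_lt h3]
      · omega
    refine ⟨?_, h4, h3⟩
    intro h5
    have := Nat.mod_eq_zero_of_dvd h5
    omega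
  · left
    have h4 : r % T = T - 1 := by omega
    refine ⟨?_, h4⟩
    have h5 : r + 1 = T * (r / T + 1) := by
      rw [Nat.mul_add, Nat.mul_one]
      omega
    rw [h5]
    exact Nat.dvd_mul_right _ _

variable (D : CutData)

/-- period of the cut lines on the `n`-th path -/
def TT (n : ℕ) : ℕ := 2 ^ ((n - D.c n) * n)

/-- residue of the cut lines -/
def ee (n : ℕ) : ℕ := 2 ^ ((n - 1 - D.c n) * n + D.ic (D.c n))

/-- the value on a line of the path, from the values on the lines of small level -/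
def vl (V : ℕ → ℕ → Bool → Bool) (n r : ℕ) (s : Bool) : Bool :=
  if D.c n = 0 then false else
  if r % TT D n < ee D n ∨ (r % TT D n = ee D n ∧ s = false) then
    (if r - r % TT D n = 0 then false else V n (r - r % TT D n) true)
  else
    (if r - r % TT D n + TT D n = 2 ^ (n * n) then false
      else V n (r - r % TT D n + TT D n) false)

theorem vl_zero (V : ℕ → ℕ → Bool → Bool) (n r : ℕ) (s : Bool) (h : D.c n = 0) :
    vl D V n r s = false := by
  unfold vl
  rw [if_pos h]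

theorem vl_left (V : ℕ → ℕ → Bool → Bool) (n r : ℕ) (s : Bool) (h : D.c n ≠ 0)
    (h' : r % TT D n < ee D n ∨ (r % TT D n = ee D n ∧ s = false)) :
    vl D V n r s = if r - r % TT D n = 0 then false else V n (r - r % TT D n) true := by
  unfold vl
  rw [if_neg h, if_pos h']

theorem vl_right (V : ℕ → ℕ → Bool → Bool) (n r : ℕ) (s : Bool) (h : D.c n ≠ 0)
    (h' : ¬ (r % TT D n < ee D n ∨ (r % TT D n = ee D n ∧ s = false))) :
    vl D V n r s = if r - r % TT D n + TT D n = 2 ^ (n * n) then false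
      else V n (r - r % TT D n + TT D n) false := by
  unfold vl
  rw [if_neg h, if_neg h']

theorem vl_pair {V : ℕ → ℕ → Bool → Bool} {n r : ℕ} (h : vl D V n r false ≠ vl D V n r true) :
    D.c n ≠ 0 ∧ r % TT D n = ee D n := by
  by_cases h1 : D.c n = 0
  · exfalso
    apply h
    rw [vl_zero D V n r false h1, vl_zero D V n r true h1]
  · refine ⟨h1, ?_⟩
    by_contra h2
    apply h
    by_cases h3 : r % TT D n < ee D n
    · rw [vl_left D V n r false h1 (Or.inl h3), vl_left D V n r true h1 (Or.inl h3)]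
    · rw [vl_right D V n r false h1 (by
        rintro (h4 | h4)
        · exact h3 h4
        · exact h2 h4.1), vl_right D V n r true h1 (by
        rintro (h4 | h4)
        · exact h3 h4
        · exact h2 h4.1)]

/-- the recursive identity carries the value along a high join -/
theorem vl_step {V : ℕ → ℕ → Bool → Bool}
    (hV : ∀ n r s, 1 ≤ r → r < 2 ^ (n * n) → D.c n ≤ lev n r → V n r s = vl D V n r s)
    {n r : ℕ} (h1 : 1 ≤ r) (h2 : r + 1 < 2 ^ (n * n)) : V n r true = V n (r + 1) false := by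
  have hn : 1 ≤ n := by
    rcases Nat.eq_zero_or_pos n with rfl | h
    · simp at h2
    · exact h
  have hc := D.c_lt n hn
  by_cases hc0 : D.c n = 0
  · rw [hV n r true h1 (by omega) (by omega), hV n (r + 1) false (by omega) h2 (by omega)]
    rw [vl_zero D V _ _ _ hc0, vl_zero D V _ _ _ hc0]
  · have hTpos : 0 < TT D n := by unfold TT; positivity
    have hepos : 0 < ee D n := by unfold ee; positivity
    have hTe : 2 * ee D n ≤ TT D n := two_mul_cut hc (D.c_ok n hc0).1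
    have i1 : lev n r < D.c n ↔ TT D n ∣ r := lev_lt_iff h1 hc hc0
    have i2 : lev n (r + 1) < D.c n ↔ TT D n ∣ r + 1 := lev_lt_iff (by omega) hc hc0
    rcases succ_mod_cases (r := r) hTpos with ⟨h3, h4⟩ | ⟨h3, h4, h5⟩
    · -- `T` divides `r + 1`
      have h6 : ¬ TT D n ∣ r := by
        intro h7
        have := Nat.mod_eq_zero_of_dvd h7
        omega
      rw [hV n r true h1 (by omega) (by
        by_contra hcon
        exact h6 (i1.1 (by omega)))]
      have hmr : r % TT D n ≤ r := Nat.mod_le _ _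
      have h8 : r - r % TT D n + TT D n = r + 1 := by omega
      rw [vl_right D V n r true hc0 (by
        rintro (h7 | h7)
        · omega
        · exact absurd h7.2 (by simp)), h8, if_neg (by omega)]
    · rw [hV n (r + 1) false (by omega) h2 (by
        by_contra hcon
        exact h3 (i2.1 (by omega)))]
      by_cases h6 : TT D n ∣ r
      · have h7 := Nat.mod_eq_zero_of_dvd h6
        have h8 : r + 1 - (r + 1) % TT D n = r := by omega
        rw [vl_left D V n (r + 1) false hc0 (by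
          rw [h4, h7]
          rcases Nat.lt_or_ge (0 + 1) (ee D n) with h8 | h8
          · exact Or.inl h8
          · exact Or.inr ⟨by omega, rfl⟩), h8, if_neg (by omega)]
      · rw [hV n r true h1 (by omega) (by
          by_contra hcon
          exact h6 (i1.1 (by omega)))]
        have hmr : r % TT D n ≤ r := Nat.mod_le _ _
        have h8 : r + 1 - (r + 1) % TT D n = r - r % TT D n := by omega
        by_cases h9 : r % TT D n < ee D n
        · rw [vl_left D V n r true hc0 (Or.inl h9), vl_left D V n (r + 1) false hc0 (by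
            rw [h4]
            rcases Nat.lt_or_ge (r % TT D n + 1) (ee D n) with h10 | h10
            · exact Or.inl h10
            · exact Or.inr ⟨by omega, rfl⟩), h8]
        · rw [vl_right D V n r true hc0 (by
            rintro (h10 | h10)
            · exact h9 h10
            · exact absurd h10.2 (by simp)), vl_right D V n (r + 1) false hc0 (by
            rw [h4]
            rintro (h10 | h10)
            · omega
            · omega), h8]

/-- prescribed points of level `j` -/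
def FF (j : ℕ) : Set (ℕ → Bool) :=
  {q | (∃ n r s, q = qq n r s ∧ D.c n ≤ j ∧ 1 ≤ r ∧ r < 2 ^ (n * n) ∧ lev n r = j) ∨
    ∃ b, q = D.z j b}

theorem FF_pt {j : ℕ} {q : ℕ → Bool} (hq : q ∈ FF D j) : Pt j q := by
  rcases hq with ⟨n, r, s, rfl, -, -, -, h1⟩ | ⟨b, rfl⟩
  · rw [← h1]
    exact qq_pt n r s
  · exact D.z_pt j b

theorem FF_finite (j : ℕ) : (FF D j).Finite := by
  obtain ⟨B, hB⟩ := D.c_top j
  have h1 : ((fun c : ℕ × ℕ × Bool => qq c.1 c.2.1 c.2.2) ''
      ((Iio B) ×ˢ ((Iio (2 ^ (B * B))) ×ˢ (univ : Set Bool)))).Finite :=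
    ((Set.finite_Iio B).prod ((Set.finite_Iio _).prod (Set.toFinite _))).image _
  have h2 : (range (D.z j)).Finite := Set.finite_range _
  refine (h1.union h2).subset ?_
  rintro q (⟨n, r, s, rfl, h3, h4, h5, h6⟩ | ⟨b, rfl⟩)
  · left
    refine ⟨(n, r, s), ⟨?_, ?_, mem_univ _⟩, rfl⟩
    · show n < B
      by_contra hcon
      push Not at hcon
      have := hB n hcon
      omega
    · show r < 2 ^ (B * B)
      have h7 : n < B := by
        by_contra hcon
        push Not at hcon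
        have := hB n hcon
        omega
      exact lt_of_lt_of_le h5 (Nat.pow_le_pow_right (by norm_num) (Nat.mul_le_mul h7.le h7.le))
  · right
    exact ⟨b, rfl⟩

theorem qq_mem_FF {j n r : ℕ} {s : Bool} (h1 : 1 ≤ r) (h2 : r < 2 ^ (n * n))
    (h3 : lev n r = j) : qq n r s ∈ FF D j ↔ D.c n ≤ j := by
  constructor
  · rintro (⟨n', r', s', h4, h5, -, -, -⟩ | ⟨b, h4⟩)
    · obtain ⟨rfl, -, -⟩ := qq_inj h4
      exact h5
    · exact absurd h4.symm (D.z_ne j b n r s)
  · intro h4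
    exact Or.inl ⟨n, r, s, rfl, h4, h1, h2, h3⟩

open Classical in
/-- prescribed values at level `j` -/
noncomputable def ff (U : (ℕ → Bool) → Bool) (j : ℕ) (q : ℕ → Bool) : Bool :=
  if h : ∃ c : ℕ × ℕ × Bool, q = qq c.1 c.2.1 c.2.2 then
    vl D (fun n r s => U (qq n r s)) h.choose.1 h.choose.2.1 h.choose.2.2
  else decide (q = D.z j true)

theorem ff_qq (U : (ℕ → Bool) → Bool) (j n r : ℕ) (s : Bool) :
    ff D U j (qq n r s) = vl D (fun n r s => U (qq n r s)) n r s := by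
  have h : ∃ c : ℕ × ℕ × Bool, qq n r s = qq c.1 c.2.1 c.2.2 := ⟨(n, r, s), rfl⟩
  unfold ff
  rw [dif_pos h]
  obtain ⟨h1, h2, h3⟩ := qq_inj h.choose_spec
  rw [← h1, ← h2, ← h3]

theorem ff_z (U : (ℕ → Bool) → Bool) (j : ℕ) (b : Bool) : ff D U j (D.z j b) = b := by
  have h : ¬ ∃ c : ℕ × ℕ × Bool, D.z j b = qq c.1 c.2.1 c.2.2 := by
    rintro ⟨c, hc⟩
    exact D.z_ne j b _ _ _ hc
  unfold ff
  rw [dif_neg h]
  cases b
  · simpa using (D.z_inj j).symm
  · simp

theorem step {j : ℕ} {U : (ℕ → Bool) → Bool} (hU : Dep j U) :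
    ∃ U' : (ℕ → Bool) → Bool, Dep (j + 1) U' ∧ (∀ q ∈ FF D j, U' q = ff D U j q) ∧
      (∀ n r, lev n r = j → qm n r ∉ FF D j → qp n r ∉ FF D j → U' (qm n r) = U' (qp n r)) ∧
      (∀ x, (∀ k, x k = true → blk k < j) → U' x = U x) := by
  obtain ⟨U', h1, h2, h3, h4, -⟩ := exists_mod (hU.mono (Nat.le_succ j)) (FF_finite D j)
    (fun q hq => FF_pt D hq) (ff D U j) (by
      intro n r hlev _ _
      obtain ⟨M, hM⟩ := hU
      refine hM _ _ (fun t _ hb => qm_eq_qp ?_)
      rintro rfl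
      rw [blk_key] at hb
      omega) 0
  exact ⟨U', h1, h2, h3, h4⟩

/-- the recursion -/
noncomputable def UU : (j : ℕ) → {U : (ℕ → Bool) → Bool // Dep j U}
  | 0 => ⟨fun _ => false, 0, fun _ _ _ => rfl⟩
  | j + 1 => ⟨Classical.choose (step D (UU j).2), (Classical.choose_spec (step D (UU j).2)).1⟩

theorem UU_succ (j : ℕ) : (∀ q ∈ FF D j, (UU D (j + 1)).1 q = ff D (UU D j).1 j q) ∧
      (∀ n r, lev n r = j → qm n r ∉ FF D j → qp n r ∉ FF D j →
        (UU D (j + 1)).1 (qm n r) = (UU D (j + 1)).1 (qp n r)) ∧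
      (∀ x, (∀ k, x k = true → blk k < j) → (UU D (j + 1)).1 x = (UU D j).1 x) :=
  (Classical.choose_spec (step D (UU D j).2)).2

theorem UU_coh {i j : ℕ} (hij : i ≤ j) {x : ℕ → Bool} (hx : ∀ k, x k = true → blk k < i) :
    (UU D j).1 x = (UU D i).1 x := by
  induction j, hij using Nat.le_induction with
  | base => rfl
  | succ j hj ih =>
    rw [(UU_succ D j).2.2 x (fun k hk => lt_of_lt_of_le (hx k hk) hj), ih]

/-- the final value on a line of a path -/
noncomputable def VV (n r : ℕ) (s : Bool) : Bool := (UU D (lev n r + 1)).1 (qq n r s)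

theorem UU_qq {n r j : ℕ} {s : Bool} (hj : lev n r < j) : (UU D j).1 (qq n r s) = VV D n r s :=
  UU_coh D hj (fun k hk => Nat.lt_succ_of_le (qq_blk hk))

theorem VV_eq (n r : ℕ) (s : Bool) (h1 : 1 ≤ r) (h2 : r < 2 ^ (n * n)) (h3 : D.c n ≤ lev n r) :
    VV D n r s = vl D (VV D) n r s := by
  have h4 : VV D n r s = vl D (fun n r s => (UU D (lev n r)).1 (qq n r s)) n r s ∨ True :=
    Or.inr trivial
  have h5 : VV D n r s = vl D (fun n' r' s' => (UU D (lev n r)).1 (qq n' r' s')) n r s := by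
    unfold VV
    rw [(UU_succ D (lev n r)).1 _ ((qq_mem_FF D h1 h2 rfl).2 h3), ff_qq]
  rw [h5]
  have hn : 1 ≤ n := by
    rcases Nat.eq_zero_or_pos n with rfl | h
    · simp at h2; omega
    · exact h
  have hc := D.c_lt n hn
  by_cases hc0 : D.c n = 0
  · rw [vl_zero D _ _ _ _ hc0, vl_zero D _ _ _ _ hc0]
  have hmr : r % TT D n ≤ r := Nat.mod_le _ _
  have hTpos : 0 < TT D n := by unfold TT; positivity
  have hd : TT D n ∣ r - r % TT D n := Nat.dvd_sub_mod r
  by_cases h6 : r % TT D n < ee D n ∨ (r % TT D n = ee D n ∧ s = false)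
  · rw [vl_left D _ _ _ _ hc0 h6, vl_left D _ _ _ _ hc0 h6]
    by_cases h7 : r - r % TT D n = 0
    · rw [if_pos h7, if_pos h7]
    · rw [if_neg h7, if_neg h7]
      apply UU_qq
      exact lt_of_lt_of_le ((lev_lt_iff (by omega) hc hc0).2 hd) h3
  · rw [vl_right D _ _ _ _ hc0 h6, vl_right D _ _ _ _ hc0 h6]
    by_cases h7 : r - r % TT D n + TT D n = 2 ^ (n * n)
    · rw [if_pos h7, if_pos h7]
    · rw [if_neg h7, if_neg h7]
      apply UU_qq
      exact lt_of_lt_of_le ((lev_lt_iff (by omega) hc hc0).2 (Dvd.dvd.add hd dvd_rfl)) h3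

theorem VV_high {n r : ℕ} (h1 : 1 ≤ r) (h2 : r + 1 < 2 ^ (n * n)) :
    VV D n r true = VV D n (r + 1) false :=
  vl_step D (VV_eq D) h1 h2

/-- the jump points -/
def Jump (j : ℕ) (q : ℕ → Bool) : Prop :=
  ∃ n r, q = qq n r true ∧ 1 ≤ r ∧ r < 2 ^ (n * n) ∧ lev n r = j ∧ D.c n = j ∧ j ≠ 0 ∧
    idx n r = D.ic j ∧ VV D n r false ≠ VV D n r true

theorem exists_lo (j : ℕ) :
    ∃ U' : (ℕ → Bool) → Bool, Dep (j + 1) U' ∧
      (∀ q ∈ FF D j, ¬ Jump D j q → U' q = (UU D (j + 1)).1 q) ∧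
      (∀ q ∈ FF D j, Jump D j q → U' q = !(UU D (j + 1)).1 q) ∧
      (∀ n r, lev n r = j → qm n r ∉ FF D j → qp n r ∉ FF D j → U' (qm n r) = U' (qp n r)) ∧
      (∀ x, (∀ k, x k = true → blk k < j) → U' x = (UU D (j + 1)).1 x) ∧
      (∀ x ∈ Al j, U' x ≠ (UU D (j + 1)).1 x → ∃ q ∈ FF D j, Jump D j q ∧
        ∀ t < D.lc j, x t = q t) := by
  classical
  obtain ⟨U', h1, h2, h3, h4, h5⟩ := exists_mod (UU D (j + 1)).2 (FF_finite D j)
    (fun q hq => FF_pt D hq)
    (fun q => if Jump D j q then !(UU D (j + 1)).1 q else (UU D (j + 1)).1 q)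
    (UU_succ D j).2.1 (D.lc j)
  refine ⟨U', h1, ?_, ?_, h3, h4, ?_⟩
  · intro q hq hJ
    rw [h2 q hq, if_neg hJ]
  · intro q hq hJ
    rw [h2 q hq, if_pos hJ]
  · intro x hx hne
    obtain ⟨q, hq, h6, h7⟩ := h5 x hx hne
    refine ⟨q, hq, ?_, h7⟩
    by_contra hcon
    rw [if_neg hcon] at h6
    exact h6 rfl

/-- the colourings -/
theorem exists_cols : ∃ Up Lo : ℕ → (ℕ → Bool) → Bool,
    (∀ j, ∃ M, ∀ x y : ℕ → Bool, (∀ t < M, x t = y t) → Up j x = Up j y ∧ Lo j x = Lo j y) ∧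
    (∀ j, ∀ x ∈ Al j, Up (j + 1) x = Up j x ∧ Lo (j + 1) x = Up j x) ∧
    (∀ j, ∀ x ∈ Al j, Lo j x ≠ Up j x → j ≠ 0 ∧ (∃ n, D.c n = j) ∧
      ∀ t < D.lc j, x t = base j (D.ic j) t) ∧
    (∀ n r, 1 ≤ r → r < 2 ^ (n * n) → ht (lev n r) (2 * Nat.pair n r) ≤ D.mid (lev n r) →
      Up (lev n r) (qm n r) = Up (lev n r) (qp n r)) ∧
    (∀ n r, 1 ≤ r → r < 2 ^ (n * n) →
      Lo (lev n r) (qm n r) = Lo (lev n r) (qp n r)) ∧
    (∀ n r, 1 ≤ r → r + 1 < 2 ^ (n * n) →
      Up (lev n r) (qp n r) = Up (lev n (r + 1)) (qm n (r + 1))) ∧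
    (∀ j b, Up j (D.z j b) = b ∧ Lo j (D.z j b) = b) := by
  choose Lo l1 l2 l3 l4 l5 l6 using exists_lo D
  refine ⟨fun j => (UU D (j + 1)).1, Lo, ?_, ?_, ?_, ?_, ?_, ?_, ?_⟩
  · intro j
    obtain ⟨M, hM⟩ := (UU D (j + 1)).2
    obtain ⟨M', hM'⟩ := l1 j
    refine ⟨max M M', fun x y hxy => ⟨hM x y fun t ht _ => hxy t (by omega),
      hM' x y fun t ht _ => hxy t (by omega)⟩⟩
  · intro j x hx
    have h1 : ∀ k, x k = true → blk k < j + 1 := fun k hk => Nat.lt_succ_of_le (hx k hk)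
    have h2 := (UU_succ D (j + 1)).2.2 x h1
    refine ⟨h2, ?_⟩
    rw [l5 (j + 1) x h1]
    exact h2
  · intro j x hx hne
    obtain ⟨q, hq, ⟨n, r, rfl, h1, h2, h3, h4, h5, h6, h7⟩, h8⟩ := l6 j x hx hne
    refine ⟨h5, ⟨n, h4⟩, ?_⟩
    intro t ht
    have h9 := (D.c_ok n (by omega)).2.1
    rw [h4] at h9
    rw [h8 t ht, qq_near (by omega), h3, h6]
  · intro n r h1 h2 h3
    by_cases h4 : D.c n ≤ lev n r
    · by_contra hne
      have h5 : VV D n r false ≠ VV D n r true := hne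
      rw [VV_eq D n r false h1 h2 h4, VV_eq D n r true h1 h2 h4] at h5
      obtain ⟨h6, h7⟩ := vl_pair D h5
      have hn : 1 ≤ n := by
        rcases Nat.eq_zero_or_pos n with rfl | h
        · simp at h2; omega
        · exact h
      obtain ⟨h8, h9⟩ := lev_idx_mod (D.c_lt n hn) (D.c_ok n h6).1 h7
      rw [h8] at h3
      have := (D.c_ok n h6).2.2 (Nat.pair n r) (n_le_pair n r)
      linarith
    · refine (UU_succ D (lev n r)).2.1 n r rfl ?_ ?_
      · intro h5
        exact h4 ((qq_mem_FF D (s := false) h1 h2 rfl).1 h5)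
      · intro h5
        exact h4 ((qq_mem_FF D (s := true) h1 h2 rfl).1 h5)
  · intro n r h1 h2
    by_cases h4 : D.c n ≤ lev n r
    · have hm : qm n r ∈ FF D (lev n r) := (qq_mem_FF D (s := false) h1 h2 rfl).2 h4
      have hp : qp n r ∈ FF D (lev n r) := (qq_mem_FF D (s := true) h1 h2 rfl).2 h4
      have hjm : ¬ Jump D (lev n r) (qm n r) := by
        rintro ⟨n', r', h5, -⟩
        have := (qq_inj (s := false) (s' := true) h5).2.2
        exact absurd this (by simp)
      rw [l2 _ _ hm hjm]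
      by_cases hV : VV D n r false = VV D n r true
      · have hjp : ¬ Jump D (lev n r) (qp n r) := by
          rintro ⟨n', r', h5, -, -, -, -, -, -, h6⟩
          obtain ⟨rfl, rfl, -⟩ := qq_inj (s := true) (s' := true) h5
          exact h6 hV
        rw [l2 _ _ hp hjp]
        exact hV
      · have h5 := hV
        rw [VV_eq D n r false h1 h2 h4, VV_eq D n r true h1 h2 h4] at h5
        obtain ⟨h6, h7⟩ := vl_pair D h5
        have hn : 1 ≤ n := by
          rcases Nat.eq_zero_or_pos n with rfl | h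
          · simp at h2; omega
          · exact h
        obtain ⟨h8, h9⟩ := lev_idx_mod (D.c_lt n hn) (D.c_ok n h6).1 h7
        have hjp : Jump D (lev n r) (qp n r) :=
          ⟨n, r, rfl, h1, h2, rfl, h8.symm, by rw [h8]; exact h6, by rw [h8]; exact h9, hV⟩
        rw [l3 _ _ hp hjp]
        have h10 : (UU D (lev n r + 1)).1 (qm n r) ≠ (UU D (lev n r + 1)).1 (qp n r) := hV
        revert h10
        cases (UU D (lev n r + 1)).1 (qm n r) <;> cases (UU D (lev n r + 1)).1 (qp n r) <;> simp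
    · refine l4 _ n r rfl ?_ ?_
      · intro h5
        exact h4 ((qq_mem_FF D (s := false) h1 h2 rfl).1 h5)
      · intro h5
        exact h4 ((qq_mem_FF D (s := true) h1 h2 rfl).1 h5)
  · intro n r h1 h2
    exact VV_high D h1 h2
  · intro j b
    have hz : D.z j b ∈ FF D j := Or.inr ⟨b, rfl⟩
    have hJ : ¬ Jump D j (D.z j b) := by
      rintro ⟨n', r', h5, -⟩
      exact D.z_ne j b _ _ _ h5
    have h1 : (UU D (j + 1)).1 (D.z j b) = b := by
      rw [(UU_succ D j).1 _ hz, ff_z]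
    refine ⟨h1, ?_⟩
    rw [l2 j _ hz hJ]
    exact h1

end Pool.Agent.Helper452.Cont
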