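import Mathlib

open Set Filter Topology

set_option linter.unusedSectionVars false

namespace Pool.Agent.Helper452.Cont

universe u

/-- the remainder of the Stone-Cech compactification of `Y` -/
def Rem (Y : Type u) [TopologicalSpace Y] : Set (StoneCech Y) :=
  (Set.range (stoneCechUnit : Y → StoneCech Y))ᶜ

/-- the set `S` is a continuum (compact and connected) that is not the union of two proper
subcontinua -/
def IsIndecomposableContinuum {Z : Type u} [TopologicalSpace Z] (S : Set Z) : Prop :=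
  IsCompact S ∧ IsConnected S ∧
    ∀ A B : Set Z, IsCompact A → IsConnected A → IsCompact B → IsConnected B →
      A ∪ B = S → A = S ∨ B = S

variable {X : Type u} [TopologicalSpace X] [TopologicalSpace.MetrizableSpace X] [CompactSpace X]
  {p : X}

/-- `G` accumulates at the removed point -/
def Acc {p : X} (G : Set {x : X // x ≠ p}) : Prop := p ∈ closure (Subtype.val '' G)

theorem acc_iff {G : Set {x : X // x ≠ p}} :
    Acc G ↔ ∀ N ∈ 𝓝 p, ∃ y ∈ G, (y : X) ∈ N := by
  unfold Acc
  rw [mem_closure_iff_nhds]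
  constructor
  · intro h N hN
    obtain ⟨x, hx, y, hy, rfl⟩ := h N hN
    exact ⟨y, hy, hx⟩
  · intro h N hN
    obtain ⟨y, hy, hx⟩ := h N hN
    exact ⟨y, hx, y, hy, rfl⟩

theorem Acc.mono {G H : Set {x : X // x ≠ p}} (h : Acc G) (hGH : G ⊆ H) : Acc H :=
  closure_mono (image_mono hGH) h

theorem acc_inter {G : Set {x : X // x ≠ p}} (h : Acc G) {N : Set X} (hN : N ∈ 𝓝 p) :
    Acc (G ∩ Subtype.val ⁻¹' N) := by
  rw [acc_iff] at *
  intro M hM
  obtain ⟨y, hy, hy'⟩ := h (M ∩ N) (inter_mem hM hN)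
  exact ⟨y, ⟨hy, hy'.2⟩, hy'.1⟩

theorem acc_union {G H : Set {x : X // x ≠ p}} (h : Acc (G ∪ H)) : Acc G ∨ Acc H := by
  unfold Acc at *
  rw [image_union, closure_union] at h
  exact h

theorem isCompact_outside {N : Set X} (hN : N ∈ 𝓝 p) (hc : IsOpen N) :
    IsCompact {y : {x : X // x ≠ p} | (y : X) ∉ N} := by
  have h1 : IsCompact (Nᶜ) := hc.isClosed_compl.isCompact
  refine IsInducing.subtypeVal.isCompact_preimage' h1 ?_
  intro x hx
  refine ⟨⟨x, ?_⟩, rfl⟩
  rintro rfl
  exact hx (mem_of_mem_nhds hN)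

theorem closure_image_compact {K : Set {x : X // x ≠ p}} (hK : IsCompact K) :
    closure (stoneCechUnit '' K) ⊆ range (stoneCechUnit : {x : X // x ≠ p} → _) := by
  rw [(hK.image continuous_stoneCechUnit).isClosed.closure_eq]
  exact image_subset_range _ _

/-- every closure point in the remainder is a closure point near `p` -/
theorem mem_closure_near {r : StoneCech {x : X // x ≠ p}} (hr : r ∈ Rem {x : X // x ≠ p})
    {G : Set {x : X // x ≠ p}} (h : r ∈ closure (stoneCechUnit '' G)) {N : Set X}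
    (hN : N ∈ 𝓝 p) : r ∈ closure (stoneCechUnit '' (G ∩ Subtype.val ⁻¹' N)) := by
  obtain ⟨U, hUN, hU, hpU⟩ := mem_nhds_iff.1 hN
  have h1 : G ⊆ (G ∩ Subtype.val ⁻¹' N) ∪ {y : {x : X // x ≠ p} | (y : X) ∉ U} := by
    intro y hy
    by_cases hyU : (y : X) ∈ U
    · exact Or.inl ⟨hy, hUN hyU⟩
    · exact Or.inr hyU
  have h2 := closure_mono (image_mono h1) h
  rw [image_union, closure_union] at h2
  rcases h2 with h2 | h2
  · exact h2
  · exfalso
    exact hr (closure_image_compact (isCompact_outside (hU.mem_nhds hpU) hU) h2)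

theorem acc_of_mem {r : StoneCech {x : X // x ≠ p}} (hr : r ∈ Rem {x : X // x ≠ p})
    {G : Set {x : X // x ≠ p}} (h : r ∈ closure (stoneCechUnit '' G)) : Acc G := by
  rw [acc_iff]
  intro N hN
  have h1 := mem_closure_near hr h hN
  have h2 : (stoneCechUnit '' (G ∩ Subtype.val ⁻¹' N) :
      Set (StoneCech {x : X // x ≠ p})).Nonempty := by
    rw [← closure_nonempty_iff]
    exact ⟨r, h1⟩
  obtain ⟨_, y, ⟨hy, hyN⟩, rfl⟩ := h2
  exact ⟨y, hy, hyN⟩

theorem exists_mem_of_acc {G : Set {x : X // x ≠ p}} (h : Acc G) :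
    ∃ r ∈ Rem {x : X // x ≠ p}, r ∈ closure (stoneCechUnit '' G) := by
  by_contra hcon
  push Not at hcon
  have h1 : closure (stoneCechUnit '' G) ⊆ range (stoneCechUnit : {x : X // x ≠ p} → _) := by
    intro z hz
    by_contra hz'
    exact hcon z hz' hz
  have h2 : IsCompact ((stoneCechUnit : {x : X // x ≠ p} → _) ⁻¹' (closure (stoneCechUnit '' G))) :=
    isEmbedding_stoneCechUnit.isInducing.isCompact_preimage' isClosed_closure.isCompact h1
  have h3 : IsClosed (Subtype.val '' ((stoneCechUnit : {x : X // x ≠ p} → _) ⁻¹'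
      (closure (stoneCechUnit '' G)))) := (h2.image continuous_subtype_val).isClosed
  have h4 : Subtype.val '' G ⊆ (Subtype.val '' ((stoneCechUnit : {x : X // x ≠ p} → _) ⁻¹'
      (closure (stoneCechUnit '' G)))) := by
    apply image_mono
    intro y hy
    exact subset_closure ⟨y, hy, rfl⟩
  have h5 := closure_minimal h4 h3 h
  obtain ⟨y, _, hy⟩ := h5
  exact y.2 hy

/-- disjoint closed sets have disjoint closures in the Stone-Cech compactification -/
theorem disjoint_closures {P Q : Set {x : X // x ≠ p}} (hP : IsClosed P) (hQ : IsClosed Q)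
    (hPQ : Disjoint P Q) :
    Disjoint (closure (stoneCechUnit '' P)) (closure (stoneCechUnit '' Q)) := by
  obtain ⟨f, hf0, hf1, hf⟩ := exists_continuous_zero_one_of_isClosed hP hQ hPQ
  let g : {x : X // x ≠ p} → unitInterval := fun y => ⟨f y, hf y⟩
  have hg : Continuous g := f.continuous.subtype_mk _
  let F : StoneCech {x : X // x ≠ p} → unitInterval := stoneCechExtend hg
  have hF : Continuous F := continuous_stoneCechExtend hg
  have hFg : ∀ y, F (stoneCechUnit y) = g y := stoneCechExtend_stoneCechUnit hg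
  have h0 : closure (stoneCechUnit '' P) ⊆ F ⁻¹' {0} := by
    refine closure_minimal ?_ (isClosed_singleton.preimage hF)
    rintro _ ⟨y, hy, rfl⟩
    simp only [mem_preimage, mem_singleton_iff, hFg]
    exact Subtype.ext (hf0 hy)
  have h1 : closure (stoneCechUnit '' Q) ⊆ F ⁻¹' {1} := by
    refine closure_minimal ?_ (isClosed_singleton.preimage hF)
    rintro _ ⟨y, hy, rfl⟩
    simp only [mem_preimage, mem_singleton_iff, hFg]
    exact Subtype.ext (hf1 hy)
  rw [Set.disjoint_left]
  intro z hz hz'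
  have e0 := h0 hz
  have e1 := h1 hz'
  simp only [mem_preimage, mem_singleton_iff] at e0 e1
  rw [e0] at e1
  exact zero_ne_one e1

/-- the remainder is closed -/
theorem isClosed_rem : IsClosed (Rem {x : X // x ≠ p}) := by
  unfold Rem
  rw [isClosed_compl_iff, isOpen_iff_mem_nhds]
  rintro _ ⟨y, rfl⟩
  -- a closed neighbourhood of `p` missing `y`
  obtain ⟨U, V, hU, hV, hyU, hpV, hUV⟩ := t2_separation y.2
  have hK : IsCompact {z : {x : X // x ≠ p} | (z : X) ∉ V} :=
    isCompact_outside (hV.mem_nhds hpV) hV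
  have hcl : IsClosed {z : {x : X // x ≠ p} | (z : X) ∉ U} :=
    (hU.isClosed_compl).preimage continuous_subtype_val
  have hd : Disjoint {y} {z : {x : X // x ≠ p} | (z : X) ∉ U} := by
    rw [Set.disjoint_singleton_left]
    exact fun h => h hyU
  have h1 := disjoint_closures isClosed_singleton hcl hd
  have h2 : (closure (stoneCechUnit '' {z : {x : X // x ≠ p} | (z : X) ∉ U}))ᶜ ∈
      𝓝 (stoneCechUnit y) := by
    refine isClosed_closure.isOpen_compl.mem_nhds ?_
    intro h
    exact Set.disjoint_left.1 h1 (subset_closure ⟨y, rfl, rfl⟩) h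
  refine Filter.mem_of_superset h2 ?_
  intro z hz
  have h3 : z ∈ closure (stoneCechUnit '' (univ : Set {x : X // x ≠ p})) := by
    rw [image_univ]
    exact denseRange_stoneCechUnit z
  have h4 : (univ : Set {x : X // x ≠ p}) ⊆ {z : {x : X // x ≠ p} | (z : X) ∉ U} ∪
      {z : {x : X // x ≠ p} | (z : X) ∉ V} := by
    intro w _
    by_cases hw : (w : X) ∈ U
    · right
      exact fun h => Set.disjoint_left.1 hUV hw h
    · exact Or.inl hw
  have h5 := closure_mono (image_mono h4) h3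
  rw [image_union, closure_union] at h5
  rcases h5 with h5 | h5
  · exact absurd h5 hz
  · exact closure_image_compact hK h5

/-- the part of the closure of a closed set that lies in the remainder is preconnected
unless the set splits near `p` -/
theorem preconnected_star {F : Set {x : X // x ≠ p}} (hF : IsClosed F)
    (h : ∀ (P Q : Set {x : X // x ≠ p}) (N : Set X), IsClosed P → IsClosed Q → Disjoint P Q →
      P ⊆ F → Q ⊆ F → N ∈ 𝓝 p → F ∩ Subtype.val ⁻¹' N ⊆ P ∪ Q → Acc P → Acc Q → False) :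
    IsPreconnected (Rem {x : X // x ≠ p} ∩ closure (stoneCechUnit '' F)) := by
  have hS : IsClosed (Rem {x : X // x ≠ p} ∩ closure (stoneCechUnit '' F)) :=
    isClosed_rem.inter isClosed_closure
  rw [isPreconnected_closed_iff]
  intro t t' ht ht' hsub hne hne'
  by_contra hemp
  rw [not_nonempty_iff_eq_empty] at hemp
  set S := (Rem {x : X // x ≠ p} ∩ closure (stoneCechUnit '' F)) with hSdef
  have hd : Disjoint (S ∩ t) (S ∩ t') := by
    rw [Set.disjoint_left]
    intro z hz hz'
    have : z ∈ S ∩ (t ∩ t') := ⟨hz.1, hz.2, hz'.2⟩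
    rw [hemp] at this
    exact this
  obtain ⟨f, hf0, hf1, hf⟩ := exists_continuous_zero_one_of_isClosed (hS.inter ht)
    (hS.inter ht') hd
  let g : {x : X // x ≠ p} → ℝ := fun y => f (stoneCechUnit y)
  have hg : Continuous g := f.continuous.comp continuous_stoneCechUnit
  have hM : ¬ Acc {y : {x : X // x ≠ p} | y ∈ F ∧ 1/3 ≤ g y ∧ g y ≤ 2/3} := by
    intro hacc
    obtain ⟨r, hr, hr'⟩ := exists_mem_of_acc hacc
    have hrS : r ∈ S := ⟨hr, closure_mono (image_mono (fun y hy => hy.1)) hr'⟩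
    have hfr : f r ∈ Icc (1/3 : ℝ) (2/3) := by
      have : closure (stoneCechUnit '' {y : {x : X // x ≠ p} | y ∈ F ∧ 1/3 ≤ g y ∧ g y ≤ 2/3}) ⊆
          f ⁻¹' (Icc (1/3 : ℝ) (2/3)) := by
        refine closure_minimal ?_ (isClosed_Icc.preimage f.continuous)
        rintro _ ⟨y, hy, rfl⟩
        exact hy.2
      exact this hr'
    rcases hsub hrS with h1 | h1
    · have := hf0 ⟨hrS, h1⟩
      simp only [Pi.zero_apply] at this
      rw [this] at hfr
      norm_num at hfr
    · have := hf1 ⟨hrS, h1⟩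
      simp only [Pi.one_apply] at this
      rw [this] at hfr
      norm_num at hfr
  have hM' : ∃ N ∈ 𝓝 p, ∀ y ∈ F, (y : X) ∈ N → ¬ (1/3 ≤ g y ∧ g y ≤ 2/3) := by
    rw [acc_iff] at hM
    push Not at hM
    obtain ⟨N, hN, h1⟩ := hM
    refine ⟨N, hN, fun y hy hyN h2 => h1 y ⟨hy, h2⟩ hyN⟩
  obtain ⟨N, hN, hN'⟩ := hM'
  refine h {y | y ∈ F ∧ g y ≤ 1/3} {y | y ∈ F ∧ 2/3 ≤ g y} N
    (hF.inter (isClosed_le hg continuous_const)) (hF.inter (isClosed_le continuous_const hg))
    ?_ (fun y hy => hy.1) (fun y hy => hy.1) hN ?_ ?_ ?_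
  · rw [Set.disjoint_left]
    intro y hy hy'
    have := hy.2
    have := hy'.2
    linarith
  · intro y hy
    have := hN' y hy.1 hy.2
    rcases le_or_gt (g y) (1/3) with h1 | h1
    · exact Or.inl ⟨hy.1, h1⟩
    · right
      refine ⟨hy.1, ?_⟩
      by_contra h2
      push Not at h2
      exact this ⟨h1.le, h2.le⟩
  · obtain ⟨r, hr, hrt⟩ := hne
    refine acc_of_mem hr.1 ?_
    rw [mem_closure_iff]
    intro o ho hro
    have hfr : f r = 0 := hf0 ⟨hr, hrt⟩
    have ho' : IsOpen (o ∩ f ⁻¹' (Iio (1/3 : ℝ))) := ho.inter (isOpen_Iio.preimage f.continuous)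
    have hro' : r ∈ o ∩ f ⁻¹' (Iio (1/3 : ℝ)) := ⟨hro, by simp [hfr]⟩
    obtain ⟨z, hz, y, hy, rfl⟩ := mem_closure_iff.1 hr.2 _ ho' hro'
    exact ⟨stoneCechUnit y, hz.1, y, ⟨hy, (hz.2 : g y < 1/3).le⟩, rfl⟩
  · obtain ⟨r, hr, hrt⟩ := hne'
    refine acc_of_mem hr.1 ?_
    rw [mem_closure_iff]
    intro o ho hro
    have hfr : f r = 1 := hf1 ⟨hr, hrt⟩
    have ho' : IsOpen (o ∩ f ⁻¹' (Ioi (2/3 : ℝ))) := ho.inter (isOpen_Ioi.preimage f.continuous)
    have hro' : r ∈ o ∩ f ⁻¹' (Ioi (2/3 : ℝ)) := ⟨hro, by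
      simp only [mem_preimage, mem_Ioi, hfr]; norm_num⟩
    obtain ⟨z, hz, y, hy, rfl⟩ := mem_closure_iff.1 hr.2 _ ho' hro'
    exact ⟨stoneCechUnit y, hz.1, y, ⟨hy, (hz.2 : 2/3 < g y).le⟩, rfl⟩

/-- if the punctured space splits near `p` then the remainder is disconnected -/
theorem not_preconnected_of_split {P Q : Set {x : X // x ≠ p}} {N : Set X} (hP : IsClosed P)
    (hQ : IsClosed Q) (hPQ : Disjoint P Q) (hN : N ∈ 𝓝 p)
    (hsub : Subtype.val ⁻¹' N ⊆ P ∪ Q) (haP : Acc P) (haQ : Acc Q) :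
    ¬ IsPreconnected (Rem {x : X // x ≠ p}) := by
  intro hcon
  rw [isPreconnected_closed_iff] at hcon
  obtain ⟨r, hr, hr'⟩ := exists_mem_of_acc haP
  obtain ⟨s, hs, hs'⟩ := exists_mem_of_acc haQ
  have hcov : Rem {x : X // x ≠ p} ⊆ closure (stoneCechUnit '' P) ∪
      closure (stoneCechUnit '' Q) := by
    intro z hz
    have h3 : z ∈ closure (stoneCechUnit '' (univ : Set {x : X // x ≠ p})) := by
      rw [image_univ]
      exact denseRange_stoneCechUnit z
    have h4 := mem_closure_near hz h3 hN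
    rw [univ_inter] at h4
    have h5 := closure_mono (image_mono hsub) h4
    rwa [image_union, closure_union] at h5
  obtain ⟨z, _, hz⟩ := hcon (closure (stoneCechUnit '' P)) (closure (stoneCechUnit '' Q))
    isClosed_closure isClosed_closure hcov ⟨r, hr, hr'⟩ ⟨s, hs, hs'⟩
  exact Set.disjoint_left.1 (disjoint_closures hP hQ hPQ) hz.1 hz.2

/-- a criterion for indecomposability of the remainder -/
theorem indecomposable_of_splits
    (h : ∀ O W : Set {x : X // x ≠ p}, IsOpen O → IsOpen W → Acc O → Acc W →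
      ∃ (P Q : Set {x : X // x ≠ p}) (N : Set X), IsClosed P ∧ IsClosed Q ∧ Disjoint P Q ∧
        N ∈ 𝓝 p ∧ Subtype.val ⁻¹' N ⊆ P ∪ Q ∪ O ∧ Acc (P ∩ W) ∧ Acc (Q ∩ W))
    (A B : Set (StoneCech {x : X // x ≠ p})) (hA : IsCompact A) (hAc : IsConnected A)
    (hB : IsCompact B) (hAB : A ∪ B = Rem {x : X // x ≠ p}) :
    A = Rem {x : X // x ≠ p} ∨ B = Rem {x : X // x ≠ p} := by
  by_contra hcon
  push Not at hcon
  obtain ⟨hA', hB'⟩ := hcon
  have hAsub : A ⊆ Rem {x : X // x ≠ p} := hAB ▸ subset_union_left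
  have hBsub : B ⊆ Rem {x : X // x ≠ p} := hAB ▸ subset_union_right
  obtain ⟨r, hr, hrA⟩ := exists_of_ssubset (hAsub.ssubset_of_ne hA')
  obtain ⟨s, hs, hsB⟩ := exists_of_ssubset (hBsub.ssubset_of_ne hB')
  have hsA : s ∈ A := by
    have : s ∈ A ∪ B := hAB ▸ hs
    exact this.resolve_right hsB
  -- separate
  obtain ⟨f, hf0, hf1, -⟩ := exists_continuous_zero_one_of_isClosed hA.isClosed
    (isClosed_singleton (x := r)) (Set.disjoint_singleton_right.2 hrA)
  obtain ⟨g, hg0, hg1, -⟩ := exists_continuous_zero_one_of_isClosed hB.isClosed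
    (isClosed_singleton (x := s)) (Set.disjoint_singleton_right.2 hsB)
  have hcf : Continuous (fun y : {x : X // x ≠ p} => f (stoneCechUnit y)) :=
    f.continuous.comp continuous_stoneCechUnit
  have hcg : Continuous (fun y : {x : X // x ≠ p} => g (stoneCechUnit y)) :=
    g.continuous.comp continuous_stoneCechUnit
  have hfr : f r = 1 := hf1 rfl
  have hgs : g s = 1 := hg1 rfl
  have dense : ∀ t ∈ Rem {x : X // x ≠ p}, ∀ o : Set (StoneCech {x : X // x ≠ p}), IsOpen o →
      t ∈ o → Acc {y : {x : X // x ≠ p} | stoneCechUnit y ∈ o} := by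
    intro t ht o ho hto
    refine acc_of_mem ht ?_
    rw [mem_closure_iff]
    intro o' ho' hto'
    have h3 : t ∈ closure (range (stoneCechUnit : {x : X // x ≠ p} → _)) :=
      denseRange_stoneCechUnit t
    obtain ⟨_, hz, y, rfl⟩ := mem_closure_iff.1 h3 _ (ho.inter ho') ⟨hto, hto'⟩
    exact ⟨stoneCechUnit y, hz.2, y, hz.1, rfl⟩
  obtain ⟨P, Q, N, hP, hQ, hPQ, hN, hcov, hPW, hQW⟩ := h
    {y | f (stoneCechUnit y) ∈ Ioi (1/2 : ℝ)} {y | g (stoneCechUnit y) ∈ Ioi (1/2 : ℝ)}
    (isOpen_Ioi.preimage hcf) (isOpen_Ioi.preimage hcg)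
    (dense r hr (f ⁻¹' Ioi (1/2 : ℝ)) (isOpen_Ioi.preimage f.continuous)
      (by simp only [mem_preimage, mem_Ioi, hfr]; norm_num))
    (dense s hs (g ⁻¹' Ioi (1/2 : ℝ)) (isOpen_Ioi.preimage g.continuous)
      (by simp only [mem_preimage, mem_Ioi, hgs]; norm_num))
  have hAcov : A ⊆ closure (stoneCechUnit '' P) ∪ closure (stoneCechUnit '' Q) := by
    intro z hz
    have hzR := hAsub hz
    have h3 : z ∈ closure (stoneCechUnit '' (univ : Set {x : X // x ≠ p})) := by
      rw [image_univ]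
      exact denseRange_stoneCechUnit z
    have h4 := mem_closure_near hzR h3 hN
    rw [univ_inter] at h4
    have h5 := closure_mono (image_mono hcov) h4
    rw [image_union, closure_union, image_union, closure_union] at h5
    rcases h5 with h5 | h5
    · exact h5
    · exfalso
      have h6 : closure (stoneCechUnit '' {y : {x : X // x ≠ p} |
          f (stoneCechUnit y) ∈ Ioi (1/2 : ℝ)}) ⊆ f ⁻¹' (Ici (1/2 : ℝ)) := by
        refine closure_minimal ?_ (isClosed_Ici.preimage f.continuous)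
        rintro _ ⟨y, hy, rfl⟩
        exact le_of_lt (show (1/2 : ℝ) < f (stoneCechUnit y) from hy)
      have h7 := h6 h5
      have h8 : f z = 0 := hf0 hz
      simp only [mem_preimage, mem_Ici, h8] at h7
      norm_num at h7
  have hWA : ∀ G : Set {x : X // x ≠ p},
      Acc (G ∩ {y | g (stoneCechUnit y) ∈ Ioi (1/2 : ℝ)}) →
      (A ∩ closure (stoneCechUnit '' G)).Nonempty := by
    intro G hG
    obtain ⟨t, ht, ht'⟩ := exists_mem_of_acc hG
    have h6 : closure (stoneCechUnit '' (G ∩ {y : {x : X // x ≠ p} |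
          g (stoneCechUnit y) ∈ Ioi (1/2 : ℝ)})) ⊆ g ⁻¹' (Ici (1/2 : ℝ)) := by
      refine closure_minimal ?_ (isClosed_Ici.preimage g.continuous)
      rintro _ ⟨y, hy, rfl⟩
      exact le_of_lt (show (1/2 : ℝ) < g (stoneCechUnit y) from hy.2)
    have h7 := h6 ht'
    have htB : t ∉ B := by
      intro htB
      have h8 : g t = 0 := hg0 htB
      simp only [mem_preimage, mem_Ici, h8] at h7
      norm_num at h7
    have htA : t ∈ A := by
      have : t ∈ A ∪ B := hAB ▸ ht
      exact this.resolve_right htB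
    exact ⟨t, htA, closure_mono (image_mono inter_subset_left) ht'⟩
  obtain ⟨z, _, hz⟩ := (isPreconnected_closed_iff.1 hAc.isPreconnected)
    (closure (stoneCechUnit '' P)) (closure (stoneCechUnit '' Q))
    isClosed_closure isClosed_closure hAcov (hWA P hPW) (hWA Q hQW)
  exact Set.disjoint_left.1 (disjoint_closures hP hQ hPQ) hz.1 hz.2

end Pool.Agent.Helper452.Cont
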