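import Pool.Agent.Helper452.ContRem

open Set Filter Topology Metric

set_option linter.unusedSectionVars false
set_option linter.unusedVariables false

namespace Pool.Agent.Helper452.Cont

/-- the block of a coordinate -/
def blk (k : ℕ) : ℕ := k.unpair.1

/-- the bundle of half open segments: the line of `x` lives at heights at most
`(1/2)^j` where `j` is the largest block met by `x` -/
def Lset : Set ((ℕ → Bool) × ℝ) :=
  {z | 0 ≤ z.2 ∧ z.2 ≤ 1 ∧ ∀ k, z.1 k = true → z.2 ≤ (1 / 2 : ℝ) ^ blk k}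

theorem isClosed_Lset : IsClosed Lset := by
  have h1 : Lset = {z : (ℕ → Bool) × ℝ | 0 ≤ z.2} ∩ ({z | z.2 ≤ 1} ∩
      ⋂ k, {z | z.1 k = false} ∪ {z | z.2 ≤ (1 / 2 : ℝ) ^ blk k}) := by
    ext z
    simp only [Lset, mem_ofPred_eq, mem_inter_iff, mem_iInter, mem_union]
    constructor
    · rintro ⟨h1, h2, h3⟩
      refine ⟨h1, h2, fun k => ?_⟩
      cases hk : z.1 k
      · exact Or.inl rfl
      · exact Or.inr (h3 k hk)
    · rintro ⟨h1, h2, h3⟩
      refine ⟨h1, h2, fun k hk => ?_⟩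
      rcases h3 k with h4 | h4
      · rw [hk] at h4
        exact absurd h4 (by simp)
      · exact h4
  rw [h1]
  refine (isClosed_le continuous_const continuous_snd).inter
    ((isClosed_le continuous_snd continuous_const).inter (isClosed_iInter fun k => ?_))
  refine IsClosed.union ?_ (isClosed_le continuous_snd continuous_const)
  exact isClosed_eq ((continuous_apply k).comp continuous_fst) continuous_const

theorem isCompact_Lset : IsCompact Lset := by
  have h1 : IsCompact ((univ : Set (ℕ → Bool)) ×ˢ (Icc (0 : ℝ) 1)) :=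
    isCompact_univ.prod isCompact_Icc
  refine h1.of_isClosed_subset isClosed_Lset ?_
  intro z hz
  exact ⟨mem_univ _, hz.1, hz.2.1⟩

/-- `x` lies in the cylinder given by the first `l` binary digits of `i` -/
def Cyl (i l : ℕ) (x : ℕ → Bool) : Prop := ∀ t < l, x t = i.testBit t

theorem isClopen_cyl (i l : ℕ) : IsClopen {x : ℕ → Bool | Cyl i l x} := by
  have h1 : {x : ℕ → Bool | Cyl i l x} = ⋂ t ∈ Finset.range l, {x | x t = i.testBit t} := by
    ext x
    simp [Cyl]
  rw [h1]
  refine isClopen_biInter_finset ?_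
  intro t _
  have : {x : ℕ → Bool | x t = i.testBit t} = (fun x : ℕ → Bool => x t) ⁻¹' {i.testBit t} := rfl
  rw [this]
  exact (isClopen_discrete _).preimage (continuous_apply t)

theorem exists_testBit (x : ℕ → Bool) (l : ℕ) : ∃ i : ℕ, ∀ t < l, x t = i.testBit t := by
  induction l with
  | zero => exact ⟨0, fun t ht => absurd ht (Nat.not_lt_zero t)⟩
  | succ l ih =>
    obtain ⟨i, hi⟩ := ih
    refine ⟨i % 2 ^ l + 2 ^ l * (x l).toNat, ?_⟩
    intro t ht
    have hlt : i % 2 ^ l < 2 ^ l := Nat.mod_lt _ (by positivity)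
    rw [Nat.add_comm, Nat.testBit_two_pow_mul_add _ hlt]
    rcases Nat.lt_succ_iff_lt_or_eq.1 ht with h1 | h1
    · rw [if_pos h1, Nat.testBit_mod_two_pow]
      simp [h1, hi t h1]
    · subst h1
      rw [if_neg (lt_irrefl t), Nat.sub_self]
      cases x t <;> simp

section joins

variable {κ : Type} (a b : κ → ℕ → Bool) (h : κ → ℝ)

/-- the join `k` is separated by a cylinder -/
def Sep (i l : ℕ) (k : κ) : Prop := ¬ (Cyl i l (a k) ↔ Cyl i l (b k))

/-- the heights at which a cylinder must not be seen -/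
def Tset (i l : ℕ) : Set ℝ := insert 0 (h '' {k | Sep a b i l k})

open Classical in
/-- the quotient map -/
noncomputable def Psi (z : (ℕ → Bool) × ℝ) : Option (ℕ × ℕ) → ℝ
  | none => z.2
  | some (i, l) => if Cyl i l z.1 then infDist z.2 (Tset a b h i l) else 0

theorem continuous_Psi : Continuous (Psi a b h) := by
  classical
  refine continuous_pi ?_
  rintro (_ | ⟨i, l⟩)
  · exact continuous_snd
  · refine Continuous.if ?_ ((continuous_infDist_pt _).comp continuous_snd) continuous_const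
    intro z hz
    exfalso
    have h1 : IsClopen {z : (ℕ → Bool) × ℝ | Cyl i l z.1} :=
      (isClopen_cyl i l).preimage continuous_fst
    rw [h1.frontier_eq] at hz
    exact hz

variable {a b h}

/-- standing hypotheses on the joins -/
structure GoodJoins (a b : κ → ℕ → Bool) (h : κ → ℝ) : Prop where
  pos : ∀ k, 0 < h k
  inj : Function.Injective h
  closed : ∀ i l, IsClosed (Tset a b h i l)
  left : ∀ k, (a k, h k) ∈ Lset
  right : ∀ k, (b k, h k) ∈ Lset

/-- two points of the bundle are identified -/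
def Glued (a b : κ → ℕ → Bool) (h : κ → ℝ) (z z' : (ℕ → Bool) × ℝ) : Prop :=
  z.2 = z'.2 ∧ (z.2 = 0 ∨ z.1 = z'.1 ∨ ∃ k, h k = z.2 ∧
    ((z.1 = a k ∧ z'.1 = b k) ∨ (z.1 = b k ∧ z'.1 = a k)))

theorem exists_sep {x y : ℕ → Bool} (hxy : x ≠ y) : ∃ t, x t ≠ y t := by
  by_contra hcon
  push Not at hcon
  exact hxy (funext hcon)

theorem psi_eq_of_glued {z z' : (ℕ → Bool) × ℝ} (hz : Glued a b h z z') :
    Psi a b h z = Psi a b h z' := by
  obtain ⟨x, u⟩ := z
  obtain ⟨y, v⟩ := z'
  obtain ⟨h1, h2⟩ := hz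
  simp only at h1 h2
  subst h1
  rcases h2 with rfl | rfl | ⟨k, hk, h3⟩
  · funext c
    rcases c with _ | ⟨i, l⟩
    · rfl
    · have h0 : infDist (0 : ℝ) (Tset a b h i l) = 0 :=
        infDist_zero_of_mem (mem_insert _ _)
      simp only [Psi, h0, ite_self]
  · rfl
  · subst hk
    funext c
    rcases c with _ | ⟨i, l⟩
    · rfl
    · by_cases hs : Sep a b i l k
      · have h0 : infDist (h k) (Tset a b h i l) = 0 :=
          infDist_zero_of_mem (mem_insert_of_mem _ ⟨k, hs, rfl⟩)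
        simp only [Psi, h0, ite_self]
      · simp only [Sep, not_not] at hs
        rcases h3 with ⟨rfl, rfl⟩ | ⟨rfl, rfl⟩
        · simp only [Psi]
          by_cases h4 : Cyl i l (a k)
          · rw [if_pos h4, if_pos (hs.1 h4)]
          · rw [if_neg h4, if_neg (fun h5 => h4 (hs.2 h5))]
        · simp only [Psi]
          by_cases h4 : Cyl i l (a k)
          · rw [if_pos h4, if_pos (hs.1 h4)]
          · rw [if_neg h4, if_neg (fun h5 => h4 (hs.2 h5))]

theorem psi_ne_aux (hJ : GoodJoins a b h) {x y : ℕ → Bool} {u : ℝ} (hu : u ≠ 0) (hxy : x ≠ y)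
    (hx : ∀ k, h k = u → x ≠ a k ∧ x ≠ b k) : Psi a b h (x, u) ≠ Psi a b h (y, u) := by
  intro heq
  obtain ⟨t₀, ht₀⟩ := exists_sep hxy
  -- a length that separates `x` from everything relevant
  have hl : ∃ l, t₀ < l ∧ ∀ k, h k = u → (∃ t < l, x t ≠ a k t) ∧ (∃ t < l, x t ≠ b k t) := by
    by_cases hk : ∃ k, h k = u
    · obtain ⟨k, hk⟩ := hk
      obtain ⟨t₁, ht₁⟩ := exists_sep (hx k hk).1
      obtain ⟨t₂, ht₂⟩ := exists_sep (hx k hk).2
      refine ⟨t₀ + t₁ + t₂ + 1, by omega, ?_⟩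
      intro k' hk'
      have : k' = k := hJ.inj (by rw [hk, hk'])
      subst this
      exact ⟨⟨t₁, by omega, ht₁⟩, ⟨t₂, by omega, ht₂⟩⟩
    · refine ⟨t₀ + 1, by omega, ?_⟩
      intro k hk'
      exact absurd ⟨k, hk'⟩ hk
  obtain ⟨l, hl0, hl⟩ := hl
  obtain ⟨i, hi⟩ := exists_testBit x l
  have hxc : Cyl i l x := hi
  have hyc : ¬ Cyl i l y := by
    intro hy
    exact ht₀ (by rw [hi t₀ hl0, hy t₀ hl0])
  have huT : u ∉ Tset a b h i l := by
    rintro (h1 | ⟨k, hk, hku⟩)
    · exact hu h1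
    · apply hk
      obtain ⟨⟨t₁, ht₁l, ht₁⟩, ⟨t₂, ht₂l, ht₂⟩⟩ := hl k hku
      constructor
      · intro h2
        exact absurd (by rw [hi t₁ ht₁l, h2 t₁ ht₁l]) ht₁
      · intro h2
        exact absurd (by rw [hi t₂ ht₂l, h2 t₂ ht₂l]) ht₂
  have h2 := congrFun heq (some (i, l))
  simp only [Psi, if_pos hxc, if_neg hyc] at h2
  have h3 := (hJ.closed i l).mem_iff_infDist_zero (x := u) ⟨0, mem_insert _ _⟩
  exact huT (h3.2 h2)

theorem psi_eq_iff (hJ : GoodJoins a b h) {z z' : (ℕ → Bool) × ℝ} :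
    Psi a b h z = Psi a b h z' ↔ Glued a b h z z' := by
  refine ⟨?_, psi_eq_of_glued⟩
  intro heq
  obtain ⟨x, u⟩ := z
  obtain ⟨y, v⟩ := z'
  have huv : u = v := congrFun heq none
  subst huv
  refine ⟨rfl, ?_⟩
  by_contra hcon
  simp only [not_or, not_exists, not_and] at hcon
  obtain ⟨hu, hxy, hk⟩ := hcon
  by_cases hx : ∀ k, h k = u → x ≠ a k ∧ x ≠ b k
  · exact psi_ne_aux hJ hu hxy hx heq
  · refine psi_ne_aux hJ hu (Ne.symm hxy) ?_ heq.symm
    simp only [not_forall] at hx
    obtain ⟨k, hku, hx⟩ := hx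
    intro k' hk'
    have : k' = k := hJ.inj (by rw [hku, hk'])
    subst this
    have hxab : x = a k' ∨ x = b k' := by
      by_contra hc
      push Not at hc
      exact hx hc
    obtain ⟨h1, h2⟩ := hk k' hk'
    constructor
    · rintro rfl
      rcases hxab with h3 | h3
      · exact hxy h3
      · exact h2 h3 rfl
    · rintro rfl
      rcases hxab with h3 | h3
      · exact h1 h3 rfl
      · exact hxy h3

end joins

end Pool.Agent.Helper452.Cont
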