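import Pool.Agent.Helper452.ContSpA

open Set Filter Topology Metric

set_option linter.unusedSectionVars false
set_option linter.unusedVariables false

namespace Pool.Agent.Helper452.Cont

section

variable {κ : Type} (a b : κ → ℕ → Bool) (h : κ → ℝ)

/-- the space -/
abbrev XX : Type := ↥(Psi a b h '' Lset)

instance : CompactSpace (XX a b h) :=
  isCompact_iff_compactSpace.1 (isCompact_Lset.image (continuous_Psi a b h))

instance : TopologicalSpace.MetrizableSpace (XX a b h) := inferInstance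

/-- the quotient map onto the space -/
noncomputable def mk (z : Lset) : XX a b h := ⟨Psi a b h z, z, z.2, rfl⟩

theorem continuous_mk : Continuous (mk a b h) :=
  ((continuous_Psi a b h).comp continuous_subtype_val).subtype_mk _

theorem mk_surjective : Function.Surjective (mk a b h) := by
  rintro ⟨_, z, hz, rfl⟩
  exact ⟨⟨z, hz⟩, rfl⟩

instance : CompactSpace Lset := isCompact_iff_compactSpace.1 isCompact_Lset

theorem isClosedMap_mk : IsClosedMap (mk a b h) := (continuous_mk a b h).isClosedMap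

/-- the height -/
noncomputable def uu (y : XX a b h) : ℝ := y.1 none

theorem uu_mk (z : Lset) : uu a b h (mk a b h z) = z.1.2 := rfl

theorem continuous_uu : Continuous (uu a b h) :=
  (continuous_apply none).comp continuous_subtype_val

theorem zero_mem (x : ℕ → Bool) : (x, (0 : ℝ)) ∈ Lset :=
  ⟨le_rfl, zero_le_one, fun k _ => by positivity⟩

/-- the special point -/
noncomputable def pp : XX a b h := mk a b h ⟨(fun _ => false, 0), zero_mem _⟩

theorem uu_pp : uu a b h (pp a b h) = 0 := rfl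

theorem uu_nonneg (y : XX a b h) : 0 ≤ uu a b h y := by
  obtain ⟨z, rfl⟩ := mk_surjective a b h y
  exact z.2.1

theorem mk_eq_pp {z : Lset} (hz : z.1.2 = 0) : mk a b h z = pp a b h := by
  apply Subtype.ext
  apply psi_eq_of_glued
  exact ⟨hz, Or.inl hz⟩

theorem uu_eq_zero {y : XX a b h} : uu a b h y = 0 ↔ y = pp a b h := by
  constructor
  · intro hy
    obtain ⟨z, rfl⟩ := mk_surjective a b h y
    exact mk_eq_pp a b h hy
  · rintro rfl
    rfl

theorem uu_pos {y : XX a b h} (hy : y ≠ pp a b h) : 0 < uu a b h y :=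
  lt_of_le_of_ne (uu_nonneg a b h y) (fun h' => hy ((uu_eq_zero a b h).1 h'.symm))

theorem nhds_small {N : Set (XX a b h)} (hN : N ∈ 𝓝 (pp a b h)) :
    ∃ m : ℕ, ∀ y, uu a b h y ≤ (1 / 2 : ℝ) ^ m → y ∈ N := by
  obtain ⟨U, hUN, hU, hpU⟩ := mem_nhds_iff.1 hN
  rcases (Uᶜ).eq_empty_or_nonempty with he | hne
  · refine ⟨0, fun y _ => hUN ?_⟩
    by_contra hy
    have : y ∈ Uᶜ := hy
    rw [he] at this
    exact this
  · obtain ⟨y₀, hy₀, hmin⟩ := hU.isClosed_compl.isCompact.exists_isMinOn hne
      (continuous_uu a b h).continuousOn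
    have hpos : 0 < uu a b h y₀ := by
      apply uu_pos
      rintro rfl
      exact hy₀ hpU
    obtain ⟨m, hm⟩ := exists_pow_lt_of_lt_one hpos (show (1 / 2 : ℝ) < 1 by norm_num)
    refine ⟨m, fun y hy => hUN ?_⟩
    by_contra hyU
    have := hmin hyU
    simp only [mem_ofPred_eq] at this
    linarith

theorem small_mem_nhds {ε : ℝ} (hε : 0 < ε) :
    {y | uu a b h y ≤ ε} ∈ 𝓝 (pp a b h) := by
  have : {y | uu a b h y < ε} ∈ 𝓝 (pp a b h) :=
    (isOpen_lt (continuous_uu a b h) continuous_const).mem_nhds (by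
      simp only [mem_ofPred_eq, uu_pp]; exact hε)
  refine Filter.mem_of_superset this (fun y hy => ?_)
  simp only [mem_ofPred_eq] at hy ⊢
  exact hy.le

theorem lset_down {x : ℕ → Bool} {t u : ℝ} (ht : (x, t) ∈ Lset) (hu : 0 ≤ u) (hut : u ≤ t) :
    (x, u) ∈ Lset :=
  ⟨hu, hut.trans ht.2.1, fun k hk => hut.trans (ht.2.2 k hk)⟩

/-- the segment map with clamping -/
noncomputable def clampSeg {x : ℕ → Bool} {t : ℝ} (ht : (x, t) ∈ Lset) (u : ℝ) : Lset :=
  ⟨(x, max 0 (min u t)), lset_down ht (le_max_left _ _) (max_le ht.1 (min_le_right _ _))⟩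

theorem continuous_clampSeg {x : ℕ → Bool} {t : ℝ} (ht : (x, t) ∈ Lset) :
    Continuous (clampSeg ht) := by
  refine Continuous.subtype_mk ?_ _
  exact continuous_const.prodMk (continuous_const.max (continuous_id.min continuous_const))

theorem clampSeg_eq {x : ℕ → Bool} {t u : ℝ} (ht : (x, t) ∈ Lset) (hu : 0 ≤ u) (hut : u ≤ t) :
    clampSeg ht u = ⟨(x, u), lset_down ht hu hut⟩ := by
  apply Subtype.ext
  simp only [clampSeg]
  rw [min_eq_left hut, max_eq_right hu]

/-- the full segment of a line down to the special point is connected -/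
theorem isPreconnected_seg {x : ℕ → Bool} {t : ℝ} (ht : (x, t) ∈ Lset) :
    IsPreconnected ((fun u => mk a b h (clampSeg ht u)) '' Icc 0 t) :=
  isPreconnected_Icc.image _
    ((continuous_mk a b h).comp (continuous_clampSeg ht)).continuousOn

instance : ConnectedSpace (XX a b h) where
  isPreconnected_univ := by
    refine isPreconnected_of_forall (pp a b h) ?_
    intro y _
    obtain ⟨⟨⟨x, t⟩, ht⟩, rfl⟩ := mk_surjective a b h y
    refine ⟨_, subset_univ _, ?_, ?_, isPreconnected_seg a b h ht⟩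
    · refine ⟨0, ⟨le_rfl, ht.1⟩, ?_⟩
      apply mk_eq_pp
      rw [clampSeg_eq ht le_rfl ht.1]
    · refine ⟨t, ⟨ht.1, le_rfl⟩, ?_⟩
      simp only [clampSeg_eq ht ht.1 le_rfl]
  toNonempty := ⟨pp a b h⟩

/-- the positive part of a line, in the punctured space -/
def lineY (x : ℕ → Bool) (t : ℝ) : Set {y : XX a b h // y ≠ pp a b h} :=
  {y | ∃ z : Lset, z.1.1 = x ∧ z.1.2 ≤ t ∧ mk a b h z = y.1}

theorem isPreconnected_lineY {x : ℕ → Bool} {t : ℝ} (ht : (x, t) ∈ Lset) :
    IsPreconnected (lineY a b h x t) := by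
  have hind : Topology.IsInducing
      (Subtype.val : {y : XX a b h // y ≠ pp a b h} → XX a b h) := ⟨rfl⟩
  rw [← hind.isPreconnected_image]
  have h1 : Subtype.val '' (lineY a b h x t) =
      (fun u => mk a b h (clampSeg ht u)) '' Ioc 0 t := by
    ext y
    constructor
    · rintro ⟨y, ⟨z, hz1, hz2, hz3⟩, rfl⟩
      have hpos : 0 < z.1.2 := by
        have := uu_pos a b h y.2
        rw [← hz3] at this
        exact this
      refine ⟨z.1.2, ⟨hpos, hz2⟩, ?_⟩
      simp only
      rw [clampSeg_eq ht hpos.le hz2, ← hz3]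
      congr 1
      apply Subtype.ext
      exact Prod.ext hz1.symm rfl
    · rintro ⟨u, ⟨hu1, hu2⟩, rfl⟩
      have h2 : clampSeg ht u = ⟨(x, u), lset_down ht hu1.le hu2⟩ := clampSeg_eq ht hu1.le hu2
      refine ⟨⟨mk a b h (clampSeg ht u), ?_⟩, ⟨clampSeg ht u, ?_, ?_, rfl⟩, rfl⟩
      · intro h'
        have := (uu_eq_zero a b h).2 h'
        rw [uu_mk, h2] at this
        exact hu1.ne' this
      · rfl
      · rw [h2]
        exact hu2
  rw [h1]
  exact isPreconnected_Ioc.image _
    ((continuous_mk a b h).comp (continuous_clampSeg ht)).continuousOn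

/-- image in the punctured space of a set of points of the bundle -/
def imY (G : Set Lset) : Set {y : XX a b h // y ≠ pp a b h} :=
  {y | ∃ z ∈ G, mk a b h z = y.1}

theorem isClosed_imY {G : Set Lset} (hG : IsClosed (G ∪ {z | z.1.2 = 0})) :
    IsClosed (imY a b h G) := by
  have h1 := isClosedMap_mk a b h _ hG
  have h2 : imY a b h G = Subtype.val ⁻¹' (mk a b h '' (G ∪ {z | z.1.2 = 0})) := by
    ext y
    constructor
    · rintro ⟨z, hz, hzy⟩
      exact ⟨z, Or.inl hz, hzy⟩
    · rintro ⟨z, hz | hz, hzy⟩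
      · exact ⟨z, hz, hzy⟩
      · exact absurd (hzy ▸ mk_eq_pp a b h hz) y.2
  rw [h2]
  exact h1.preimage continuous_subtype_val

end

end Pool.Agent.Helper452.Cont
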