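import Pool.Agent.Helper452.ContBox

open Set Filter Topology Metric

set_option linter.unusedSectionVars false
set_option linter.unusedVariables false

namespace Pool.Agent.Helper452.Cont

theorem exists_high {j : ℕ} {mid : ℝ} (h : mid < (1 / 2 : ℝ) ^ j) :
    ∃ N : ℕ, ∀ m, N ≤ m → mid < ht j (2 * m) := by
  have hp : (0 : ℝ) < (1 / 2 : ℝ) ^ j := by positivity
  have hd : 0 < 1 - mid / (1 / 2 : ℝ) ^ j := by
    have : mid / (1 / 2 : ℝ) ^ j < 1 := by rwa [div_lt_one hp]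
    linarith
  obtain ⟨N, hN⟩ := exists_nat_gt (1 / (1 - mid / (1 / 2 : ℝ) ^ j))
  refine ⟨N, fun m hm => ?_⟩
  have h1 : (N : ℝ) ≤ m := by exact_mod_cast hm
  have h2 : 1 / (1 - mid / (1 / 2 : ℝ) ^ j) < 2 * (((2 * m : ℕ) : ℝ) + 2) := by
    push_cast
    have : (0 : ℝ) ≤ N := Nat.cast_nonneg N
    linarith
  have h3 : 1 / (2 * (((2 * m : ℕ) : ℝ) + 2)) < 1 - mid / (1 / 2 : ℝ) ^ j := by
    rw [one_div_lt (by positivity) hd]
    exact h2
  unfold ht
  have h4 : mid / (1 / 2 : ℝ) ^ j < 1 - 1 / (2 * (((2 * m : ℕ) : ℝ) + 2)) := by linarith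
  rw [div_lt_iff₀ hp] at h4
  linarith

/-- the last coordinate of the free points -/
def tz (iw lw : ℕ → ℕ) (j : ℕ) (b : Bool) : ℕ :=
  Nat.pair j (3 * (2 * (iw j + lw j) + b.toNat) + 2)

/-- free points -/
def zz (iw lw : ℕ → ℕ) (j : ℕ) (b : Bool) (k : ℕ) : Bool :=
  base j (iw j) k || decide (k = tz iw lw j b)

theorem tz_ge (iw lw : ℕ → ℕ) (j : ℕ) (b : Bool) :
    3 * (2 * (iw j + lw j) + b.toNat) + 2 ≤ tz iw lw j b := Nat.right_le_pair _ _

theorem base_lt {j i k : ℕ} (hk : base j i k = true) : k < i := by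
  simp only [base, Bool.and_eq_true, decide_eq_true_eq] at hk
  exact testBit_lt hk.1

theorem zz_top {iw lw : ℕ → ℕ} {j : ℕ} {b : Bool} {k : ℕ} (hk : zz iw lw j b k = true) :
    k ≤ tz iw lw j b := by
  simp only [zz, Bool.or_eq_true, decide_eq_true_eq] at hk
  rcases hk with hk | rfl
  · have := base_lt hk
    have := tz_ge iw lw j b
    omega
  · exact le_rfl

theorem zz_tz (iw lw : ℕ → ℕ) (j : ℕ) (b : Bool) : zz iw lw j b (tz iw lw j b) = true := by
  simp [zz]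

theorem blk_tz (iw lw : ℕ → ℕ) (j : ℕ) (b : Bool) : blk (tz iw lw j b) = j := by
  simp [blk, tz]

theorem zz_pt (iw lw : ℕ → ℕ) (j : ℕ) (b : Bool) : Pt j (zz iw lw j b) := by
  refine ⟨?_, ⟨tz iw lw j b, zz_tz _ _ _ _, blk_tz _ _ _ _⟩, tz iw lw j b + 1, ?_⟩
  · intro k hk
    simp only [zz, Bool.or_eq_true, decide_eq_true_eq] at hk
    rcases hk with hk | rfl
    · exact base_blk hk
    · rw [blk_tz]
  · intro t ht
    by_contra hcon
    have := zz_top (show zz iw lw j b t = true by simpa using hcon)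
    omega

theorem zz_ne (iw lw : ℕ → ℕ) (j : ℕ) (b : Bool) (n r : ℕ) (s : Bool) :
    zz iw lw j b ≠ qq n r s := by
  intro h
  have h1 : tz iw lw j b ≤ key n r s.toNat := by
    apply qq_top
    rw [← h]
    exact zz_tz _ _ _ _
  have h2 : key n r s.toNat ≤ tz iw lw j b := by
    apply zz_top (iw := iw) (lw := lw)
    rw [h]
    exact qq_key n r s
  obtain ⟨_, h3⟩ := pair_inj (le_antisymm h1 h2)
  have h4 : s.toNat ≤ 1 := by cases s <;> simp
  omega

theorem zz_inj (iw lw : ℕ → ℕ) (j : ℕ) : zz iw lw j true ≠ zz iw lw j false := by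
  intro h
  have h1 : tz iw lw j true ≤ tz iw lw j false := by
    apply zz_top (iw := iw) (lw := lw)
    rw [← h]
    exact zz_tz _ _ _ _
  have h2 : tz iw lw j false < tz iw lw j true := by
    unfold tz
    apply Nat.pair_lt_pair_right
    simp
  omega

theorem zz_near {iw lw : ℕ → ℕ} {j : ℕ} {b : Bool} {t : ℕ} (ht : t < lw j) :
    zz iw lw j b t = base j (iw j) t := by
  have := tz_ge iw lw j b
  have h1 : t ≠ tz iw lw j b := by omega
  simp [zz, h1]

open Classical in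
/-- the colouring of the bundle -/
noncomputable def chi (Up Lo : ℕ → (ℕ → Bool) → Bool) (mid : ℕ → ℝ) (z : Lset) : Bool :=
  if h : 0 < z.1.2 then
    (if z.1.2 ≤ mid (exists_strip h z.2.2.1).choose then
      Up (exists_strip h z.2.2.1).choose z.1.1
    else Lo (exists_strip h z.2.2.1).choose z.1.1)
  else false

theorem chi_low {Up Lo : ℕ → (ℕ → Bool) → Bool} {mid : ℕ → ℝ} {z : Lset} {j : ℕ}
    (h1 : (1 / 2 : ℝ) ^ (j + 1) < z.1.2) (h2 : z.1.2 ≤ (1 / 2 : ℝ) ^ j) (h3 : z.1.2 ≤ mid j) :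
    chi Up Lo mid z = Up j z.1.1 := by
  have h0 : 0 < z.1.2 := lt_trans (by positivity) h1
  have h4 := (exists_strip h0 z.2.2.1).choose_spec
  have h5 : (exists_strip h0 z.2.2.1).choose = j := strip_unique h4.1 h4.2 h1 h2
  unfold chi
  rw [dif_pos h0, h5, if_pos h3]

theorem chi_high {Up Lo : ℕ → (ℕ → Bool) → Bool} {mid : ℕ → ℝ} {z : Lset} {j : ℕ}
    (h1 : (1 / 2 : ℝ) ^ (j + 1) < z.1.2) (h2 : z.1.2 ≤ (1 / 2 : ℝ) ^ j) (h3 : mid j < z.1.2) :
    chi Up Lo mid z = Lo j z.1.1 := by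
  have h0 : 0 < z.1.2 := lt_trans (by positivity) h1
  have h4 := (exists_strip h0 z.2.2.1).choose_spec
  have h5 : (exists_strip h0 z.2.2.1).choose = j := strip_unique h4.1 h4.2 h1 h2
  unfold chi
  rw [dif_pos h0, h5, if_neg (not_le.2 h3)]

theorem chi_both {Up Lo : ℕ → (ℕ → Bool) → Bool} {mid : ℕ → ℝ} {z : Lset} {j : ℕ} {b : Bool}
    (h1 : (1 / 2 : ℝ) ^ (j + 1) < z.1.2) (h2 : z.1.2 ≤ (1 / 2 : ℝ) ^ j)
    (h3 : Up j z.1.1 = b) (h4 : Lo j z.1.1 = b) :
    chi Up Lo mid z = b := by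
  rcases le_or_gt z.1.2 (mid j) with h5 | h5
  · rw [chi_low h1 h2 h5, h3]
  · rw [chi_high h1 h2 h5, h4]

theorem chi_loc {Up Lo : ℕ → (ℕ → Bool) → Bool} {mid : ℕ → ℝ} {H : Set Lset}
    (hdep : ∀ j, ∃ M, ∀ x y : ℕ → Bool, (∀ t < M, x t = y t) →
      Up j x = Up j y ∧ Lo j x = Lo j y)
    (hcoh : ∀ j, ∀ x ∈ Al j, Up (j + 1) x = Up j x ∧ Lo (j + 1) x = Up j x)
    (hmid : ∀ j, (1 / 2 : ℝ) ^ (j + 1) < mid j ∧ mid j < (1 / 2 : ℝ) ^ j)
    (hH : ∀ z : Lset, ∀ j, z.1.2 = mid j → Lo j z.1.1 ≠ Up j z.1.1 → z ∈ H)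
    {z : Lset} (hz0 : 0 < z.1.2) (hzH : z ∉ H) :
    ∃ (M : ℕ) (ε : ℝ), 0 < ε ∧ ∀ z' : Lset, (∀ t < M, z'.1.1 t = z.1.1 t) →
      |z'.1.2 - z.1.2| < ε → 0 < z'.1.2 ∧ chi Up Lo mid z' = chi Up Lo mid z := by
  obtain ⟨j, hj1, hj2⟩ := exists_strip hz0 z.2.2.1
  obtain ⟨M, hM⟩ := hdep j
  obtain ⟨hm1, hm2⟩ := hmid j
  have hpos : (0 : ℝ) < (1 / 2 : ℝ) ^ (j + 1) := by positivity
  rcases lt_trichotomy z.1.2 (mid j) with h1 | h1 | h1
  · -- strictly below the cut
    refine ⟨M, min (z.1.2 - (1 / 2 : ℝ) ^ (j + 1)) (mid j - z.1.2),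
      lt_min (by linarith) (by linarith), fun z' h2 h3 => ?_⟩
    obtain ⟨h4, h5⟩ := abs_lt.1 h3
    have h6 := min_le_left (z.1.2 - (1 / 2 : ℝ) ^ (j + 1)) (mid j - z.1.2)
    have h7 := min_le_right (z.1.2 - (1 / 2 : ℝ) ^ (j + 1)) (mid j - z.1.2)
    refine ⟨by linarith, ?_⟩
    rw [chi_low (j := j) (by linarith) (by linarith) (by linarith), chi_low hj1 hj2 h1.le]
    exact (hM _ _ h2).1
  · -- at the cut
    have h8 : Lo j z.1.1 = Up j z.1.1 := by
      by_contra hne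
      exact hzH (hH z j h1 hne)
    refine ⟨M, min (z.1.2 - (1 / 2 : ℝ) ^ (j + 1)) ((1 / 2 : ℝ) ^ j - z.1.2),
      lt_min (by linarith) (by linarith), fun z' h2 h3 => ?_⟩
    obtain ⟨h4, h5⟩ := abs_lt.1 h3
    have h6 := min_le_left (z.1.2 - (1 / 2 : ℝ) ^ (j + 1)) ((1 / 2 : ℝ) ^ j - z.1.2)
    have h7 := min_le_right (z.1.2 - (1 / 2 : ℝ) ^ (j + 1)) ((1 / 2 : ℝ) ^ j - z.1.2)
    refine ⟨by linarith, ?_⟩
    rw [chi_low hj1 hj2 h1.le]
    refine chi_both (j := j) (by linarith) (by linarith) (hM _ _ h2).1 ?_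
    rw [(hM _ _ h2).2, h8]
  · rcases lt_or_eq_of_le hj2 with h9 | h9
    · -- strictly above the cut, inside the strip
      refine ⟨M, min (z.1.2 - mid j) ((1 / 2 : ℝ) ^ j - z.1.2),
        lt_min (by linarith) (by linarith), fun z' h2 h3 => ?_⟩
      obtain ⟨h4, h5⟩ := abs_lt.1 h3
      have h6 := min_le_left (z.1.2 - mid j) ((1 / 2 : ℝ) ^ j - z.1.2)
      have h7 := min_le_right (z.1.2 - mid j) ((1 / 2 : ℝ) ^ j - z.1.2)
      refine ⟨by linarith, ?_⟩
      rw [chi_high (j := j) (by linarith) (by linarith) (by linarith), chi_high hj1 hj2 h1]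
      exact (hM _ _ h2).2
    · -- at the top of the strip
      rcases j with _ | i
      · refine ⟨M, z.1.2 - mid 0, by linarith, fun z' h2 h3 => ?_⟩
        obtain ⟨h4, h5⟩ := abs_lt.1 h3
        refine ⟨by linarith, ?_⟩
        have h10 : z'.1.2 ≤ (1 / 2 : ℝ) ^ 0 := by
          rw [pow_zero]
          exact z'.2.2.1
        rw [chi_high (j := 0) (by linarith) h10 (by linarith), chi_high hj1 hj2 h1]
        exact (hM _ _ h2).2
      · obtain ⟨hi1, hi2⟩ := hmid i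
        refine ⟨M, min (z.1.2 - mid (i + 1)) (mid i - z.1.2),
          lt_min (by linarith) (by linarith), fun z' h2 h3 => ?_⟩
        obtain ⟨h4, h5⟩ := abs_lt.1 h3
        have h6 := min_le_left (z.1.2 - mid (i + 1)) (mid i - z.1.2)
        have h7 := min_le_right (z.1.2 - mid (i + 1)) (mid i - z.1.2)
        refine ⟨by linarith, ?_⟩
        rw [chi_high hj1 hj2 h1]
        rcases le_or_gt z'.1.2 ((1 / 2 : ℝ) ^ (i + 1)) with h10 | h10
        · rw [chi_high (j := i + 1) (by linarith) h10 (by linarith)]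
          exact (hM _ _ h2).2
        · rw [chi_low (j := i) h10 (by linarith) (by linarith)]
          have h11 : z'.1.1 ∈ Al i := Al_of_mem_Lset z'.2 h10
          rw [← (hcoh i _ h11).2]
          exact (hM _ _ h2).2

theorem chi_glued {Up Lo : ℕ → (ℕ → Bool) → Bool} {mid : ℕ → ℝ}
    (hcoh : ∀ j, ∀ x ∈ Al j, Up (j + 1) x = Up j x ∧ Lo (j + 1) x = Up j x)
    (hl1 : ∀ n r, 1 ≤ r → r < 2 ^ (n * n) → ht (lev n r) (2 * Nat.pair n r) ≤ mid (lev n r) →
      Up (lev n r) (qm n r) = Up (lev n r) (qp n r))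
    (hl2 : ∀ n r, 1 ≤ r → r < 2 ^ (n * n) →
      Lo (lev n r) (qm n r) = Lo (lev n r) (qp n r))
    (hh : ∀ n r, 1 ≤ r → r + 1 < 2 ^ (n * n) →
      Up (lev n r) (qp n r) = Up (lev n (r + 1)) (qm n (r + 1)))
    {z z' : Lset} (hz0 : 0 < z.1.2) (hg : Glued ja jb jh z.1 z'.1) :
    chi Up Lo mid z = chi Up Lo mid z' := by
  have hcoh' : ∀ i j, i < j → ∀ x ∈ Al i, Up j x = Up i x ∧ Lo j x = Up i x := by
    intro i j hij
    induction j, hij using Nat.le_induction with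
    | base => exact hcoh i
    | succ j hj ih =>
      intro x hx
      have h1 := hcoh j x (Al_mono (by omega) hx)
      have h2 := ih x hx
      exact ⟨h1.1.trans h2.1, h1.2.trans h2.1⟩
  obtain ⟨⟨x, u⟩, hz⟩ := z
  obtain ⟨⟨y, v⟩, hz'⟩ := z'
  obtain ⟨h1, h2⟩ := hg
  have huv : u = v := h1
  subst huv
  rcases h2 with h2 | h2 | ⟨⟨⟨n, r, s⟩, hc⟩, hk, h3⟩
  · exact absurd h2 hz0.ne'
  · have : x = y := h2
    subst this
    rfl
  · cases s
    · -- low join
      have hc1 : 1 ≤ r := hc.1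
      have hc2 : r < 2 ^ (n * n) := by simpa using hc.2
      have hku : ht (lev n r) (2 * Nat.pair n r) = u := hk
      obtain ⟨hb1, hb2⟩ := ht_bounds (lev n r) (2 * Nat.pair n r)
      rw [hku] at hb1 hb2
      rcases le_or_gt u (mid (lev n r)) with h5 | h5
      · rw [chi_low (j := lev n r) hb1 hb2.le h5, chi_low (j := lev n r) hb1 hb2.le h5]
        have h6 := hl1 n r hc1 hc2 (by rw [hku]; exact h5)
        rcases h3 with ⟨h7, h8⟩ | ⟨h7, h8⟩
        · have h9 : x = qm n r := h7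
          have h10 : y = qp n r := h8
          show Up (lev n r) x = Up (lev n r) y
          rw [h9, h10]; exact h6
        · have h9 : x = qp n r := h7
          have h10 : y = qm n r := h8
          show Up (lev n r) x = Up (lev n r) y
          rw [h9, h10]; exact h6.symm
      · rw [chi_high (j := lev n r) hb1 hb2.le h5, chi_high (j := lev n r) hb1 hb2.le h5]
        have h6 := hl2 n r hc1 hc2
        rcases h3 with ⟨h7, h8⟩ | ⟨h7, h8⟩
        · have h9 : x = qm n r := h7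
          have h10 : y = qp n r := h8
          show Lo (lev n r) x = Lo (lev n r) y
          rw [h9, h10]; exact h6
        · have h9 : x = qp n r := h7
          have h10 : y = qm n r := h8
          show Lo (lev n r) x = Lo (lev n r) y
          rw [h9, h10]; exact h6.symm
    · -- high join
      have hc1 : 1 ≤ r := hc.1
      have hc2 : r + 1 < 2 ^ (n * n) := by simpa using hc.2
      have hku : ht (Nat.pair n r) (2 * Nat.pair n r + 1) = u := hk
      obtain ⟨hb1, hb2⟩ := ht_bounds (Nat.pair n r) (2 * Nat.pair n r + 1)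
      rw [hku] at hb1 hb2
      have h6 := hh n r hc1 hc2
      have e1 : lev n r < Nat.pair n r := lt_of_lt_of_le (lev_lt hc1 (by omega)) (n_le_pair n r)
      have e2 : lev n (r + 1) < Nat.pair n r :=
        lt_of_lt_of_le (lev_lt (by omega) hc2) (n_le_pair n r)
      have a1 := hcoh' _ _ e1 _ (qp_mem_Al n r)
      have a2 := hcoh' _ _ e2 _ (qm_mem_Al n (r + 1))
      rw [h6] at a1
      have b1 : ∀ w (hw : (qp n r, w) ∈ Lset), w = u → chi Up Lo mid ⟨(qp n r, w), hw⟩ =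
          Up (lev n (r + 1)) (qm n (r + 1)) := by
        rintro w hw rfl
        exact chi_both (j := Nat.pair n r) hb1 hb2.le a1.1 a1.2
      have b2 : ∀ w (hw : (qm n (r + 1), w) ∈ Lset), w = u →
          chi Up Lo mid ⟨(qm n (r + 1), w), hw⟩ = Up (lev n (r + 1)) (qm n (r + 1)) := by
        rintro w hw rfl
        exact chi_both (j := Nat.pair n r) hb1 hb2.le a2.1 a2.2
      rcases h3 with ⟨h7, h8⟩ | ⟨h7, h8⟩
      · have h9 : x = qp n r := h7
        have h10 : y = qm n (r + 1) := h8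
        subst h9 h10
        rw [b1 u hz rfl, b2 u hz' rfl]
      · have h9 : x = qm n (r + 1) := h7
        have h10 : y = qp n r := h8
        subst h9 h10
        rw [b1 u hz' rfl, b2 u hz rfl]

end Pool.Agent.Helper452.Cont
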