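import Mathlib

set_option autoImplicit false

/-! Averaging operators and the positivity principle for sums of independent uniform variables. -/

namespace Pool.Agent.Helper452

open MeasureTheory Set intervalIntegral

/-- Average of `f` over the interval of radius `|a|` around `r`. -/
noncomputable def Aop (a : ℝ) (f : ℝ → ℝ) (r : ℝ) : ℝ := (1 / 2) * ∫ u in (-1 : ℝ)..1, f (r + a * u)

lemma Aop_continuous (a : ℝ) {f : ℝ → ℝ} (hf : Continuous f) : Continuous (Aop a f) := by
  unfold Aop
  have h : Continuous fun r : ℝ => ∫ u in (-1 : ℝ)..1, f (r + a * u) := by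
    apply intervalIntegral.continuous_parametric_intervalIntegral_of_continuous'
    fun_prop
  exact continuous_const.mul h

lemma Aop_neg (a : ℝ) (f : ℝ → ℝ) (r : ℝ) : Aop (-a) f r = Aop a f r := by
  unfold Aop
  congr 1
  have := intervalIntegral.integral_comp_neg (a := (-1 : ℝ)) (b := 1) (fun u => f (r + a * u))
  simp only [neg_neg] at this
  rw [← this]
  congr 1
  ext u
  ring_nf

lemma Aop_odd (a : ℝ) {f : ℝ → ℝ} (hodd : ∀ x, f (-x) = -f x) (r : ℝ) :
    Aop a f (-r) = -Aop a f r := by
  unfold Aop
  have := intervalIntegral.integral_comp_neg (a := (-1 : ℝ)) (b := 1) (fun u => f (-r + a * u))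
  simp only [neg_neg] at this
  rw [← this, ← mul_neg, ← intervalIntegral.integral_neg]
  congr 2
  ext u
  rw [← hodd]
  ring_nf

/-- the average through the primitive variable -/
lemma Aop_eq_of_ne (a : ℝ) (ha : a ≠ 0) (f : ℝ → ℝ) (r : ℝ) :
    Aop a f r = (1 / (2 * a)) * ∫ z in (r - a)..(r + a), f z := by
  unfold Aop
  have h := intervalIntegral.integral_comp_add_mul (a := (-1 : ℝ)) (b := 1) f ha r
  rw [h]
  simp only [smul_eq_mul, mul_neg, mul_one]
  rw [← mul_assoc, ← sub_eq_add_neg]
  congr 1
  field_simp

lemma integral_odd_symm {f : ℝ → ℝ} (hodd : ∀ x, f (-x) = -f x) (c : ℝ) :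
    ∫ z in (-c)..c, f z = 0 := by
  have h := intervalIntegral.integral_comp_neg (a := -c) (b := c) f
  simp only [neg_neg] at h
  have h2 : ∫ x in (-c)..c, f (-x) = -∫ x in (-c)..c, f x := by
    rw [← intervalIntegral.integral_neg]
    congr 1
    ext x
    exact hodd x
  rw [h2] at h
  linarith

/-- Positivity principle: averaging preserves odd functions that are nonnegative on `[0, ∞)`. -/
lemma Aop_nonneg (a : ℝ) {f : ℝ → ℝ} (hf : Continuous f) (hodd : ∀ x, f (-x) = -f x)
    (hpos : ∀ x, 0 ≤ x → 0 ≤ f x) (r : ℝ) (hr : 0 ≤ r) : 0 ≤ Aop a f r := by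
  wlog ha : 0 < a generalizing a
  · rcases eq_or_lt_of_le (not_lt.mp ha) with h0 | h0
    · subst h0
      simp [Aop]
      have := hpos r hr
      linarith
    · rw [← Aop_neg]
      exact this (-a) (by linarith)
  rw [Aop_eq_of_ne a ha.ne']
  apply mul_nonneg (by positivity)
  rcases le_or_gt a r with har | har
  · apply intervalIntegral.integral_nonneg (by linarith)
    intro u hu
    exact hpos u (by linarith [hu.1])
  · have hi : ∀ x y : ℝ, IntervalIntegrable f volume x y := fun x y => hf.intervalIntegrable x y
    rw [← intervalIntegral.integral_add_adjacent_intervals (hi (r - a) (a - r)) (hi (a - r) (r + a))]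
    have h0 : ∫ z in (r - a)..(a - r), f z = 0 := by
      have := integral_odd_symm hodd (a - r)
      rwa [neg_sub] at this
    rw [h0, zero_add]
    apply intervalIntegral.integral_nonneg (by linarith)
    intro u hu
    exact hpos u (by linarith [hu.1])

lemma Aop_mono (a : ℝ) {f g : ℝ → ℝ} (hf : Continuous f) (hg : Continuous g)
    (h : ∀ x, f x ≤ g x) (r : ℝ) : Aop a f r ≤ Aop a g r := by
  unfold Aop
  apply mul_le_mul_of_nonneg_left _ (by norm_num)
  apply intervalIntegral.integral_mono_on (by norm_num)
  · exact (by fun_prop : Continuous fun u => f (r + a * u)).intervalIntegrable _ _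
  · exact (by fun_prop : Continuous fun u => g (r + a * u)).intervalIntegrable _ _
  · intro x _
    exact h _

lemma Aop_add (a : ℝ) {f g : ℝ → ℝ} (hf : Continuous f) (hg : Continuous g) (r : ℝ) :
    Aop a (fun x => f x + g x) r = Aop a f r + Aop a g r := by
  unfold Aop
  rw [intervalIntegral.integral_add, mul_add]
  · exact (by fun_prop : Continuous fun u => f (r + a * u)).intervalIntegrable _ _
  · exact (by fun_prop : Continuous fun u => g (r + a * u)).intervalIntegrable _ _

lemma Aop_const_mul (a c : ℝ) (f : ℝ → ℝ) (r : ℝ) :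
    Aop a (fun x => c * f x) r = c * Aop a f r := by
  unfold Aop
  rw [intervalIntegral.integral_const_mul]
  ring

lemma Aop_id (a r : ℝ) : Aop a (fun x => x) r = r := by
  unfold Aop
  rw [intervalIntegral.integral_add (by simp) (by
    apply Continuous.intervalIntegrable; fun_prop), intervalIntegral.integral_const_mul, integral_id]
  simp
  ring

lemma Aop_cube (a r : ℝ) : Aop a (fun x => x ^ 3) r = r ^ 3 + a ^ 2 * r := by
  unfold Aop
  have : ∀ u : ℝ, (r + a * u) ^ 3 = r ^ 3 + 3 * r ^ 2 * a * u + 3 * r * a ^ 2 * u ^ 2 + a ^ 3 * u ^ 3 := by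
    intro u; ring
  simp_rw [this]
  rw [intervalIntegral.integral_add, intervalIntegral.integral_add, intervalIntegral.integral_add,
    intervalIntegral.integral_const_mul, intervalIntegral.integral_const_mul,
    intervalIntegral.integral_const_mul, integral_pow, integral_pow]
  · simp
    ring
  all_goals (apply Continuous.intervalIntegrable; fun_prop)

lemma Aop_sin (a l r : ℝ) :
    Aop a (fun x => Real.sin (l * x)) r = Real.sinc (l * a) * Real.sin (l * r) := by
  unfold Aop
  rcases eq_or_ne (l * a) 0 with h | h
  · rw [h, Real.sinc_zero, one_mul]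
    have : ∀ u : ℝ, l * (r + a * u) = l * r := by
      intro u
      have : l * (r + a * u) = l * r + (l * a) * u := by ring
      rw [this, h]; ring
    simp_rw [this]
    simp
    ring
  · rw [Real.sinc_of_ne_zero h]
    have h1 : ∀ u : ℝ, Real.sin (l * (r + a * u)) = Real.sin (l * r + (l * a) * u) := by
      intro u; congr 1; ring
    simp_rw [h1]
    rw [intervalIntegral.integral_comp_add_mul (fun x => Real.sin x) h (l * r)]
    rw [integral_sin]
    simp only [smul_eq_mul, mul_neg, mul_one]
    have e1 : Real.cos (l * r + -(l * a)) - Real.cos (l * r + l * a)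
        = 2 * Real.sin (l * r) * Real.sin (l * a) := by
      rw [Real.cos_add, Real.cos_add, Real.cos_neg, Real.sin_neg]
      ring
    rw [e1]
    field_simp

end Pool.Agent.Helper452
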