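import Mathlib

set_option autoImplicit false

namespace Pool.Agent.Helper452

open Real

/-- a function vanishing at zero with nonnegative derivative on `[0,∞)` is nonnegative there -/
lemma nonneg_of_deriv {f f' : ℝ → ℝ} (hf : ∀ x, HasDerivAt f (f' x) x) (h0 : f 0 = 0)
    (hpos : ∀ x, 0 ≤ x → 0 ≤ f' x) (x : ℝ) (hx : 0 ≤ x) : 0 ≤ f x := by
  have hm : MonotoneOn f (Set.Ici 0) := by
    apply monotoneOn_of_deriv_nonneg (convex_Ici 0)
    · exact fun y _ => (hf y).continuousAt.continuousWithinAt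
    · intro y _
      exact (hf y).differentiableAt.differentiableWithinAt
    · intro y hy
      rw [(hf y).deriv]
      rw [interior_Ici] at hy
      exact hpos y (le_of_lt hy)
  have := hm (Set.mem_Ici.2 le_rfl) (Set.mem_Ici.2 hx) hx
  rwa [h0] at this

lemma cos_le_P4 (x : ℝ) (hx : 0 ≤ x) : cos x ≤ 1 - x ^ 2 / 2 + x ^ 4 / 24 := by
  have := nonneg_of_deriv (f := fun x => 1 - x ^ 2 / 2 + x ^ 4 / 24 - cos x)
    (f' := fun x => sin x - (x - x ^ 3 / 6))
    (by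
      intro y
      have h1 := ((((hasDerivAt_const y (1:ℝ)).sub ((hasDerivAt_pow 2 y).div_const 2)).add
        ((hasDerivAt_pow 4 y).div_const 24)).sub (hasDerivAt_cos y))
      convert! h1 using 1
      simp; ring)
    (by simp) (by intro y hy; linarith [sin_ge_sub_cube hy]) x hx
  linarith

lemma sin_le_P5 (x : ℝ) (hx : 0 ≤ x) : sin x ≤ x - x ^ 3 / 6 + x ^ 5 / 120 := by
  have := nonneg_of_deriv (f := fun x => x - x ^ 3 / 6 + x ^ 5 / 120 - sin x)
    (f' := fun x => 1 - x ^ 2 / 2 + x ^ 4 / 24 - cos x)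
    (by
      intro y
      have h1 := ((((hasDerivAt_id y).sub ((hasDerivAt_pow 3 y).div_const 6)).add
        ((hasDerivAt_pow 5 y).div_const 120)).sub (hasDerivAt_sin y))
      convert! h1 using 1
      simp; ring)
    (by simp) (by intro y hy; linarith [cos_le_P4 y hy]) x hx
  linarith

lemma cos_ge_P6 (x : ℝ) (hx : 0 ≤ x) : 1 - x ^ 2 / 2 + x ^ 4 / 24 - x ^ 6 / 720 ≤ cos x := by
  have := nonneg_of_deriv (f := fun x => cos x - (1 - x ^ 2 / 2 + x ^ 4 / 24 - x ^ 6 / 720))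
    (f' := fun x => x - x ^ 3 / 6 + x ^ 5 / 120 - sin x)
    (by
      intro y
      have h1 := (hasDerivAt_cos y).sub ((((hasDerivAt_const y (1:ℝ)).sub
        ((hasDerivAt_pow 2 y).div_const 2)).add
        ((hasDerivAt_pow 4 y).div_const 24)).sub ((hasDerivAt_pow 6 y).div_const 720))
      convert! h1 using 1
      simp; ring)
    (by simp) (by intro y hy; linarith [sin_le_P5 y hy]) x hx
  linarith

lemma sin_ge_P7 (x : ℝ) (hx : 0 ≤ x) : x - x ^ 3 / 6 + x ^ 5 / 120 - x ^ 7 / 5040 ≤ sin x := by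
  have := nonneg_of_deriv (f := fun x => sin x - (x - x ^ 3 / 6 + x ^ 5 / 120 - x ^ 7 / 5040))
    (f' := fun x => cos x - (1 - x ^ 2 / 2 + x ^ 4 / 24 - x ^ 6 / 720))
    (by
      intro y
      have h1 := (hasDerivAt_sin y).sub ((((hasDerivAt_id y).sub
        ((hasDerivAt_pow 3 y).div_const 6)).add
        ((hasDerivAt_pow 5 y).div_const 120)).sub ((hasDerivAt_pow 7 y).div_const 5040))
      convert! h1 using 1
      simp; ring)
    (by simp) (by intro y hy; linarith [cos_ge_P6 y hy]) x hx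
  linarith

lemma sin_ge_P5_neg (x : ℝ) (hx : x ≤ 0) : x - x ^ 3 / 6 + x ^ 5 / 120 ≤ sin x := by
  have h := sin_le_P5 (-x) (by linarith)
  rw [sin_neg] at h
  have e : -x - (-x) ^ 3 / 6 + (-x) ^ 5 / 120 = -(x - x ^ 3 / 6 + x ^ 5 / 120) := by ring
  linarith

lemma sin_le_P7_neg (x : ℝ) (hx : x ≤ 0) : sin x ≤ x - x ^ 3 / 6 + x ^ 5 / 120 - x ^ 7 / 5040 := by
  have h := sin_ge_P7 (-x) (by linarith)
  rw [sin_neg] at h
  have e : -x - (-x) ^ 3 / 6 + (-x) ^ 5 / 120 - (-x) ^ 7 / 5040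
      = -(x - x ^ 3 / 6 + x ^ 5 / 120 - x ^ 7 / 5040) := by ring
  linarith

lemma exp_neg_ge1 (u : ℝ) : 1 - u ≤ exp (-u) := by
  have := add_one_le_exp (-u); linarith

lemma exp_neg_le2 (u : ℝ) (hu : 0 ≤ u) : exp (-u) ≤ 1 - u + u ^ 2 / 2 := by
  have := nonneg_of_deriv (f := fun x => 1 - x + x ^ 2 / 2 - exp (-x))
    (f' := fun x => exp (-x) - (1 - x))
    (by
      intro y
      have h1 := (((hasDerivAt_const y (1:ℝ)).sub (hasDerivAt_id y)).add
        ((hasDerivAt_pow 2 y).div_const 2)).sub ((hasDerivAt_neg y).exp)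
      convert! h1 using 1
      simp; ring)
    (by simp) (by intro y hy; linarith [exp_neg_ge1 y]) u hu
  linarith

lemma exp_neg_ge3 (u : ℝ) (hu : 0 ≤ u) : 1 - u + u ^ 2 / 2 - u ^ 3 / 6 ≤ exp (-u) := by
  have := nonneg_of_deriv (f := fun x => exp (-x) - (1 - x + x ^ 2 / 2 - x ^ 3 / 6))
    (f' := fun x => 1 - x + x ^ 2 / 2 - exp (-x))
    (by
      intro y
      have h1 := ((hasDerivAt_neg y).exp).sub ((((hasDerivAt_const y (1:ℝ)).sub
        (hasDerivAt_id y)).add ((hasDerivAt_pow 2 y).div_const 2)).sub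
        ((hasDerivAt_pow 3 y).div_const 6))
      convert! h1 using 1
      simp; ring)
    (by simp) (by intro y hy; linarith [exp_neg_le2 y hy]) u hu
  linarith

lemma exp_neg_le4 (u : ℝ) (hu : 0 ≤ u) :
    exp (-u) ≤ 1 - u + u ^ 2 / 2 - u ^ 3 / 6 + u ^ 4 / 24 := by
  have := nonneg_of_deriv (f := fun x => 1 - x + x ^ 2 / 2 - x ^ 3 / 6 + x ^ 4 / 24 - exp (-x))
    (f' := fun x => exp (-x) - (1 - x + x ^ 2 / 2 - x ^ 3 / 6))
    (by
      intro y
      have h1 := (((((hasDerivAt_const y (1:ℝ)).sub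
        (hasDerivAt_id y)).add ((hasDerivAt_pow 2 y).div_const 2)).sub
        ((hasDerivAt_pow 3 y).div_const 6)).add ((hasDerivAt_pow 4 y).div_const 24)).sub
        ((hasDerivAt_neg y).exp)
      convert! h1 using 1
      simp; ring)
    (by simp) (by intro y hy; linarith [exp_neg_ge3 y hy]) u hu
  linarith

lemma exp_neg_ge5 (u : ℝ) (hu : 0 ≤ u) :
    1 - u + u ^ 2 / 2 - u ^ 3 / 6 + u ^ 4 / 24 - u ^ 5 / 120 ≤ exp (-u) := by
  have := nonneg_of_deriv
    (f := fun x => exp (-x) - (1 - x + x ^ 2 / 2 - x ^ 3 / 6 + x ^ 4 / 24 - x ^ 5 / 120))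
    (f' := fun x => 1 - x + x ^ 2 / 2 - x ^ 3 / 6 + x ^ 4 / 24 - exp (-x))
    (by
      intro y
      have h1 := ((hasDerivAt_neg y).exp).sub ((((((hasDerivAt_const y (1:ℝ)).sub
        (hasDerivAt_id y)).add ((hasDerivAt_pow 2 y).div_const 2)).sub
        ((hasDerivAt_pow 3 y).div_const 6)).add ((hasDerivAt_pow 4 y).div_const 24)).sub
        ((hasDerivAt_pow 5 y).div_const 120))
      convert! h1 using 1
      simp; ring)
    (by simp) (by intro y hy; linarith [exp_neg_le4 y hy]) u hu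
  linarith

lemma sinc_nonneg_of_abs_le_pi (y : ℝ) (hy : |y| ≤ π) : 0 ≤ sinc y := by
  rw [show sinc y = sinc |y| by
    rcases abs_cases y with h | h <;> rw [h.1]
    rw [sinc_neg]]
  rcases eq_or_ne |y| 0 with h | h
  · rw [h, sinc_zero]; norm_num
  · rw [sinc_of_ne_zero h]
    exact div_nonneg (sin_nonneg_of_nonneg_of_le_pi (abs_nonneg y) hy) (abs_nonneg y)

lemma sinc_le_exp_aux (y : ℝ) (hy0 : 0 < y) (hy : y ≤ π) : sin y / y ≤ exp (-(y ^ 2 / 6)) := by
  rw [div_le_iff₀ hy0]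
  rcases le_total y 2.68 with h | h
  · have h1 := sin_le_P5 y hy0.le
    have h2 := exp_neg_ge3 (y ^ 2 / 6) (by positivity)
    have h3 : (1 - y ^ 2 / 6 + (y ^ 2 / 6) ^ 2 / 2 - (y ^ 2 / 6) ^ 3 / 6) * y
        ≤ exp (-(y ^ 2 / 6)) * y := mul_le_mul_of_nonneg_right h2 hy0.le
    have h4 : y - y ^ 3 / 6 + y ^ 5 / 120
        ≤ (1 - y ^ 2 / 6 + (y ^ 2 / 6) ^ 2 / 2 - (y ^ 2 / 6) ^ 3 / 6) * y := by
      have h5 : y ^ 2 ≤ 7.2 := by nlinarith
      have h6 : 0 ≤ y ^ 5 * (7.2 - y ^ 2) := mul_nonneg (by positivity) (by linarith)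
      nlinarith
    linarith
  · have h1 : sin y ≤ π - y := by
      rw [← sin_pi_sub]
      exact sin_le (by linarith)
    have hp := pi_lt_d2
    have h2 : exp (-(5 / 3)) ≤ exp (-(y ^ 2 / 6)) := by
      apply exp_le_exp.2
      nlinarith
    have h3 : (0.18 : ℝ) ≤ exp (-(5 / 3)) := by
      have e1 : exp (-(5 / 3)) ^ 3 = (exp 1)⁻¹ ^ 5 := by
        rw [← exp_neg, ← exp_nat_mul, ← exp_nat_mul]
        norm_num
      have e2 : (0.3678 : ℝ) ≤ (exp 1)⁻¹ := by
        rw [le_inv_comm₀ (by norm_num) (exp_pos 1)]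
        have := exp_one_lt_d9
        norm_num at this ⊢
        linarith
      have e3 : (0.3678 : ℝ) ^ 5 ≤ exp (-(5 / 3)) ^ 3 := by
        rw [e1]
        exact pow_le_pow_left₀ (by norm_num) e2 5
      by_contra hcon
      rw [not_le] at hcon
      have e4 : exp (-(5 / 3)) ^ 3 < 0.18 ^ 3 := pow_lt_pow_left₀ hcon (exp_pos _).le (by norm_num)
      norm_num at e3 e4
      linarith
    nlinarith

lemma sinc_le_exp (y : ℝ) (hy : |y| ≤ π) : sinc y ≤ exp (-(y ^ 2 / 6)) := by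
  rw [show sinc y = sinc |y| by
    rcases abs_cases y with h | h <;> rw [h.1]
    rw [sinc_neg], ← sq_abs]
  rcases eq_or_ne |y| 0 with h | h
  · rw [h, sinc_zero]; norm_num
  · rw [sinc_of_ne_zero h]
    exact sinc_le_exp_aux _ (lt_of_le_of_ne (abs_nonneg y) h.symm) hy

lemma sinc_ge_exp (y : ℝ) (hy : |y| ≤ 0.54) : exp (-(y ^ 2 / 6 + y ^ 4 / 175)) ≤ sinc y := by
  have hy4 : y ^ 4 = |y| ^ 4 := (Even.pow_abs (by decide) y).symm
  rw [show sinc y = sinc |y| by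
    rcases abs_cases y with h | h <;> rw [h.1]
    rw [sinc_neg], hy4, ← sq_abs y]
  rcases eq_or_ne |y| 0 with h | h
  · rw [h, sinc_zero]; norm_num
  · have h0 : 0 < |y| := lt_of_le_of_ne (abs_nonneg y) h.symm
    rw [sinc_of_ne_zero h]
    generalize |y| = x at *
    rw [le_div_iff₀ h0]
    have h1 := sin_ge_P7 x h0.le
    have h2 := exp_neg_le4 (x ^ 2 / 6 + x ^ 4 / 175) (by positivity)
    obtain ⟨s, hs⟩ : ∃ s, s = x ^ 2 := ⟨_, rfl⟩
    have hs0 : 0 ≤ s := by rw [hs]; positivity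
    have hs1 : s ≤ 0.2916 := by rw [hs]; nlinarith
    have h3 : 1 - (s / 6 + s ^ 2 / 175) + (s / 6 + s ^ 2 / 175) ^ 2 / 2
        - (s / 6 + s ^ 2 / 175) ^ 3 / 6 + (s / 6 + s ^ 2 / 175) ^ 4 / 24
        ≤ 1 - s / 6 + s ^ 2 / 120 - s ^ 3 / 5040 := by
      have hA : (s / 6 + s ^ 2 / 175) ≤ 0.1687 * s := by nlinarith
      have hB : 0 ≤ s / 6 + s ^ 2 / 175 := by positivity
      have h4 : (s / 6 + s ^ 2 / 175) ^ 4 ≤ (0.1687 * s) ^ 4 := pow_le_pow_left₀ hB hA 4
      have h5 : (s / 6) ^ 3 ≤ (s / 6 + s ^ 2 / 175) ^ 3 :=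
        pow_le_pow_left₀ (by positivity) (by nlinarith [sq_nonneg s]) 3
      have h6 : s ^ 4 ≤ 0.2916 * s ^ 3 := by
        have : 0 ≤ s ^ 3 * (0.2916 - s) := mul_nonneg (by positivity) (by linarith)
        nlinarith
      have h7 : s ^ 3 ≤ 0.2916 * s ^ 2 := by
        have : 0 ≤ s ^ 2 * (0.2916 - s) := mul_nonneg (by positivity) (by linarith)
        nlinarith
      nlinarith [pow_nonneg hs0 2, pow_nonneg hs0 3, pow_nonneg hs0 4]
    have e1 : x ^ 4 = s ^ 2 := by rw [hs]; ring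
    rw [← hs, e1] at h2
    rw [← hs, e1]
    have h8 : exp (-(s / 6 + s ^ 2 / 175)) * x
        ≤ (1 - s / 6 + s ^ 2 / 120 - s ^ 3 / 5040) * x :=
      mul_le_mul_of_nonneg_right (h2.trans h3) h0.le
    have e2 : (1 - s / 6 + s ^ 2 / 120 - s ^ 3 / 5040) * x
        = x - x ^ 3 / 6 + x ^ 5 / 120 - x ^ 7 / 5040 := by rw [hs]; ring
    linarith

lemma prod_sinc_bounds {ι : Type*} (S : Finset ι) (l : ℝ) (a : ι → ℝ)
    (h : ∀ i ∈ S, |l * a i| ≤ π) :
    0 ≤ ∏ i ∈ S, sinc (l * a i) ∧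
      ∏ i ∈ S, sinc (l * a i) ≤ exp (-(l ^ 2 * (∑ i ∈ S, a i ^ 2) / 6)) := by
  constructor
  · exact Finset.prod_nonneg fun i hi => sinc_nonneg_of_abs_le_pi _ (h i hi)
  · calc ∏ i ∈ S, sinc (l * a i) ≤ ∏ i ∈ S, exp (-((l * a i) ^ 2 / 6)) :=
          Finset.prod_le_prod (fun i hi => sinc_nonneg_of_abs_le_pi _ (h i hi))
            (fun i hi => sinc_le_exp _ (h i hi))
      _ = exp (-(l ^ 2 * (∑ i ∈ S, a i ^ 2) / 6)) := by
          rw [← exp_sum]
          congr 1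
          rw [Finset.sum_neg_distrib, Finset.mul_sum, Finset.sum_div]
          congr 1
          apply Finset.sum_congr rfl
          intro i _
          ring

lemma prod_sinc_lower {ι : Type*} (S : Finset ι) (a : ι → ℝ)
    (h : ∀ i ∈ S, |a i| ≤ 0.27) (hs : ∑ i ∈ S, a i ^ 2 = 1) :
    (0.5098 : ℝ) ≤ ∏ i ∈ S, sinc (2 * a i) := by
  have h2 : ∀ i ∈ S, |2 * a i| ≤ 0.54 := by
    intro i hi
    rw [abs_mul, abs_of_pos (by norm_num : (0 : ℝ) < 2)]
    linarith [h i hi]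
  have h1 : exp (-(0.673332)) ≤ ∏ i ∈ S, sinc (2 * a i) := by
    calc exp (-(0.673332)) ≤ exp (∑ i ∈ S, -((2 * a i) ^ 2 / 6 + (2 * a i) ^ 4 / 175)) := by
          apply exp_le_exp.2
          have e : ∑ i ∈ S, -((2 * a i) ^ 2 / 6 + (2 * a i) ^ 4 / 175)
              = -(2 / 3 * ∑ i ∈ S, a i ^ 2) - 16 / 175 * ∑ i ∈ S, a i ^ 4 := by
            rw [Finset.mul_sum, Finset.mul_sum, ← Finset.sum_neg_distrib, ← Finset.sum_sub_distrib]
            apply Finset.sum_congr rfl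
            intro i _
            ring
          rw [e, hs]
          have h4 : ∑ i ∈ S, a i ^ 4 ≤ 0.0729 := by
            calc ∑ i ∈ S, a i ^ 4 ≤ ∑ i ∈ S, 0.0729 * a i ^ 2 := by
                  apply Finset.sum_le_sum
                  intro i hi
                  have h5 : a i ^ 2 ≤ 0.0729 := by
                    rw [← sq_abs]
                    have := h i hi
                    nlinarith [abs_nonneg (a i)]
                  nlinarith [sq_nonneg (a i)]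
              _ = 0.0729 := by rw [← Finset.mul_sum, hs]; ring
          linarith
      _ = ∏ i ∈ S, exp (-((2 * a i) ^ 2 / 6 + (2 * a i) ^ 4 / 175)) := exp_sum _ _
      _ ≤ ∏ i ∈ S, sinc (2 * a i) :=
          Finset.prod_le_prod (fun i hi => (exp_pos _).le) (fun i hi => sinc_ge_exp _ (h2 i hi))
  have h3 := exp_neg_ge5 0.673332 (by norm_num)
  have h4 : (0.5098 : ℝ) ≤ 1 - 0.673332 + 0.673332 ^ 2 / 2 - 0.673332 ^ 3 / 6 + 0.673332 ^ 4 / 24
      - 0.673332 ^ 5 / 120 := by norm_num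
  linarith

/-- shifting by multiples of a rational approximation of pi -/
lemma sin_shift (k : ℕ) (x : ℝ) :
    |sin x - (-1) ^ k * sin (x - k * 3.1416)| ≤ k * 0.00001 := by
  have h1 : sin x = (-1) ^ k * sin (x - k * π) := by
    rw [sin_sub_nat_mul_pi, ← mul_assoc, ← mul_pow]
    norm_num
  rw [h1, ← mul_sub, abs_mul, abs_pow, abs_neg, abs_one, one_pow, one_mul]
  refine (abs_sin_sub_sin_le _ _).trans ?_
  have e : x - k * π - (x - k * 3.1416) = k * (3.1416 - π) := by ring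
  rw [e, abs_mul, abs_of_nonneg (Nat.cast_nonneg k)]
  apply mul_le_mul_of_nonneg_left _ (Nat.cast_nonneg k)
  have hp1 := pi_gt_d6
  have hp2 := pi_lt_d6
  rw [abs_le]
  constructor <;> linarith

end Pool.Agent.Helper452
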