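import Pool.Agent.Helper452.SlabRegimeA
import Pool.Agent.Helper452.SlabTrig
import Pool.Agent.Helper452.SlabCertB

set_option autoImplicit false

namespace Pool.Agent.Helper452

open Real

lemma C_p0 (r : ℝ) (h1 : 0 ≤ r) (h2 : r ≤ (3927 / 14375)) :
    (391 / 625) * r - (19 / 500) * r ^ 3 + (593 / 1250) / 2 * sin (2 * r) - (1921 / 10000) / (23 / 4) * sin ((23 / 4) * r)
      ≤ r := by
  have hU : sin (2 * r) ≤ ((2 * r) - (2 * r) ^ 3 / 6 + (2 * r) ^ 5 / 120) := sin_le_P5 _ (by linarith)
  have hS : (((23 / 4) * r) - ((23 / 4) * r) ^ 3 / 6 + ((23 / 4) * r) ^ 5 / 120 - ((23 / 4) * r) ^ 7 / 5040) ≤ sin ((23 / 4) * r) := sin_ge_P7 _ (by linarith)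
  have hB := bern7 (r - 0) ((3927 / 14375) - r) (by linarith) (by linarith)
    0
    (4334165375041961669921875 / 19559787649149098636208)
    (4334165375041961669921875 / 3259964608191516439368)
    (667083183994268971923828125 / 208637734924257052119552)
    (614316631969379181396484375 / 156478301193192789089664)
    (34552458802282458675824032375 / 13352815035152451335651328)
    (5801094709124601863324032375 / 6676407517576225667825664)
    (466094967601916926755724733961131 / 4005844510545735400695398400000)
    (by norm_num) (by norm_num) (by norm_num) (by norm_num) (by norm_num) (by norm_num) (by norm_num) (by norm_num)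
  have hM := mul_le_mul_of_nonneg_left hS (by norm_num : (0 : ℝ) ≤ (1921 / 10000) / (23 / 4))
  have hN := mul_le_mul_of_nonneg_left hU (by norm_num : (0 : ℝ) ≤ (593 / 1250) / 2)
  linear_combination hB + hM + hN

lemma C_p1 (r : ℝ) (h1 : (3927 / 14375) ≤ r) (h2 : r ≤ (7854 / 14375)) :
    (391 / 625) * r - (19 / 500) * r ^ 3 + (593 / 1250) / 2 * sin (2 * r) - (1921 / 10000) / (23 / 4) * sin ((23 / 4) * r)
      ≤ r := by
  have hU : sin (2 * r) ≤ ((2 * r) - (2 * r) ^ 3 / 6 + (2 * r) ^ 5 / 120) := sin_le_P5 _ (by linarith)
  have hS : (-(((23 / 4) * r - 1 * 3.1416) - ((23 / 4) * r - 1 * 3.1416) ^ 3 / 6 + ((23 / 4) * r - 1 * 3.1416) ^ 5 / 120 - ((23 / 4) * r - 1 * 3.1416) ^ 7 / 5040)) - 1 * 0.00001 ≤ sin ((23 / 4) * r) := by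
    have hs := abs_le.1 (sin_shift 1 ((23 / 4) * r))
    have hz := sin_le_P7_neg ((23 / 4) * r - 1 * 3.1416) (by linarith)
    norm_num at hs hz ⊢
    linarith [hs.1, hs.2]
  have hB := bern7 (r - (3927 / 14375)) ((7854 / 14375) - r) (by linarith) (by linarith)
    (322995644552299816960467240635063783 / 2776050245808194632681911091200000)
    (1508718489618691334352729055375 / 1982893032720139023344222208)
    (2563948545418987865501044965125 / 1321928688480092682229481472)
    (9356593048519567635946493125 / 3872837954531521529969184)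
    (91594508217492343218174150625 / 61965407272504344479506944)
    (1906745021009850215230773875 / 5163783939375362039958912)
    (505830626499947032362125 / 45164291014944857492352)
    (60896582558171399005923875 / 108439462726882602839137152)
    (by norm_num) (by norm_num) (by norm_num) (by norm_num) (by norm_num) (by norm_num) (by norm_num) (by norm_num)
  have hM := mul_le_mul_of_nonneg_left hS (by norm_num : (0 : ℝ) ≤ (1921 / 10000) / (23 / 4))
  have hN := mul_le_mul_of_nonneg_left hU (by norm_num : (0 : ℝ) ≤ (593 / 1250) / 2)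
  linear_combination hB + hM + hN

lemma C_p2 (r : ℝ) (h1 : (7854 / 14375) ≤ r) (h2 : r ≤ (133 / 200)) :
    (391 / 625) * r - (19 / 500) * r ^ 3 + (593 / 1250) / 2 * sin (2 * r) - (1921 / 10000) / (23 / 4) * sin ((23 / 4) * r)
      ≤ r := by
  have hU : sin (2 * r) ≤ ((2 * r) - (2 * r) ^ 3 / 6 + (2 * r) ^ 5 / 120) := sin_le_P5 _ (by linarith)
  have hS : (-(((23 / 4) * r - 1 * 3.1416) - ((23 / 4) * r - 1 * 3.1416) ^ 3 / 6 + ((23 / 4) * r - 1 * 3.1416) ^ 5 / 120)) - 1 * 0.00001 ≤ sin ((23 / 4) * r) := by
    have hs := abs_le.1 (sin_shift 1 ((23 / 4) * r))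
    have hz := sin_le_P5 ((23 / 4) * r - 1 * 3.1416) (by linarith)
    norm_num at hs hz ⊢
    linarith [hs.1, hs.2]
  have hB := bern7 (r - (7854 / 14375)) ((133 / 200) - r) (by linarith) (by linarith)
    (16961403346762363422321965056000 / 87977001092715714900503755907)
    (3341342241968823366614102016000 / 12568143013245102128643393701)
    (32078384877559247294016774144000 / 1795449001892157446949056243)
    (3705274250286653093865031801625000 / 37704429039735306385930181103)
    (8026793612190068274341080662500000 / 37704429039735306385930181103)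
    (4394307048448387503372876164901952375 / 19304667668344476869596252724736)
    (388011316117278037499520801633984125 / 3217444611390746144932708787456)
    (3429125494028402447911629834313666625 / 135132673678411338087173769073152)
    (by norm_num) (by norm_num) (by norm_num) (by norm_num) (by norm_num) (by norm_num) (by norm_num) (by norm_num)
  have hM := mul_le_mul_of_nonneg_left hS (by norm_num : (0 : ℝ) ≤ (1921 / 10000) / (23 / 4))
  have hN := mul_le_mul_of_nonneg_left hU (by norm_num : (0 : ℝ) ≤ (593 / 1250) / 2)
  linear_combination hB + hM + hN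

lemma C_p3 (r : ℝ) (h1 : (133 / 200) ≤ r) (h2 : r ≤ (3927 / 5000)) :
    (391 / 625) * r - (19 / 500) * r ^ 3 + (593 / 1250) / 2 * sin (2 * r) - (1921 / 10000) / (23 / 4) * sin ((23 / 4) * r)
      ≤ r := by
  have hU : sin (2 * r) ≤ ((2 * r) - (2 * r) ^ 3 / 6 + (2 * r) ^ 5 / 120) := sin_le_P5 _ (by linarith)
  have hS : (-(((23 / 4) * r - 1 * 3.1416) - ((23 / 4) * r - 1 * 3.1416) ^ 3 / 6 + ((23 / 4) * r - 1 * 3.1416) ^ 5 / 120)) - 1 * 0.00001 ≤ sin ((23 / 4) * r) := by
    have hs := abs_le.1 (sin_shift 1 ((23 / 4) * r))
    have hz := sin_le_P5 ((23 / 4) * r - 1 * 3.1416) (by linarith)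
    norm_num at hs hz ⊢
    linarith [hs.1, hs.2]
  have hB := bern7 (r - (133 / 200)) ((3927 / 5000) - r) (by linarith) (by linarith)
    (23164149701755109181069124625 / 1012265628259814930448384)
    (10237531422024608124559596125 / 48203125155229282402304)
    (119745834323636520424572811375 / 144609375465687847206912)
    (254471273860376914713876364375 / 144609375465687847206912)
    (318754459664526033747073598125 / 144609375465687847206912)
    (11222834596791469816078457625 / 6886160736461326057472)
    (31787671263225508275906477375 / 48203125155229282402304)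
    (38054513844375808533403558625 / 337421876086604976816128)
    (by norm_num) (by norm_num) (by norm_num) (by norm_num) (by norm_num) (by norm_num) (by norm_num) (by norm_num)
  have hM := mul_le_mul_of_nonneg_left hS (by norm_num : (0 : ℝ) ≤ (1921 / 10000) / (23 / 4))
  have hN := mul_le_mul_of_nonneg_left hU (by norm_num : (0 : ℝ) ≤ (593 / 1250) / 2)
  linear_combination hB + hM + hN

lemma C_p4 (r : ℝ) (h1 : (3927 / 5000) ≤ r) (h2 : r ≤ (11781 / 14375)) :
    (391 / 625) * r - (19 / 500) * r ^ 3 + (593 / 1250) / 2 * sin (2 * r) - (1921 / 10000) / (23 / 4) * sin ((23 / 4) * r)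
      ≤ r := by
  have hU : sin (2 * r) ≤ (-((2 * r - 1 * 3.1416) - (2 * r - 1 * 3.1416) ^ 3 / 6 + (2 * r - 1 * 3.1416) ^ 5 / 120)) + 1 * 0.00001 := by
    have hs := abs_le.1 (sin_shift 1 (2 * r))
    have hz := sin_ge_P5_neg (2 * r - 1 * 3.1416) (by linarith)
    norm_num at hs hz ⊢
    linarith [hs.1, hs.2]
  have hS : (-(((23 / 4) * r - 1 * 3.1416) - ((23 / 4) * r - 1 * 3.1416) ^ 3 / 6 + ((23 / 4) * r - 1 * 3.1416) ^ 5 / 120)) - 1 * 0.00001 ≤ sin ((23 / 4) * r) := by
    have hs := abs_le.1 (sin_shift 1 ((23 / 4) * r))
    have hz := sin_le_P5 ((23 / 4) * r - 1 * 3.1416) (by linarith)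
    norm_num at hs hz ⊢
    linarith [hs.1, hs.2]
  have hB := bern7 (r - (3927 / 5000)) ((11781 / 14375) - r) (by linarith) (by linarith)
    (5633110737576569106336181996815492625 / 7373883465428016993061326336)
    (2954407749831984842961790361200242875 / 526705961816286928075809024)
    (6192448458449759194997330653397840125 / 351137307877524618717206016)
    (4052522529988125738865095850237613125 / 131676490454071732018952256)
    (37854867868947823231122256830473125 / 1175682950482783321597788)
    (13849840716055022083856157577142750 / 685815054448290270932043)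
    (14466019904824538523980272384559000 / 2057445163344870812796129)
    (15097690277240193268149175479704000 / 14402116143414095689572903)
    (by norm_num) (by norm_num) (by norm_num) (by norm_num) (by norm_num) (by norm_num) (by norm_num) (by norm_num)
  have hM := mul_le_mul_of_nonneg_left hS (by norm_num : (0 : ℝ) ≤ (1921 / 10000) / (23 / 4))
  have hN := mul_le_mul_of_nonneg_left hU (by norm_num : (0 : ℝ) ≤ (593 / 1250) / 2)
  linear_combination hB + hM + hN

lemma C_p5 (r : ℝ) (h1 : (11781 / 14375) ≤ r) (h2 : r ≤ (2071 / 2500)) :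
    (391 / 625) * r - (19 / 500) * r ^ 3 + (593 / 1250) / 2 * sin (2 * r) - (1921 / 10000) / (23 / 4) * sin ((23 / 4) * r)
      ≤ r := by
  have hU : sin (2 * r) ≤ (-((2 * r - 1 * 3.1416) - (2 * r - 1 * 3.1416) ^ 3 / 6 + (2 * r - 1 * 3.1416) ^ 5 / 120)) + 1 * 0.00001 := by
    have hs := abs_le.1 (sin_shift 1 (2 * r))
    have hz := sin_ge_P5_neg (2 * r - 1 * 3.1416) (by linarith)
    norm_num at hs hz ⊢
    linarith [hs.1, hs.2]
  have hS : (((23 / 4) * r - 2 * 3.1416) - ((23 / 4) * r - 2 * 3.1416) ^ 3 / 6 + ((23 / 4) * r - 2 * 3.1416) ^ 5 / 120) - 2 * 0.00001 ≤ sin ((23 / 4) * r) := by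
    have hs := abs_le.1 (sin_shift 2 ((23 / 4) * r))
    have hz := sin_ge_P5_neg ((23 / 4) * r - 2 * 3.1416) (by linarith)
    norm_num at hs hz ⊢
    linarith [hs.1, hs.2]
  have hB := bern7 (r - (11781 / 14375)) ((2071 / 2500) - r) (by linarith) (by linarith)
    (235900022022587155557018366870375 / 17703309907494152938)
    (6677969489665808349706807987479875 / 70813239629976611752)
    (40507162849181761359257768181552375 / 141626479259953223504)
    (818984918926694502170526751241250625 / 1699517751119438682048)
    (6623051267282648874936730270161685625 / 13596142008955509456384)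
    (16067189815353823774566736819009035125 / 54384568035822037825536)
    (902228451718351033382677981917347125 / 9064094672637006304256)
    (781623392108497147270710983779130125 / 54384568035822037825536)
    (by norm_num) (by norm_num) (by norm_num) (by norm_num) (by norm_num) (by norm_num) (by norm_num) (by norm_num)
  have hM := mul_le_mul_of_nonneg_left hS (by norm_num : (0 : ℝ) ≤ (1921 / 10000) / (23 / 4))
  have hN := mul_le_mul_of_nonneg_left hU (by norm_num : (0 : ℝ) ≤ (593 / 1250) / 2)
  linear_combination hB + hM + hN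

lemma C_p6 (r : ℝ) (h1 : (2071 / 2500) ≤ r) (h2 : r ≤ (15708 / 14375)) :
    (391 / 625) * r - (19 / 500) * r ^ 3 + (593 / 1250) / 2 * sin (2 * r) - (1921 / 10000) / (23 / 4) * sin ((23 / 4) * r)
      ≤ (2071 / 2500) := by
  have hU : sin (2 * r) ≤ (-((2 * r - 1 * 3.1416) - (2 * r - 1 * 3.1416) ^ 3 / 6 + (2 * r - 1 * 3.1416) ^ 5 / 120)) + 1 * 0.00001 := by
    have hs := abs_le.1 (sin_shift 1 (2 * r))
    have hz := sin_ge_P5_neg (2 * r - 1 * 3.1416) (by linarith)
    norm_num at hs hz ⊢
    linarith [hs.1, hs.2]
  have hS : (((23 / 4) * r - 2 * 3.1416) - ((23 / 4) * r - 2 * 3.1416) ^ 3 / 6 + ((23 / 4) * r - 2 * 3.1416) ^ 5 / 120) - 2 * 0.00001 ≤ sin ((23 / 4) * r) := by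
    have hs := abs_le.1 (sin_shift 2 ((23 / 4) * r))
    have hz := sin_ge_P5_neg ((23 / 4) * r - 2 * 3.1416) (by linarith)
    norm_num at hs hz ⊢
    linarith [hs.1, hs.2]
  have hB := bern7 (r - (2071 / 2500)) ((15708 / 14375) - r) (by linarith) (by linarith)
    (781623392108497147270710983779130125 / 1151214661555772127881799268755456)
    (638011526868716334969993794842003375 / 191869110259295354646966544792576)
    (7496608661126531311985085654081210125 / 1151214661555772127881799268755456)
    (3649472294466938318124413675938750 / 562116533962779359317284799197)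
    (3882966710828045601757482376169375 / 1124233067925558718634569598394)
    (174604997881823114457458959578000 / 187372177987593119772428266399)
    (20761300693830812504693705476000 / 187372177987593119772428266399)
    (1137023001193809719874168698000 / 187372177987593119772428266399)
    (by norm_num) (by norm_num) (by norm_num) (by norm_num) (by norm_num) (by norm_num) (by norm_num) (by norm_num)
  have hM := mul_le_mul_of_nonneg_left hS (by norm_num : (0 : ℝ) ≤ (1921 / 10000) / (23 / 4))
  have hN := mul_le_mul_of_nonneg_left hU (by norm_num : (0 : ℝ) ≤ (593 / 1250) / 2)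
  linear_combination hB + hM + hN

lemma C_p7 (r : ℝ) (h1 : (15708 / 14375) ≤ r) (h2 : r ≤ (1229 / 1000)) :
    (391 / 625) * r - (19 / 500) * r ^ 3 + (593 / 1250) / 2 * sin (2 * r) - (1921 / 10000) / (23 / 4) * sin ((23 / 4) * r)
      ≤ (2071 / 2500) := by
  have hU : sin (2 * r) ≤ (-((2 * r - 1 * 3.1416) - (2 * r - 1 * 3.1416) ^ 3 / 6 + (2 * r - 1 * 3.1416) ^ 5 / 120)) + 1 * 0.00001 := by
    have hs := abs_le.1 (sin_shift 1 (2 * r))
    have hz := sin_ge_P5_neg (2 * r - 1 * 3.1416) (by linarith)
    norm_num at hs hz ⊢
    linarith [hs.1, hs.2]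
  have hS : (((23 / 4) * r - 2 * 3.1416) - ((23 / 4) * r - 2 * 3.1416) ^ 3 / 6 + ((23 / 4) * r - 2 * 3.1416) ^ 5 / 120 - ((23 / 4) * r - 2 * 3.1416) ^ 7 / 5040) - 2 * 0.00001 ≤ sin ((23 / 4) * r) := by
    have hs := abs_le.1 (sin_shift 2 ((23 / 4) * r))
    have hz := sin_ge_P7 ((23 / 4) * r - 2 * 3.1416) (by linarith)
    norm_num at hs hz ⊢
    linarith [hs.1, hs.2]
  have hB := bern7 (r - (15708 / 14375)) ((1229 / 1000) - r) (by linarith) (by linarith)
    (145538944152807644143893593344000 / 232100980054273303989530891591)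
    (173991427103196482434376938368000 / 232100980054273303989530891591)
    (502086799522439467115201852544000 / 232100980054273303989530891591)
    (12575752114244386435504682595085000 / 696302940162819911968592674773)
    (30356695903035204889671635207140000 / 696302940162819911968592674773)
    (16427779761801392733441823292777580875 / 356507105363363794927919449483776)
    (1360909765138825010182821430491513625 / 59417850893893965821319908247296)
    (210810869702252230603432081478951658249644521 / 47914554960836094038312374010619494400000)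
    (by norm_num) (by norm_num) (by norm_num) (by norm_num) (by norm_num) (by norm_num) (by norm_num) (by norm_num)
  have hM := mul_le_mul_of_nonneg_left hS (by norm_num : (0 : ℝ) ≤ (1921 / 10000) / (23 / 4))
  have hN := mul_le_mul_of_nonneg_left hU (by norm_num : (0 : ℝ) ≤ (593 / 1250) / 2)
  linear_combination hB + hM + hN

lemma C_p8 (r : ℝ) (h1 : (1229 / 1000) ≤ r) (h2 : r ≤ (3927 / 2875)) :
    (391 / 625) * r - (19 / 500) * r ^ 3 + (593 / 1250) / 2 * sin (2 * r) - (1921 / 10000) / (23 / 4) * sin ((23 / 4) * r)
      ≤ (2071 / 2500) := by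
  have hU : sin (2 * r) ≤ (-((2 * r - 1 * 3.1416) - (2 * r - 1 * 3.1416) ^ 3 / 6 + (2 * r - 1 * 3.1416) ^ 5 / 120)) + 1 * 0.00001 := by
    have hs := abs_le.1 (sin_shift 1 (2 * r))
    have hz := sin_ge_P5_neg (2 * r - 1 * 3.1416) (by linarith)
    norm_num at hs hz ⊢
    linarith [hs.1, hs.2]
  have hS : (((23 / 4) * r - 2 * 3.1416) - ((23 / 4) * r - 2 * 3.1416) ^ 3 / 6 + ((23 / 4) * r - 2 * 3.1416) ^ 5 / 120 - ((23 / 4) * r - 2 * 3.1416) ^ 7 / 5040) - 2 * 0.00001 ≤ sin ((23 / 4) * r) := by
    have hs := abs_le.1 (sin_shift 2 ((23 / 4) * r))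
    have hz := sin_ge_P7 ((23 / 4) * r - 2 * 3.1416) (by linarith)
    norm_num at hs hz ⊢
    linarith [hs.1, hs.2]
  have hB := bern7 (r - (1229 / 1000)) ((3927 / 2875) - r) (by linarith) (by linarith)
    (210810869702252230603432081478951658249644521 / 49520969579532428668043926272000000000000)
    (11045837025723714561311702011685347899035459 / 294767676068645408738356704000000000000)
    (5028234852385474002283818920475543485632649 / 36845959508580676092294588000000000000)
    (245499926328229726472719486499526104751971 / 921148987714516902307364700000000000)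
    (34800562168700956066358509630305238477027 / 115143623464314612788420587500000000)
    (4789316026386917544376491160918234461699 / 23988254888398877664254289062500000)
    (213957028315072494536225632183077561921 / 2998531861049859708031786132812500)
    (7999779894130610115606608927992168622 / 749632965262464927007946533203125)
    (by norm_num) (by norm_num) (by norm_num) (by norm_num) (by norm_num) (by norm_num) (by norm_num) (by norm_num)
  have hM := mul_le_mul_of_nonneg_left hS (by norm_num : (0 : ℝ) ≤ (1921 / 10000) / (23 / 4))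
  have hN := mul_le_mul_of_nonneg_left hU (by norm_num : (0 : ℝ) ≤ (593 / 1250) / 2)
  linear_combination hB + hM + hN

lemma C_p9 (r : ℝ) (h1 : (3927 / 2875) ≤ r) (h2 : r ≤ (3927 / 2500)) :
    (391 / 625) * r - (19 / 500) * r ^ 3 + (593 / 1250) / 2 * sin (2 * r) - (1921 / 10000) / (23 / 4) * sin ((23 / 4) * r)
      ≤ (2071 / 2500) := by
  have hU : sin (2 * r) ≤ (-((2 * r - 1 * 3.1416) - (2 * r - 1 * 3.1416) ^ 3 / 6 + (2 * r - 1 * 3.1416) ^ 5 / 120)) + 1 * 0.00001 := by
    have hs := abs_le.1 (sin_shift 1 (2 * r))
    have hz := sin_ge_P5_neg (2 * r - 1 * 3.1416) (by linarith)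
    norm_num at hs hz ⊢
    linarith [hs.1, hs.2]
  have hS : (-(((23 / 4) * r - 3 * 3.1416) - ((23 / 4) * r - 3 * 3.1416) ^ 3 / 6 + ((23 / 4) * r - 3 * 3.1416) ^ 5 / 120 - ((23 / 4) * r - 3 * 3.1416) ^ 7 / 5040)) - 3 * 0.00001 ≤ sin ((23 / 4) * r) := by
    have hs := abs_le.1 (sin_shift 3 ((23 / 4) * r))
    have hz := sin_le_P7_neg ((23 / 4) * r - 3 * 3.1416) (by linarith)
    norm_num at hs hz ⊢
    linarith [hs.1, hs.2]
  have hB := bern7 (r - (3927 / 2875)) ((3927 / 2500) - r) (by linarith) (by linarith)
    (3999751091136218632022054463996084311 / 6299485601129325454619187772200000)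
    (2441234606778162827765475208631583473 / 514243722541169424866872471200000)
    (69919975423707313993523147550058584311 / 4799608077050914632090809731200000)
    (273261715775755250305285268590108584311 / 11519059384922195117017943354880000)
    (1017817854148504942124540008938171084311 / 46076237539688780468071773419520000)
    (3609005296168248526722522572355846084311 / 307174916931258536453811822796800000)
    (12184377890145871271979461396343133584311 / 3686099003175102437445741873561600000)
    (39291521084818864144848991480900033584311 / 103210772088902868248480772459724800000)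
    (by norm_num) (by norm_num) (by norm_num) (by norm_num) (by norm_num) (by norm_num) (by norm_num) (by norm_num)
  have hM := mul_le_mul_of_nonneg_left hS (by norm_num : (0 : ℝ) ≤ (1921 / 10000) / (23 / 4))
  have hN := mul_le_mul_of_nonneg_left hU (by norm_num : (0 : ℝ) ≤ (593 / 1250) / 2)
  linear_combination hB + hM + hN

lemma C_p10 (r : ℝ) (h1 : (3927 / 2500) ≤ r) (h2 : r ≤ (23562 / 14375)) :
    (391 / 625) * r - (19 / 500) * r ^ 3 + (593 / 1250) / 2 * sin (2 * r) - (1921 / 10000) / (23 / 4) * sin ((23 / 4) * r)
      ≤ (2071 / 2500) := by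
  have hU : sin (2 * r) ≤ (-((2 * r - 1 * 3.1416) - (2 * r - 1 * 3.1416) ^ 3 / 6 + (2 * r - 1 * 3.1416) ^ 5 / 120 - (2 * r - 1 * 3.1416) ^ 7 / 5040)) + 1 * 0.00001 := by
    have hs := abs_le.1 (sin_shift 1 (2 * r))
    have hz := sin_ge_P7 (2 * r - 1 * 3.1416) (by linarith)
    norm_num at hs hz ⊢
    linarith [hs.1, hs.2]
  have hS : (-(((23 / 4) * r - 3 * 3.1416) - ((23 / 4) * r - 3 * 3.1416) ^ 3 / 6 + ((23 / 4) * r - 3 * 3.1416) ^ 5 / 120 - ((23 / 4) * r - 3 * 3.1416) ^ 7 / 5040)) - 3 * 0.00001 ≤ sin ((23 / 4) * r) := by
    have hs := abs_le.1 (sin_shift 3 ((23 / 4) * r))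
    have hz := sin_le_P7_neg ((23 / 4) * r - 3 * 3.1416) (by linarith)
    norm_num at hs hz ⊢
    linarith [hs.1, hs.2]
  have hB := bern7 (r - (3927 / 2500)) ((23562 / 14375) - r) (by linarith) (by linarith)
    (39291521084818864144848991480900033584311 / 47192854178739308755592488550400000)
    (11294642997780413697028970868565375 / 2106823847265147712303236096)
    (20590856222994855697347323622855125 / 1404549231510098474868824064)
    (6483334081895611652071777343750 / 293920737620695830399447)
    (81115273923867724721001220703125 / 4114890326689741625592258)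
    (7173218438454234270144564466000 / 685815054448290270932043)
    (6276527143070640572242386796000 / 2057445163344870812796129)
    (16988336284572074036020768472782334 / 45006612948169049029915321875)
    (by norm_num) (by norm_num) (by norm_num) (by norm_num) (by norm_num) (by norm_num) (by norm_num) (by norm_num)
  have hM := mul_le_mul_of_nonneg_left hS (by norm_num : (0 : ℝ) ≤ (1921 / 10000) / (23 / 4))
  have hN := mul_le_mul_of_nonneg_left hU (by norm_num : (0 : ℝ) ≤ (593 / 1250) / 2)
  linear_combination hB + hM + hN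

lemma C_p11 (r : ℝ) (h1 : (23562 / 14375) ≤ r) (h2 : r ≤ (1769 / 1000)) :
    (391 / 625) * r - (19 / 500) * r ^ 3 + (593 / 1250) / 2 * sin (2 * r) - (1921 / 10000) / (23 / 4) * sin ((23 / 4) * r)
      ≤ (2071 / 2500) := by
  have hU : sin (2 * r) ≤ (-((2 * r - 1 * 3.1416) - (2 * r - 1 * 3.1416) ^ 3 / 6 + (2 * r - 1 * 3.1416) ^ 5 / 120 - (2 * r - 1 * 3.1416) ^ 7 / 5040)) + 1 * 0.00001 := by
    have hs := abs_le.1 (sin_shift 1 (2 * r))
    have hz := sin_ge_P7 (2 * r - 1 * 3.1416) (by linarith)
    norm_num at hs hz ⊢
    linarith [hs.1, hs.2]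
  have hS : (-(((23 / 4) * r - 3 * 3.1416) - ((23 / 4) * r - 3 * 3.1416) ^ 3 / 6 + ((23 / 4) * r - 3 * 3.1416) ^ 5 / 120)) - 3 * 0.00001 ≤ sin ((23 / 4) * r) := by
    have hs := abs_le.1 (sin_shift 3 ((23 / 4) * r))
    have hz := sin_le_P5 ((23 / 4) * r - 3 * 3.1416) (by linarith)
    norm_num at hs hz ⊢
    linarith [hs.1, hs.2]
  have hB := bern7 (r - (23562 / 14375)) ((1769 / 1000) - r) (by linarith) (by linarith)
    (2174507044425225476610658364516138752 / 518920362176469631560437715559375)
    (10746455853343355155878012089339349888 / 518920362176469631560437715559375)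
    (20529087359421390433153433944095722688 / 518920362176469631560437715559375)
    (3796716013613755469416037237378377832 / 103784072435293926312087543111875)
    (1893982858993879406743896228889287344 / 103784072435293926312087543111875)
    (2158111827733998637901103452987778821303 / 265687225434352451358944110366400000)
    (1971025322553881074904182800678066725413 / 398530838151528677038416165549600000)
    (25638575474344861602350322047513589185801 / 16738295202364204435613478953083200000)
    (by norm_num) (by norm_num) (by norm_num) (by norm_num) (by norm_num) (by norm_num) (by norm_num) (by norm_num)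
  have hM := mul_le_mul_of_nonneg_left hS (by norm_num : (0 : ℝ) ≤ (1921 / 10000) / (23 / 4))
  have hN := mul_le_mul_of_nonneg_left hU (by norm_num : (0 : ℝ) ≤ (593 / 1250) / 2)
  linear_combination hB + hM + hN

lemma C_p12 (r : ℝ) (h1 : (1769 / 1000) ≤ r) (h2 : r ≤ (19 / 10)) :
    (391 / 625) * r - (19 / 500) * r ^ 3 + (593 / 1250) / 2 * sin (2 * r) - (1921 / 10000) / (23 / 4) * sin ((23 / 4) * r)
      ≤ (2071 / 2500) := by
  have hU : sin (2 * r) ≤ (-((2 * r - 1 * 3.1416) - (2 * r - 1 * 3.1416) ^ 3 / 6 + (2 * r - 1 * 3.1416) ^ 5 / 120 - (2 * r - 1 * 3.1416) ^ 7 / 5040)) + 1 * 0.00001 := by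
    have hs := abs_le.1 (sin_shift 1 (2 * r))
    have hz := sin_ge_P7 (2 * r - 1 * 3.1416) (by linarith)
    norm_num at hs hz ⊢
    linarith [hs.1, hs.2]
  have hS : (-(((23 / 4) * r - 3 * 3.1416) - ((23 / 4) * r - 3 * 3.1416) ^ 3 / 6 + ((23 / 4) * r - 3 * 3.1416) ^ 5 / 120)) - 3 * 0.00001 ≤ sin ((23 / 4) * r) := by
    have hs := abs_le.1 (sin_shift 3 ((23 / 4) * r))
    have hz := sin_le_P5 ((23 / 4) * r - 3 * 3.1416) (by linarith)
    norm_num at hs hz ⊢
    linarith [hs.1, hs.2]
  have hB := bern7 (r - (1769 / 1000)) ((19 / 10) - r) (by linarith) (by linarith)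
    (173191620272195356643214552165209 / 119916092391784392375000000000)
    (133641569613238439330440789742777 / 8565435170841742312500000000)
    (419495209883874237550125725004749 / 5710290113894494875000000000)
    (158938839808621737593620294496761 / 856543517084174231250000000)
    (28760997204132575626019686506127 / 107067939635521778906250000)
    (9963836683451293830990690584603 / 44611641514800741210937500)
    (6641144818226847662783054497859 / 66917462272201111816406250)
    (4278566670752583629289551615102 / 234211117952703891357421875)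
    (by norm_num) (by norm_num) (by norm_num) (by norm_num) (by norm_num) (by norm_num) (by norm_num) (by norm_num)
  have hM := mul_le_mul_of_nonneg_left hS (by norm_num : (0 : ℝ) ≤ (1921 / 10000) / (23 / 4))
  have hN := mul_le_mul_of_nonneg_left hU (by norm_num : (0 : ℝ) ≤ (593 / 1250) / 2)
  linear_combination hB + hM + hN

lemma C_p13 (r : ℝ) (h1 : (19 / 10) ≤ r) (h2 : r ≤ (11781 / 5000)) :
    (391 / 625) * r - (19 / 500) * r ^ 3 + (593 / 1250) / 2 * sin (2 * r) - (1921 / 10000) / (23 / 4) * sin ((23 / 4) * r)
      ≤ (2071 / 2500) := by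
  have hU : sin (2 * r) ≤ (-((2 * r - 1 * 3.1416) - (2 * r - 1 * 3.1416) ^ 3 / 6 + (2 * r - 1 * 3.1416) ^ 5 / 120 - (2 * r - 1 * 3.1416) ^ 7 / 5040)) + 1 * 0.00001 := by
    have hs := abs_le.1 (sin_shift 1 (2 * r))
    have hz := sin_ge_P7 (2 * r - 1 * 3.1416) (by linarith)
    norm_num at hs hz ⊢
    linarith [hs.1, hs.2]
  have hS := neg_one_le_sin ((23 / 4) * r)
  have hB := bern7 (r - (19 / 10)) ((11781 / 5000) - r) (by linarith) (by linarith)
    (4288357463955848531889427396352 / 1454773576023577371270378403125)
    (2668097781138505640965055444608 / 69274932191598922441446590625)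
    (11461957719695872662463488817088 / 69274932191598922441446590625)
    (4819240688908702730333904533152 / 13854986438319784488289318125)
    (5610081606123780883349389065424 / 13854986438319784488289318125)
    (6158987519347979595902384301288 / 23091644063866307480482196875)
    (2151584130687475229746443727452 / 23091644063866307480482196875)
    (309881511982172514938780243682 / 23091644063866307480482196875)
    (by norm_num) (by norm_num) (by norm_num) (by norm_num) (by norm_num) (by norm_num) (by norm_num) (by norm_num)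
  have hM := mul_le_mul_of_nonneg_left hS (by norm_num : (0 : ℝ) ≤ (1921 / 10000) / (23 / 4))
  have hN := mul_le_mul_of_nonneg_left hU (by norm_num : (0 : ℝ) ≤ (593 / 1250) / 2)
  linear_combination hB + hM + hN

lemma C_p14 (r : ℝ) (h1 : (11781 / 5000) ≤ r) (h2 : r ≤ (3927 / 1250)) :
    (391 / 625) * r - (19 / 500) * r ^ 3 + (593 / 1250) / 2 * sin (2 * r) - (1921 / 10000) / (23 / 4) * sin ((23 / 4) * r)
      ≤ (2071 / 2500) := by
  have hU : sin (2 * r) ≤ ((2 * r - 2 * 3.1416) - (2 * r - 2 * 3.1416) ^ 3 / 6 + (2 * r - 2 * 3.1416) ^ 5 / 120 - (2 * r - 2 * 3.1416) ^ 7 / 5040) + 2 * 0.00001 := by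
    have hs := abs_le.1 (sin_shift 2 (2 * r))
    have hz := sin_le_P7_neg (2 * r - 2 * 3.1416) (by linarith)
    norm_num at hs hz ⊢
    linarith [hs.1, hs.2]
  have hS := neg_one_le_sin ((23 / 4) * r)
  have hB := bern7 (r - (11781 / 5000)) ((3927 / 1250) - r) (by linarith) (by linarith)
    (309868192646235014938780243682 / 1035152097807888127688052403125)
    (100713732789630172589008000 / 47321238756932028694310967)
    (13042043204679266014024000 / 2253392321758668033062427)
    (360008746588697000000000000 / 47321238756932028694310967)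
    (233976103982411750000000000 / 47321238756932028694310967)
    (22868806000585000000000000 / 15773746252310676231436989)
    (9034064951500000000000000 / 47321238756932028694310967)
    (14102557670680000000000000 / 331248671298524200860176769)
    (by norm_num) (by norm_num) (by norm_num) (by norm_num) (by norm_num) (by norm_num) (by norm_num) (by norm_num)
  have hM := mul_le_mul_of_nonneg_left hS (by norm_num : (0 : ℝ) ≤ (1921 / 10000) / (23 / 4))
  have hN := mul_le_mul_of_nonneg_left hU (by norm_num : (0 : ℝ) ≤ (593 / 1250) / 2)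
  linear_combination hB + hM + hN

lemma C_p15 (r : ℝ) (h1 : (3927 / 1250) ≤ r) (h2 : r ≤ (3927 / 1000)) :
    (391 / 625) * r - (19 / 500) * r ^ 3 + (593 / 1250) / 2 * sin (2 * r) - (1921 / 10000) / (23 / 4) * sin ((23 / 4) * r)
      ≤ (2071 / 2500) := by
  have hU : sin (2 * r) ≤ ((2 * r - 2 * 3.1416) - (2 * r - 2 * 3.1416) ^ 3 / 6 + (2 * r - 2 * 3.1416) ^ 5 / 120) + 2 * 0.00001 := by
    have hs := abs_le.1 (sin_shift 2 (2 * r))
    have hz := sin_le_P5 (2 * r - 2 * 3.1416) (by linarith)
    norm_num at hs hz ⊢
    linarith [hs.1, hs.2]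
  have hS := neg_one_le_sin ((23 / 4) * r)
  have hB := bern7 (r - (3927 / 1250)) ((3927 / 1000) - r) (by linarith) (by linarith)
    (14102557670680000000000000 / 331248671298524200860176769)
    (19171050389860000000000000 / 47321238756932028694310967)
    (6163253839615000000000000 / 2253392321758668033062427)
    (474146485772338250000000000 / 47321238756932028694310967)
    (915210856214003000000000000 / 47321238756932028694310967)
    (314975488273905137901832000 / 15773746252310676231436989)
    (494588395599679827410992000 / 47321238756932028694310967)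
    (720987627902469145938472000 / 331248671298524200860176769)
    (by norm_num) (by norm_num) (by norm_num) (by norm_num) (by norm_num) (by norm_num) (by norm_num) (by norm_num)
  have hM := mul_le_mul_of_nonneg_left hS (by norm_num : (0 : ℝ) ≤ (1921 / 10000) / (23 / 4))
  have hN := mul_le_mul_of_nonneg_left hU (by norm_num : (0 : ℝ) ≤ (593 / 1250) / 2)
  linear_combination hB + hM + hN

lemma C_p16 (r : ℝ) (h1 : (3927 / 1000) ≤ r) (h2 : r ≤ 4) :
    (391 / 625) * r - (19 / 500) * r ^ 3 + (593 / 1250) / 2 * sin (2 * r) - (1921 / 10000) / (23 / 4) * sin ((23 / 4) * r)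
      ≤ (2071 / 2500) := by
  have hU : sin (2 * r) ≤ (-((2 * r - 3 * 3.1416) - (2 * r - 3 * 3.1416) ^ 3 / 6 + (2 * r - 3 * 3.1416) ^ 5 / 120)) + 3 * 0.00001 := by
    have hs := abs_le.1 (sin_shift 3 (2 * r))
    have hz := sin_ge_P5_neg (2 * r - 3 * 3.1416) (by linarith)
    norm_num at hs hz ⊢
    linarith [hs.1, hs.2]
  have hS := neg_one_le_sin ((23 / 4) * r)
  have hB := bern7 (r - (3927 / 1000)) (4 - r) (by linarith) (by linarith)
    (5767866925719753167507776 / 158806353712019375)
    (41573353116938223491448832 / 158806353712019375)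
    (128382816758571784931973696 / 158806353712019375)
    (132113853163640261329376896 / 95283812227211625)
    (135913483225481699542468096 / 95283812227211625)
    (419345887943220285038117888 / 476419061136058125)
    (47906496687738911958520832 / 158806353712019375)
    (21103744131263585726998528 / 476419061136058125)
    (by norm_num) (by norm_num) (by norm_num) (by norm_num) (by norm_num) (by norm_num) (by norm_num) (by norm_num)
  have hM := mul_le_mul_of_nonneg_left hS (by norm_num : (0 : ℝ) ≤ (1921 / 10000) / (23 / 4))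
  have hN := mul_le_mul_of_nonneg_left hU (by norm_num : (0 : ℝ) ≤ (593 / 1250) / 2)
  linear_combination hB + hM + hN

lemma C_tail (r : ℝ) (h1 : 4 ≤ r) :
    (391 / 625) * r - (19 / 500) * r ^ 3 + (593 / 1250) / 2 * sin (2 * r) - (1921 / 10000) / (23 / 4) * sin ((23 / 4) * r)
      ≤ (2071 / 2500) := by
  have hS := neg_one_le_sin ((23 / 4) * r)
  have hU := sin_le_one (2 * r)
  have hM := mul_le_mul_of_nonneg_left hS (by norm_num : (0 : ℝ) ≤ (1921 / 10000) / (23 / 4))
  have hN := mul_le_mul_of_nonneg_left hU (by norm_num : (0 : ℝ) ≤ (593 / 1250) / 2)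
  have hx : 0 ≤ r - 4 := by linarith
  nlinarith [pow_nonneg hx 2, pow_nonneg hx 3]

lemma C_ineq (r : ℝ) (hr : 0 ≤ r) :
    (391 / 625) * r - (19 / 500) * r ^ 3 + (593 / 1250) / 2 * sin (2 * r) - (1921 / 10000) / (23 / 4) * sin ((23 / 4) * r)
      ≤ clamp (2071 / 2500) r := by
  rcases le_total r (2071 / 2500) with h | h
  · refine le_trans ?_ (le_clamp (2071 / 2500) r h)
    rcases le_total r (3927 / 14375) with g0 | g0
    · exact C_p0 r (by linarith) (by linarith)
    rcases le_total r (7854 / 14375) with g1 | g1
    · exact C_p1 r (by linarith) (by linarith)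
    rcases le_total r (133 / 200) with g2 | g2
    · exact C_p2 r (by linarith) (by linarith)
    rcases le_total r (3927 / 5000) with g3 | g3
    · exact C_p3 r (by linarith) (by linarith)
    rcases le_total r (11781 / 14375) with g4 | g4
    · exact C_p4 r (by linarith) (by linarith)
    exact C_p5 r (by linarith) (by linarith)
  · rw [clamp_of_ge (2071 / 2500) r (by norm_num) h]
    rcases le_total r (15708 / 14375) with g0 | g0
    · exact C_p6 r (by linarith) (by linarith)
    rcases le_total r (1229 / 1000) with g1 | g1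
    · exact C_p7 r (by linarith) (by linarith)
    rcases le_total r (3927 / 2875) with g2 | g2
    · exact C_p8 r (by linarith) (by linarith)
    rcases le_total r (3927 / 2500) with g3 | g3
    · exact C_p9 r (by linarith) (by linarith)
    rcases le_total r (23562 / 14375) with g4 | g4
    · exact C_p10 r (by linarith) (by linarith)
    rcases le_total r (1769 / 1000) with g5 | g5
    · exact C_p11 r (by linarith) (by linarith)
    rcases le_total r (19 / 10) with g6 | g6
    · exact C_p12 r (by linarith) (by linarith)
    rcases le_total r (11781 / 5000) with g7 | g7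
    · exact C_p13 r (by linarith) (by linarith)
    rcases le_total r (3927 / 1250) with g8 | g8
    · exact C_p14 r (by linarith) (by linarith)
    rcases le_total r (3927 / 1000) with g9 | g9
    · exact C_p15 r (by linarith) (by linarith)
    rcases le_total r 4 with g10 | g10
    · exact C_p16 r (by linarith) (by linarith)
    exact C_tail r (by linarith)

end Pool.Agent.Helper452
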