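import Pool.Agent.Helper452.SlabBasic

set_option autoImplicit false

namespace Pool.Agent.Helper452

open MeasureTheory Set intervalIntegral

/-- the cube `[-1,1]^n` -/
abbrev cube (n : ℕ) : Set (Fin n → ℝ) := Icc (fun _ => -1) (fun _ => 1)

/-- average of `f (r + <a,x>)` over the cube -/
noncomputable def cubeAvg {n : ℕ} (a : Fin n → ℝ) (f : ℝ → ℝ) (r : ℝ) : ℝ :=
  (1 / 2 ^ n) * ∫ x in cube n, f (r + ∑ i, a i * x i)

lemma cubeAvg_zero (a : Fin 0 → ℝ) (f : ℝ → ℝ) (r : ℝ) : cubeAvg a f r = f r := by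
  unfold cubeAvg
  have h : cube 0 = univ := by
    ext x
    simp [cube]
  rw [h]
  have hv : (volume : Measure (Fin 0 → ℝ)).real univ = 1 := by
    rw [Measure.real, volume_pi, Measure.pi_of_empty]
    simp
  simp [hv]

lemma cubeAvg_succ {n : ℕ} (p : Fin (n + 1)) (a : Fin (n + 1) → ℝ) {f : ℝ → ℝ}
    (hf : Continuous f) (r : ℝ) :
    cubeAvg a f r = cubeAvg (fun j => a (p.succAbove j)) (Aop (a p) f) r := by
  unfold cubeAvg
  have hmp := volume_preserving_piFinSuccAbove (fun _ : Fin (n + 1) => ℝ) p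
  set e := MeasurableEquiv.piFinSuccAbove (fun _ : Fin (n + 1) => ℝ) p with he
  have hpre : cube (n + 1) = e ⁻¹' (Icc (-1 : ℝ) 1 ×ˢ cube n) := by
    ext x
    simp only [cube, mem_Icc, Pi.le_def, mem_preimage, mem_prod]
    rw [Fin.forall_iff_succAbove p (P := fun i => -1 ≤ x i),
      Fin.forall_iff_succAbove p (P := fun i => x i ≤ 1)]
    have e1 : (e x).1 = x p := rfl
    have e2 : ∀ j, (e x).2 j = x (p.succAbove j) := fun j => rfl
    simp only [e1, e2]
    tauto
  have hfun : ∀ x : Fin (n + 1) → ℝ, f (r + ∑ i, a i * x i)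
      = (fun y : ℝ × (Fin n → ℝ) => f (r + (a p * y.1 + ∑ j, a (p.succAbove j) * y.2 j))) (e x) := by
    intro x
    have e1 : (e x).1 = x p := rfl
    have e2 : ∀ j, (e x).2 j = x (p.succAbove j) := fun j => rfl
    simp only [e1, e2]
    rw [Fin.sum_univ_succAbove _ p]
  have hcont : Continuous (fun y : ℝ × (Fin n → ℝ) =>
      f (r + (a p * y.1 + ∑ j, a (p.succAbove j) * y.2 j))) := by fun_prop
  have hint : IntegrableOn (fun y : ℝ × (Fin n → ℝ) =>
      f (r + (a p * y.1 + ∑ j, a (p.succAbove j) * y.2 j))) (Icc (-1 : ℝ) 1 ×ˢ cube n)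
      (volume.prod volume) := by
    apply ContinuousOn.integrableOn_compact
    · exact isCompact_Icc.prod isCompact_Icc
    · exact hcont.continuousOn
  have h1 : ∫ x in cube (n + 1), f (r + ∑ i, a i * x i)
      = ∫ y in (Icc (-1 : ℝ) 1 ×ˢ cube n), f (r + (a p * y.1 + ∑ j, a (p.succAbove j) * y.2 j)) := by
    rw [hpre]
    simp_rw [hfun]
    exact MeasurePreserving.setIntegral_preimage_emb hmp e.measurableEmbedding
      (fun y : ℝ × (Fin n → ℝ) => f (r + (a p * y.1 + ∑ j, a (p.succAbove j) * y.2 j))) _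
  rw [IntegrableOn, ← Measure.prod_restrict] at hint
  have h3 := integral_prod_symm (fun y : ℝ × (Fin n → ℝ) =>
      f (r + (a p * y.1 + ∑ j, a (p.succAbove j) * y.2 j))) hint
  rw [h1, Measure.volume_eq_prod, ← Measure.prod_restrict, h3]
  have h2 : ∀ y : Fin n → ℝ, ∫ x in Icc (-1 : ℝ) 1, f (r + (a p * x + ∑ j, a (p.succAbove j) * y j))
      = 2 * Aop (a p) f (r + ∑ j, a (p.succAbove j) * y j) := by
    intro y
    unfold Aop
    rw [intervalIntegral.integral_of_le (by norm_num : (-1 : ℝ) ≤ 1), integral_Icc_eq_integral_Ioc,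
      ← mul_assoc]
    norm_num
    congr 1
    ext x
    ring_nf
  simp only [h2]
  rw [MeasureTheory.integral_const_mul, ← mul_assoc]
  congr 1
  rw [pow_succ]
  field_simp

lemma cubeAvg_nonneg {n : ℕ} (a : Fin n → ℝ) {f : ℝ → ℝ} (hf : Continuous f)
    (hodd : ∀ x, f (-x) = -f x) (hpos : ∀ x, 0 ≤ x → 0 ≤ f x) (r : ℝ) (hr : 0 ≤ r) :
    0 ≤ cubeAvg a f r := by
  induction n generalizing f with
  | zero => rw [cubeAvg_zero]; exact hpos r hr
  | succ n ih =>
    rw [cubeAvg_succ 0 a hf]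
    exact ih _ (Aop_continuous _ hf) (Aop_odd _ hodd) (fun x hx => Aop_nonneg _ hf hodd hpos x hx)

lemma integrableOn_cube {n : ℕ} {g : (Fin n → ℝ) → ℝ} (hg : Continuous g) :
    IntegrableOn g (cube n) volume :=
  hg.continuousOn.integrableOn_compact isCompact_Icc

lemma cubeAvg_add {n : ℕ} (a : Fin n → ℝ) {f g : ℝ → ℝ} (hf : Continuous f) (hg : Continuous g)
    (r : ℝ) : cubeAvg a (fun x => f x + g x) r = cubeAvg a f r + cubeAvg a g r := by
  unfold cubeAvg
  rw [MeasureTheory.integral_add, mul_add]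
  · exact integrableOn_cube (by fun_prop)
  · exact integrableOn_cube (by fun_prop)

lemma cubeAvg_sub {n : ℕ} (a : Fin n → ℝ) {f g : ℝ → ℝ} (hf : Continuous f) (hg : Continuous g)
    (r : ℝ) : cubeAvg a (fun x => f x - g x) r = cubeAvg a f r - cubeAvg a g r := by
  unfold cubeAvg
  rw [MeasureTheory.integral_sub, mul_sub]
  · exact integrableOn_cube (by fun_prop)
  · exact integrableOn_cube (by fun_prop)

lemma cubeAvg_const_mul {n : ℕ} (a : Fin n → ℝ) (c : ℝ) (f : ℝ → ℝ)
    (r : ℝ) : cubeAvg a (fun x => c * f x) r = c * cubeAvg a f r := by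
  unfold cubeAvg
  rw [MeasureTheory.integral_const_mul]
  ring

/-- comparison of odd functions on the positive half line is preserved -/
lemma cubeAvg_le {n : ℕ} (a : Fin n → ℝ) {f g : ℝ → ℝ} (hf : Continuous f) (hg : Continuous g)
    (hfo : ∀ x, f (-x) = -f x) (hgo : ∀ x, g (-x) = -g x)
    (h : ∀ x, 0 ≤ x → f x ≤ g x) (r : ℝ) (hr : 0 ≤ r) :
    cubeAvg a f r ≤ cubeAvg a g r := by
  have := cubeAvg_nonneg a (f := fun x => g x - f x) (hg.sub hf)
    (by intro x; rw [hfo, hgo]; ring) (by intro x hx; linarith [h x hx]) r hr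
  rw [cubeAvg_sub a hg hf] at this
  linarith

lemma cubeAvg_id {n : ℕ} (a : Fin n → ℝ) (r : ℝ) : cubeAvg a (fun x => x) r = r := by
  induction n with
  | zero => rw [cubeAvg_zero]
  | succ n ih =>
    rw [cubeAvg_succ 0 a continuous_id']
    have : Aop (a 0) (fun x => x) = fun x => x := by
      ext x; exact Aop_id _ _
    rw [this]
    exact ih _

lemma cubeAvg_cube {n : ℕ} (a : Fin n → ℝ) (r : ℝ) :
    cubeAvg a (fun x => x ^ 3) r = r ^ 3 + (∑ i, a i ^ 2) * r := by
  induction n with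
  | zero => rw [cubeAvg_zero]; simp
  | succ n ih =>
    rw [cubeAvg_succ 0 a (by fun_prop)]
    have : Aop (a 0) (fun x => x ^ 3) = fun x => x ^ 3 + (a 0) ^ 2 * x := by
      ext x; exact Aop_cube _ _
    rw [this, cubeAvg_add _ (by fun_prop) (by fun_prop), ih, cubeAvg_const_mul, cubeAvg_id,
      Fin.sum_univ_succ]
    simp only [Fin.succAbove_zero]
    ring

lemma cubeAvg_sin {n : ℕ} (a : Fin n → ℝ) (l r : ℝ) :
    cubeAvg a (fun x => Real.sin (l * x)) r = (∏ i, Real.sinc (l * a i)) * Real.sin (l * r) := by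
  induction n with
  | zero => rw [cubeAvg_zero]; simp
  | succ n ih =>
    rw [cubeAvg_succ 0 a (by fun_prop)]
    have : Aop (a 0) (fun x => Real.sin (l * x)) = fun x => Real.sinc (l * a 0) * Real.sin (l * x) := by
      ext x; exact Aop_sin _ _ _
    rw [this, cubeAvg_const_mul, ih, Fin.prod_univ_succ]
    simp only [Fin.succAbove_zero]
    ring

end Pool.Agent.Helper452
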