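import Pool.Agent.Helper452.SlabVol

set_option autoImplicit false

namespace Pool.Agent.Helper452

open MeasureTheory Set intervalIntegral

lemma clamp_nonneg (t r : ℝ) (ht : 0 ≤ t) (hr : 0 ≤ r) : 0 ≤ clamp t r := by
  unfold clamp
  exact le_max_of_le_right (le_min hr ht)

lemma le_clamp (t z : ℝ) (h : z ≤ t) : z ≤ clamp t z := by
  unfold clamp
  rw [min_eq_left h]
  exact le_max_right _ _

lemma clamp_of_ge (t z : ℝ) (ht : 0 ≤ t) (h : t ≤ z) : clamp t z = t := by
  unfold clamp
  rw [min_eq_right h, max_eq_right (by linarith)]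

lemma int_clamp_ge_id (t x y : ℝ) (hxy : x ≤ y) (hy : y ≤ t) :
    (y ^ 2 - x ^ 2) / 2 ≤ ∫ z in x..y, clamp t z := by
  rw [← integral_id]
  apply intervalIntegral.integral_mono_on hxy
  · exact continuous_id.intervalIntegrable _ _
  · exact (clamp_continuous t).intervalIntegrable _ _
  · intro z hz
    exact le_clamp t z (hz.2.trans hy)

lemma int_clamp_const (t x y : ℝ) (ht : 0 ≤ t) (hx : t ≤ x) (hxy : x ≤ y) :
    ∫ z in x..y, clamp t z = t * (y - x) := by
  have : ∫ z in x..y, clamp t z = ∫ z in x..y, t := by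
    apply intervalIntegral.integral_congr
    intro z hz
    rw [uIcc_of_le hxy] at hz
    exact clamp_of_ge t z ht (hx.trans hz.1)
  rw [this, intervalIntegral.integral_const, smul_eq_mul, mul_comm]

lemma kappa_ge_quad (a t r : ℝ) (ha : 0 < a) (ht : 0 ≤ t) :
    r - (a + r - t) ^ 2 / (4 * a) ≤ Aop a (clamp t) r := by
  rw [Aop_eq_of_ne a ha.ne']
  have hi : ∀ x y : ℝ, IntervalIntegrable (clamp t) volume x y :=
    fun x y => (clamp_continuous t).intervalIntegrable x y
  have key : t * (a + r) - t ^ 2 / 2 - (r - a) ^ 2 / 2 ≤ ∫ z in (r - a)..(r + a), clamp t z := by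
    rcases le_total t (r - a) with h1 | h1
    · rw [int_clamp_const t _ _ ht h1 (by linarith)]
      nlinarith [sq_nonneg (r - a - t)]
    · rcases le_total t (r + a) with h2 | h2
      · rw [← intervalIntegral.integral_add_adjacent_intervals (hi (r - a) t) (hi t (r + a)),
          int_clamp_const t _ _ ht le_rfl h2]
        have := int_clamp_ge_id t (r - a) t h1 le_rfl
        nlinarith
      · have := int_clamp_ge_id t (r - a) (r + a) (by linarith) h2
        nlinarith [sq_nonneg (r + a - t)]
  have e : r - (a + r - t) ^ 2 / (4 * a)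
      = 1 / (2 * a) * (t * (a + r) - t ^ 2 / 2 - (r - a) ^ 2 / 2) := by
    field_simp
    ring
  rw [e]
  exact mul_le_mul_of_nonneg_left key (by positivity)

lemma kappa_ge_id (a t r : ℝ) (ha : 0 < a) (hr : r ≤ t - a) :
    r ≤ Aop a (clamp t) r := by
  rw [Aop_eq_of_ne a ha.ne']
  have := int_clamp_ge_id t (r - a) (r + a) (by linarith) (by linarith)
  have e : r = 1 / (2 * a) * (((r + a) ^ 2 - (r - a) ^ 2) / 2) := by
    field_simp
    ring
  calc r = 1 / (2 * a) * (((r + a) ^ 2 - (r - a) ^ 2) / 2) := e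
    _ ≤ _ := mul_le_mul_of_nonneg_left this (by positivity)

lemma kappa_ge_lin (a t r : ℝ) (ha : 0 < a) (ht : 0 ≤ t) (hr0 : 0 ≤ r) (hr : r ≤ a - t) :
    t / a * r ≤ Aop a (clamp t) r := by
  rw [Aop_eq_of_ne a ha.ne']
  have hi : ∀ x y : ℝ, IntervalIntegrable (clamp t) volume x y :=
    fun x y => (clamp_continuous t).intervalIntegrable x y
  rw [← intervalIntegral.integral_add_adjacent_intervals (hi (r - a) (a - r)) (hi (a - r) (r + a))]
  have h0 : ∫ z in (r - a)..(a - r), clamp t z = 0 := by
    have := integral_odd_symm (clamp_odd t ht) (a - r)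
    rwa [neg_sub] at this
  rw [h0, zero_add, int_clamp_const t _ _ ht (by linarith) (by linarith)]
  apply le_of_eq
  field_simp
  ring

lemma kappa_ge_const (a t r : ℝ) (ha : 0 < a) (ht : 0 ≤ t) (hr : a + t ≤ r) :
    t ≤ Aop a (clamp t) r := by
  rw [Aop_eq_of_ne a ha.ne', int_clamp_const t _ _ ht (by linarith) (by linarith)]
  apply le_of_eq
  field_simp
  ring

/-- `kappa` for smaller `a` dominates the quadratic piece for larger `A`. -/
lemma kappa_ge_quad_mono (a A t r : ℝ) (ha : 0 < a) (hA : a ≤ A) (ht : 0 ≤ t) (hr : t - A ≤ r)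
    (_hr2 : r ≤ t + A) :
    r - (A + r - t) ^ 2 / (4 * A) ≤ Aop a (clamp t) r := by
  have hA0 : 0 < A := ha.trans_le hA
  rcases le_total r (t - a) with h1 | h1
  · refine le_trans ?_ (kappa_ge_id a t r ha h1)
    have : 0 ≤ (A + r - t) ^ 2 / (4 * A) := by positivity
    linarith
  · rcases le_total r (t + a) with h2 | h2
    · refine le_trans ?_ (kappa_ge_quad a t r ha ht)
      have : (a + r - t) ^ 2 / (4 * a) ≤ (A + r - t) ^ 2 / (4 * A) := by
        rw [div_le_div_iff₀ (by positivity) (by positivity)]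
        have h3 : 0 ≤ (A - a) * (a * A - (r - t) ^ 2) := by
          apply mul_nonneg (by linarith)
          nlinarith
        nlinarith
      linarith
    · refine le_trans ?_ (kappa_ge_const a t r ha ht (by linarith))
      have : 0 ≤ (r - t - A) ^ 2 / (4 * A) := by positivity
      have e : t - (r - (A + r - t) ^ 2 / (4 * A)) = (r - t - A) ^ 2 / (4 * A) := by
        field_simp
        ring
      linarith

/-- combined lower bound used in the trigonometric regime -/
lemma kappa_pieces (a A t r : ℝ) (ha : 0 < a) (hA : a ≤ A) (ht : 0 ≤ t) (q : ℝ)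
    (h1 : r ≤ t - A → q ≤ r)
    (h2 : t - A ≤ r → r ≤ t + A → q ≤ r - (A + r - t) ^ 2 / (4 * A))
    (h3 : t + A ≤ r → q ≤ t) : q ≤ Aop a (clamp t) r := by
  rcases le_total r (t - A) with h | h
  · exact (h1 h).trans (kappa_ge_id a t r ha (by linarith))
  · rcases le_total r (t + A) with h' | h'
    · exact (h2 h h').trans (kappa_ge_quad_mono a A t r ha hA ht h h')
    · exact (h3 h').trans (kappa_ge_const a t r ha ht (by linarith))

end Pool.Agent.Helper452
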