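import Pool.Agent.Helper452.SlabCertC

set_option autoImplicit false

namespace Pool.Agent.Helper452

open MeasureTheory Set intervalIntegral Filter Topology

lemma clamp_mono_s (s t r : ℝ) (hst : s ≤ t) (hs : 0 ≤ s) (hr : 0 ≤ r) :
    clamp s r ≤ clamp t r := by
  unfold clamp
  rw [max_eq_right (by have := le_min hr hs; linarith),
    max_eq_right (by have := le_min hr (hs.trans hst); linarith)]
  exact min_le_min le_rfl hst

lemma Aop_sub (a : ℝ) {f g : ℝ → ℝ} (hf : Continuous f) (hg : Continuous g) (r : ℝ) :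
    Aop a (fun x => f x - g x) r = Aop a f r - Aop a g r := by
  unfold Aop
  rw [intervalIntegral.integral_sub, mul_sub]
  · exact (by fun_prop : Continuous fun u => f (r + a * u)).intervalIntegrable _ _
  · exact (by fun_prop : Continuous fun u => g (r + a * u)).intervalIntegrable _ _

lemma Aop_le (a : ℝ) {f g : ℝ → ℝ} (hf : Continuous f) (hg : Continuous g)
    (hfo : ∀ x, f (-x) = -f x) (hgo : ∀ x, g (-x) = -g x)
    (h : ∀ x, 0 ≤ x → f x ≤ g x) (r : ℝ) (hr : 0 ≤ r) : Aop a f r ≤ Aop a g r := by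
  have := Aop_nonneg a (f := fun x => g x - f x) (hg.sub hf)
    (by intro x; rw [hfo, hgo]; ring) (by intro x hx; linarith [h x hx]) r hr
  rw [Aop_sub a hg hf] at this
  linarith

lemma Aop_abs (a : ℝ) (f : ℝ → ℝ) : Aop |a| f = Aop a f := by
  ext r
  rcases abs_cases a with h | h <;> rw [h.1]
  rw [Aop_neg]

/-- generic trigonometric regime -/
lemma regimeB {n : ℕ} (a : Fin n → ℝ) (α u l lam c0 c2 c ε : ℝ)
    (hl0 : 0 < l) (hl : l ≤ α) (hu : α ≤ u) (hlam : 0 < lam) (hlu : lam * u ≤ 3.14)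
    (hc : 0 ≤ c) (hc2 : 0 ≤ c2) (hε : Real.exp (-(lam ^ 2 * (1 - u ^ 2) / 6)) ≤ ε)
    (hval : 0.828428 ≤ c0 - c2 * (1 - l ^ 2) - c * ε)
    (hineq : ∀ r, 0 ≤ r → c0 * r - c2 * r ^ 3 - c / lam * Real.sin (lam * r)
      ≤ Aop α (clamp (2071 / 2500)) r)
    (hs : ∑ i, a i ^ 2 = 1 - α ^ 2) (hmax : ∀ i, |a i| ≤ α) :
    ∃ C : ℝ, 0 ≤ C ∧ ∀ δ, 0 ≤ δ → T * δ - C * δ ^ 3 ≤ cubeAvg a (Aop α (clamp T)) δ := by
  have hT1 := T_gt
  have hT2 := T_lt
  refine ⟨c2, hc2, fun δ hδ => ?_⟩
  have hpi := Real.pi_gt_d2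
  have hα0 : 0 < α := by linarith
  have hprod := prod_sinc_bounds Finset.univ lam a (by
    intro i _
    rw [abs_mul, abs_of_pos hlam]
    have : lam * |a i| ≤ lam * u := mul_le_mul_of_nonneg_left ((hmax i).trans hu) hlam.le
    linarith)
  have hle : Real.exp (-(lam ^ 2 * (∑ i, a i ^ 2) / 6)) ≤ ε := by
    refine le_trans ?_ hε
    apply Real.exp_le_exp.2
    rw [hs]
    have : lam ^ 2 * (1 - u ^ 2) ≤ lam ^ 2 * (1 - α ^ 2) := by
      apply mul_le_mul_of_nonneg_left _ (sq_nonneg _)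
      nlinarith
    linarith
  have hineq2 : ∀ r, 0 ≤ r → c0 * r - c2 * r ^ 3 - c / lam * Real.sin (lam * r)
      ≤ Aop α (clamp T) r := by
    intro r hr
    refine (hineq r hr).trans ?_
    exact Aop_le α (clamp_continuous _) (clamp_continuous _) (clamp_odd _ (by norm_num))
      (clamp_odd _ (by linarith)) (fun x hx => clamp_mono_s _ _ x (by norm_num; linarith) (by norm_num) hx)
      r hr
  have h := trig_bound a (kcont α) (kodd α) c0 c2 c lam ε hc hlam hineq2 hprod.1
    (hprod.2.trans hle) δ hδ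
  rw [hs] at h
  have hv : T ≤ c0 - c2 * (1 - α ^ 2) - c * ε := by
    have : c2 * (1 - α ^ 2) ≤ c2 * (1 - l ^ 2) := by
      apply mul_le_mul_of_nonneg_left _ hc2
      nlinarith
    linarith
  have := mul_le_mul_of_nonneg_right hv hδ
  linarith

lemma exp_neg_nat_le (k : ℕ) (x : ℝ) (hx : (k : ℝ) ≤ x) : Real.exp (-x) ≤ 0.36788 ^ k := by
  calc Real.exp (-x) ≤ Real.exp (-(k : ℝ)) := Real.exp_le_exp.2 (by linarith)
    _ = Real.exp (-1) ^ k := by rw [← Real.exp_nat_mul]; ring_nf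
    _ ≤ 0.36788 ^ k := by
      apply pow_le_pow_left₀ (Real.exp_pos _).le
      have := Real.exp_neg_one_lt_d9
      linarith

lemma regimeB_all {n : ℕ} (a : Fin n → ℝ) (α : ℝ) (h1 : 0.27 ≤ α) (h2 : α ≤ 0.47)
    (hs : ∑ i, a i ^ 2 = 1 - α ^ 2) (hmax : ∀ i, |a i| ≤ α) :
    ∃ C : ℝ, 0 ≤ C ∧ ∀ δ, 0 ≤ δ → T * δ - C * δ ^ 3 ≤ cubeAvg a (Aop α (clamp T)) δ := by
  have hα : 0 < α := by linarith
  rcases le_total α 0.32 with g | g
  · refine regimeB a α (8 / 25) (27 / 100) (13 / 2) (1321 / 1250) (2457 / 10000) (251 / 2500)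
      (0.36788 ^ 6) (by norm_num) (by linarith) (by linarith) (by norm_num) (by norm_num)
      (by norm_num) (by norm_num) (exp_neg_nat_le 6 _ (by norm_num)) (by norm_num) ?_ hs hmax
    intro r hr
    exact B5_ineq α r hα (by linarith) hr
  rcases le_total α 0.376 with g2 | g2
  · refine regimeB a α (47 / 125) (8 / 25) (55 / 8) (10469 / 10000) (243 / 1000) (1 / 16)
      (0.36788 ^ 6) (by norm_num) (by linarith) (by linarith) (by norm_num) (by norm_num)
      (by norm_num) (by norm_num) (exp_neg_nat_le 6 _ (by norm_num)) (by norm_num) ?_ hs hmax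
    intro r hr
    exact B4_ineq α r hα (by linarith) hr
  rcases le_total α 0.426 with g3 | g3
  · refine regimeB a α (213 / 500) (47 / 125) (29 / 4) (103 / 100) (1173 / 5000) (97 / 2000)
      (0.36788 ^ 7) (by norm_num) (by linarith) (by linarith) (by norm_num) (by norm_num)
      (by norm_num) (by norm_num) (exp_neg_nat_le 7 _ (by norm_num)) (by norm_num) ?_ hs hmax
    intro r hr
    exact B3_ineq α r hα (by linarith) hr
  rcases le_total α 0.452 with g4 | g4
  · refine regimeB a α (113 / 250) (213 / 500) (55 / 8) (2047 / 2000) (2377 / 10000) (237 / 10000)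
      (0.36788 ^ 6) (by norm_num) (by linarith) (by linarith) (by norm_num) (by norm_num)
      (by norm_num) (by norm_num) (exp_neg_nat_le 6 _ (by norm_num)) (by norm_num) ?_ hs hmax
    intro r hr
    exact B2_ineq α r hα (by linarith) hr
  · refine regimeB a α (47 / 100) (113 / 250) (53 / 8) (10169 / 10000) (2363 / 10000) (171 / 10000)
      (0.36788 ^ 5) (by norm_num) (by linarith) (by linarith) (by norm_num) (by norm_num)
      (by norm_num) (by norm_num) (exp_neg_nat_le 5 _ (by norm_num)) (by norm_num) ?_ hs hmax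
    intro r hr
    exact B1_ineq α r hα (by linarith) hr

lemma regimeC {n : ℕ} (a : Fin n → ℝ) (hs : ∑ i, a i ^ 2 = 1) (hmax : ∀ i, |a i| ≤ 0.27) :
    ∃ C : ℝ, 0 ≤ C ∧ ∀ δ, 0 ≤ δ → T * δ - C * δ ^ 3 ≤ cubeAvg a (clamp T) δ := by
  have hT1 := T_gt
  have hT2 := T_lt
  refine ⟨0.6, by norm_num, fun δ hδ => ?_⟩
  have hpi := Real.pi_gt_d2
  have hP2 := prod_sinc_bounds Finset.univ (23 / 4) a (by
    intro i _
    rw [abs_mul, abs_of_pos (by norm_num : (0 : ℝ) < 23 / 4)]
    linarith [hmax i])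
  have hP1 := prod_sinc_bounds Finset.univ 2 a (by
    intro i _
    rw [abs_mul, abs_of_pos (by norm_num : (0 : ℝ) < 2)]
    linarith [hmax i])
  have hP1l := prod_sinc_lower Finset.univ a (fun i _ => hmax i) hs
  have hP1u : ∏ i, Real.sinc (2 * a i) ≤ 1 := by
    refine hP1.2.trans ?_
    rw [Real.exp_le_one_iff, hs]
    norm_num
  have hε : ∏ i, Real.sinc (23 / 4 * a i) ≤ 0.0041 := by
    refine hP2.2.trans ?_
    rw [hs]
    have h1 : Real.exp (-((23 / 4) ^ 2 * 1 / 6)) ≤ Real.exp (-(11 / 2)) :=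
      Real.exp_le_exp.2 (by norm_num)
    refine h1.trans ?_
    have h2 : Real.exp (-(11 / 2)) ^ 2 ≤ 0.36788 ^ 11 := by
      rw [← Real.exp_nat_mul]
      have : ((2 : ℕ) : ℝ) * (-(11 / 2)) = -11 := by norm_num
      rw [this]
      exact exp_neg_nat_le 11 11 (by norm_num)
    by_contra hcon
    rw [not_le] at hcon
    have h3 : (0.0041 : ℝ) ^ 2 < Real.exp (-(11 / 2)) ^ 2 :=
      pow_lt_pow_left₀ hcon (by norm_num) (by norm_num)
    norm_num at h2 h3
    linarith
  have h1 := cubeAvg_le a (f := fun r => (391 / 625) * r - (19 / 500) * r ^ 3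
      + (593 / 1250) / 2 * Real.sin (2 * r) - (1921 / 10000) / (23 / 4) * Real.sin (23 / 4 * r))
    (g := clamp T)
    (by fun_prop) (clamp_continuous _)
    (by intro x; simp only [mul_neg, Real.sin_neg]; ring) (clamp_odd T (by linarith))
    (by
      intro x hx
      refine (C_ineq x hx).trans ?_
      exact clamp_mono_s _ _ x (by norm_num; linarith) (by norm_num) hx) δ hδ
  have h2 : cubeAvg a (fun r => (391 / 625) * r - (19 / 500) * r ^ 3
      + (593 / 1250) / 2 * Real.sin (2 * r) - (1921 / 10000) / (23 / 4) * Real.sin (23 / 4 * r)) δ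
      = (391 / 625 - 19 / 500) * δ - 19 / 500 * δ ^ 3
        + (593 / 1250) / 2 * ((∏ i, Real.sinc (2 * a i)) * Real.sin (2 * δ))
        - (1921 / 10000) / (23 / 4) * ((∏ i, Real.sinc (23 / 4 * a i)) * Real.sin (23 / 4 * δ)) := by
    rw [cubeAvg_sub a (by fun_prop) (by fun_prop), cubeAvg_add a (by fun_prop) (by fun_prop),
      cubeAvg_sub a (by fun_prop) (by fun_prop),
      cubeAvg_const_mul, cubeAvg_const_mul, cubeAvg_const_mul, cubeAvg_const_mul, cubeAvg_id,
      cubeAvg_cube, cubeAvg_sin, cubeAvg_sin, hs]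
    ring
  rw [h2] at h1
  have h3 : (∏ i, Real.sinc (23 / 4 * a i)) * Real.sin (23 / 4 * δ) ≤ 0.0041 * (23 / 4 * δ) := by
    have hs' : Real.sin (23 / 4 * δ) ≤ 23 / 4 * δ := Real.sin_le (by positivity)
    calc (∏ i, Real.sinc (23 / 4 * a i)) * Real.sin (23 / 4 * δ)
        ≤ (∏ i, Real.sinc (23 / 4 * a i)) * (23 / 4 * δ) := mul_le_mul_of_nonneg_left hs' hP2.1
      _ ≤ 0.0041 * (23 / 4 * δ) := mul_le_mul_of_nonneg_right hε (by positivity)
  have h4 : 0.5098 * (2 * δ) - (2 * δ) ^ 3 / 6 ≤ (∏ i, Real.sinc (2 * a i)) * Real.sin (2 * δ) := by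
    have hs' := Real.sin_ge_sub_cube (x := 2 * δ) (by positivity)
    have h5 : (∏ i, Real.sinc (2 * a i)) * (2 * δ - (2 * δ) ^ 3 / 6)
        ≤ (∏ i, Real.sinc (2 * a i)) * Real.sin (2 * δ) := mul_le_mul_of_nonneg_left hs' hP1.1
    have h6 : 0.5098 * (2 * δ) ≤ (∏ i, Real.sinc (2 * a i)) * (2 * δ) :=
      mul_le_mul_of_nonneg_right hP1l (by positivity)
    have h7 : (∏ i, Real.sinc (2 * a i)) * ((2 * δ) ^ 3 / 6) ≤ 1 * ((2 * δ) ^ 3 / 6) :=
      mul_le_mul_of_nonneg_right hP1u (by positivity)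
    linarith
  have h8 := mul_le_mul_of_nonneg_left h3 (by norm_num : (0 : ℝ) ≤ (1921 / 10000) / (23 / 4))
  have h9 := mul_le_mul_of_nonneg_left h4 (by norm_num : (0 : ℝ) ≤ (593 / 1250) / 2)
  have h10 : T * δ ≤ 0.828428 * δ := mul_le_mul_of_nonneg_right hT2.le hδ
  have h11 : 0 ≤ δ ^ 3 := by positivity
  nlinarith

/-- Main one-dimensional estimate for every unit vector. -/
theorem main_lower {n : ℕ} (a : Fin n → ℝ) (hs : ∑ i, a i ^ 2 = 1) :
    ∃ C : ℝ, 0 ≤ C ∧ ∀ δ, 0 ≤ δ → T * δ - C * δ ^ 3 ≤ cubeAvg a (clamp T) δ := by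
  rcases n with _ | n
  · simp at hs
  obtain ⟨p, hp⟩ := Finite.exists_max (fun i => |a i|)
  rcases le_total |a p| 0.27 with h | h
  · exact regimeC a hs (fun i => (hp i).trans h)
  · have hsum : ∑ j, a (p.succAbove j) ^ 2 = 1 - |a p| ^ 2 := by
      rw [Fin.sum_univ_succAbove _ p] at hs
      rw [sq_abs]
      linarith
    have h1 : |a p| ≤ 1 := by
      have h2 : 0 ≤ ∑ j, a (p.succAbove j) ^ 2 := Finset.sum_nonneg fun i _ => sq_nonneg _
      have h3 : 0 ≤ |a p| := abs_nonneg _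
      nlinarith
    have key : ∃ C : ℝ, 0 ≤ C ∧ ∀ δ, 0 ≤ δ →
        T * δ - C * δ ^ 3 ≤ cubeAvg (fun j => a (p.succAbove j)) (Aop |a p| (clamp T)) δ := by
      rcases le_total |a p| 0.47 with g1 | g1
      · exact regimeB_all _ _ h g1 hsum (fun j => hp _)
      rcases le_total |a p| 0.585 with g2 | g2
      · exact regimeA1 _ _ g1 g2 hsum
      rcases le_total |a p| 0.92 with g3 | g3
      · exact regimeA2 _ _ g2 g3 hsum
      · exact regimeA3 _ _ g3 h1 hsum
    obtain ⟨C, hC, hk⟩ := key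
    refine ⟨C, hC, fun δ hδ => ?_⟩
    rw [cubeAvg_succ p a (clamp_continuous _), ← Aop_abs]
    exact hk δ hδ

/-- lower bound for slab volumes -/
theorem slab_volume_ge {n : ℕ} (a : Fin n → ℝ) (hs : ∑ i, a i ^ 2 = 1) (t : ℝ) (ht0 : 0 < t)
    (ht : t ≤ T) : 2 ^ n * t ≤ (volume (slab a t)).toReal := by
  obtain ⟨C, hC, hk⟩ := main_lower a hs
  have hT1 := T_gt
  have key : ∀ δ, 0 < δ → δ < t → 2 ^ n * (t - δ - C * δ ^ 2) ≤ (volume (slab a t)).toReal := by
    intro δ hδ0 hδt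
    have h1 := slab_lower a (t - δ) δ (by linarith) hδ0.le
    rw [sub_add_cancel] at h1
    have h2 : (t - δ) / T * cubeAvg a (clamp T) δ ≤ cubeAvg a (clamp (t - δ)) δ := by
      rw [← cubeAvg_const_mul]
      apply cubeAvg_le a (by have := clamp_continuous T; fun_prop) (clamp_continuous _)
        (by intro x; rw [clamp_odd T (by linarith)]; ring) (clamp_odd _ (by linarith)) _ _ hδ0.le
      intro x hx
      have hst : t - δ ≤ T := by linarith
      have hq0 : 0 ≤ (t - δ) / T := div_nonneg (by linarith) (by linarith)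
      have hq1 : (t - δ) / T ≤ 1 := (div_le_one (by linarith)).2 hst
      have hqT : (t - δ) / T * T = t - δ := div_mul_cancel₀ _ (by linarith)
      have e1 : clamp T x = min x T := by
        unfold clamp
        rw [max_eq_right]
        have := le_min hx (by linarith : (0 : ℝ) ≤ T)
        linarith
      have e2 : clamp (t - δ) x = min x (t - δ) := by
        unfold clamp
        rw [max_eq_right]
        have := le_min hx (by linarith : (0 : ℝ) ≤ t - δ)
        linarith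
      rw [e1, e2]
      apply le_min
      · calc (t - δ) / T * min x T ≤ 1 * x := by
              apply mul_le_mul hq1 (min_le_left _ _) (le_min hx (by linarith)) (by norm_num)
          _ = x := one_mul x
      · calc (t - δ) / T * min x T ≤ (t - δ) / T * T :=
              mul_le_mul_of_nonneg_left (min_le_right _ _) hq0
          _ = t - δ := hqT
    have h3 := hk δ hδ0.le
    have hq0 : 0 ≤ (t - δ) / T := div_nonneg (by linarith) (by linarith)
    have hq1 : (t - δ) / T ≤ 1 := (div_le_one (by linarith)).2 (by linarith)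
    have h4 : (t - δ) * δ - C * δ ^ 3 ≤ cubeAvg a (clamp (t - δ)) δ := by
      have h5 := mul_le_mul_of_nonneg_left h3 hq0
      have h6 : (t - δ) / T * (T * δ - C * δ ^ 3) = (t - δ) * δ - (t - δ) / T * (C * δ ^ 3) := by
        have : (t - δ) / T * T = t - δ := div_mul_cancel₀ _ (by linarith)
        linear_combination δ * this
      have h7 : (t - δ) / T * (C * δ ^ 3) ≤ 1 * (C * δ ^ 3) :=
        mul_le_mul_of_nonneg_right hq1 (by positivity)
      linarith
    have h8 : (2 : ℝ) ^ n * ((t - δ) * δ - C * δ ^ 3) ≤ δ * (volume (slab a t)).toReal :=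
      (mul_le_mul_of_nonneg_left h4 (by positivity)).trans h1
    have h9 : δ * (2 ^ n * (t - δ - C * δ ^ 2)) ≤ δ * (volume (slab a t)).toReal := by
      calc δ * (2 ^ n * (t - δ - C * δ ^ 2)) = (2 : ℝ) ^ n * ((t - δ) * δ - C * δ ^ 3) := by ring
        _ ≤ _ := h8
    exact le_of_mul_le_mul_left h9 hδ0
  have hlim : Tendsto (fun δ : ℝ => 2 ^ n * (t - δ - C * δ ^ 2)) (𝓝[>] 0) (𝓝 (2 ^ n * t)) := by
    have hcont : Continuous (fun δ : ℝ => 2 ^ n * (t - δ - C * δ ^ 2)) := by fun_prop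
    have := (hcont.tendsto 0).mono_left (nhdsWithin_le_nhds (s := Ioi 0))
    simpa using this
  apply le_of_tendsto hlim
  have : Ioo (0 : ℝ) t ∈ 𝓝[>] (0 : ℝ) := Ioo_mem_nhdsGT ht0
  filter_upwards [this] with δ hδ
  exact key δ hδ.1 hδ.2

end Pool.Agent.Helper452
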