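import Pool.Agent.Helper452.SlabKappa

set_option autoImplicit false

namespace Pool.Agent.Helper452

open MeasureTheory Set intervalIntegral

/-- comparison with a cubic -/
lemma cubic_bound {n : ℕ} (a : Fin n → ℝ) {k : ℝ → ℝ} (hk : Continuous k)
    (hodd : ∀ x, k (-x) = -k x) (c0 c2 : ℝ) (h : ∀ r, 0 ≤ r → c0 * r - c2 * r ^ 3 ≤ k r)
    (δ : ℝ) (hδ : 0 ≤ δ) :
    (c0 - c2 * ∑ i, a i ^ 2) * δ - c2 * δ ^ 3 ≤ cubeAvg a k δ := by
  have h1 := cubeAvg_le a (f := fun r => c0 * r - c2 * r ^ 3) (g := k) (by fun_prop) hk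
    (by intro x; ring) hodd h δ hδ
  have h2 : cubeAvg a (fun r => c0 * r - c2 * r ^ 3) δ
      = (c0 - c2 * ∑ i, a i ^ 2) * δ - c2 * δ ^ 3 := by
    rw [cubeAvg_sub a (by fun_prop) (by fun_prop), cubeAvg_const_mul, cubeAvg_const_mul,
      cubeAvg_id, cubeAvg_cube]
    ring
  linarith

/-- comparison with a cubic and one sine of nonpositive sign -/
lemma trig_bound {n : ℕ} (a : Fin n → ℝ) {k : ℝ → ℝ} (hk : Continuous k)
    (hodd : ∀ x, k (-x) = -k x) (c0 c2 c l ε : ℝ) (hc : 0 ≤ c) (hl : 0 < l)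
    (h : ∀ r, 0 ≤ r → c0 * r - c2 * r ^ 3 - c / l * Real.sin (l * r) ≤ k r)
    (hprod0 : 0 ≤ ∏ i, Real.sinc (l * a i)) (hprod : ∏ i, Real.sinc (l * a i) ≤ ε)
    (δ : ℝ) (hδ : 0 ≤ δ) :
    (c0 - c2 * ∑ i, a i ^ 2 - c * ε) * δ - c2 * δ ^ 3 ≤ cubeAvg a k δ := by
  have h1 := cubeAvg_le a (f := fun r => c0 * r - c2 * r ^ 3 - c / l * Real.sin (l * r)) (g := k)
    (by fun_prop) hk (by intro x; simp only [mul_neg, Real.sin_neg]; ring) hodd h δ hδ
  have h2 : cubeAvg a (fun r => c0 * r - c2 * r ^ 3 - c / l * Real.sin (l * r)) δ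
      = (c0 - c2 * ∑ i, a i ^ 2) * δ - c2 * δ ^ 3
        - c / l * ((∏ i, Real.sinc (l * a i)) * Real.sin (l * δ)) := by
    rw [cubeAvg_sub a (by fun_prop) (by fun_prop), cubeAvg_sub a (by fun_prop) (by fun_prop),
      cubeAvg_const_mul, cubeAvg_const_mul, cubeAvg_const_mul, cubeAvg_id, cubeAvg_cube, cubeAvg_sin]
    ring
  have h3 : (∏ i, Real.sinc (l * a i)) * Real.sin (l * δ) ≤ ε * (l * δ) := by
    have hs : Real.sin (l * δ) ≤ l * δ := Real.sin_le (by positivity)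
    calc (∏ i, Real.sinc (l * a i)) * Real.sin (l * δ)
        ≤ (∏ i, Real.sinc (l * a i)) * (l * δ) := mul_le_mul_of_nonneg_left hs hprod0
      _ ≤ ε * (l * δ) := mul_le_mul_of_nonneg_right hprod (by positivity)
  have h4 : c / l * ((∏ i, Real.sinc (l * a i)) * Real.sin (l * δ)) ≤ c * ε * δ := by
    calc c / l * ((∏ i, Real.sinc (l * a i)) * Real.sin (l * δ)) ≤ c / l * (ε * (l * δ)) :=
          mul_le_mul_of_nonneg_left h3 (by positivity)
      _ = c * ε * δ := by field_simp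
  linarith

/-- the critical half-width -/
noncomputable def T : ℝ := 2 * Real.sqrt 2 - 2

lemma T_sq : T ^ 2 = 4 - 4 * T := by
  unfold T
  have := Real.sq_sqrt (show (0 : ℝ) ≤ 2 by norm_num)
  nlinarith

lemma T_gt : (0.828427 : ℝ) < T := by
  unfold T
  have : (1.4142135 : ℝ) < Real.sqrt 2 := by
    apply Real.lt_sqrt_of_sq_lt; norm_num
  linarith

lemma T_lt : T < (0.828428 : ℝ) := by
  unfold T
  have : Real.sqrt 2 < (1.414214 : ℝ) := by
    rw [Real.sqrt_lt' (by norm_num)]; norm_num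
  linarith

lemma kodd (α : ℝ) (x : ℝ) : Aop α (clamp T) (-x) = -Aop α (clamp T) x :=
  Aop_odd α (clamp_odd T (by linarith [T_gt])) x

lemma kcont (α : ℝ) : Continuous (Aop α (clamp T)) := Aop_continuous α (clamp_continuous T)

lemma regimeA1 {n : ℕ} (a : Fin n → ℝ) (α : ℝ) (h1 : 0.47 ≤ α) (h2 : α ≤ 0.585)
    (hs : ∑ i, a i ^ 2 = 1 - α ^ 2) :
    ∃ C : ℝ, 0 ≤ C ∧ ∀ δ, 0 ≤ δ → T * δ - C * δ ^ 3 ≤ cubeAvg a (Aop α (clamp T)) δ := by
  have hT1 := T_gt
  have hT2 := T_lt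
  have hα : 0 < α := by linarith
  obtain ⟨d, hd⟩ : ∃ d, d = T - α := ⟨_, rfl⟩
  have hd0 : 0 < d := by linarith
  refine ⟨1 / (27 * α * d), by positivity, ?_⟩
  intro δ hδ
  have h := cubic_bound a (kcont α) (kodd α) 1 (1 / (27 * α * d)) ?_ δ hδ
  · rw [hs] at h
    refine le_trans ?_ h
    have hv : T ≤ 1 - 1 / (27 * α * d) * (1 - α ^ 2) := by
      have : 1 / (27 * α * d) * (1 - α ^ 2) ≤ 1 - T := by
        rw [one_div, inv_mul_le_iff₀ (by positivity)]
        have e : 27 * α * d * (1 - T) = 27 * ((5 * T - 4) * α - (1 - T) * α ^ 2) := by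
          rw [hd]
          have := T_sq
          linear_combination (-(27 * α)) * this
        rw [e]
        nlinarith [mul_nonneg (sub_nonneg.2 h1) (sub_nonneg.2 h2), sq_nonneg α]
      linarith
    nlinarith
  · intro r hr
    rcases le_total r (T - α) with h3 | h3
    · refine le_trans ?_ (kappa_ge_id α T r hα h3)
      have : 0 ≤ 1 / (27 * α * d) * r ^ 3 := by positivity
      linarith
    · refine le_trans ?_ (kappa_ge_quad α T r hα (by linarith))
      have e : r - (α + r - T) ^ 2 / (4 * α) - (1 * r - 1 / (27 * α * d) * r ^ 3)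
          = (r - 3 * d) ^ 2 * (4 * r - 3 * d) / (108 * α * d) := by
        rw [show T = d + α by linarith]
        field_simp
        ring
      have : 0 ≤ (r - 3 * d) ^ 2 * (4 * r - 3 * d) / (108 * α * d) := by
        apply div_nonneg _ (by positivity)
        apply mul_nonneg (sq_nonneg _)
        linarith
      linarith

lemma regimeA3 {n : ℕ} (a : Fin n → ℝ) (α : ℝ) (h1 : 0.92 ≤ α) (h2 : α ≤ 1)
    (hs : ∑ i, a i ^ 2 = 1 - α ^ 2) :
    ∃ C : ℝ, 0 ≤ C ∧ ∀ δ, 0 ≤ δ → T * δ - C * δ ^ 3 ≤ cubeAvg a (Aop α (clamp T)) δ := by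
  have hT1 := T_gt
  have hT2 := T_lt
  have hα : 0 < α := by linarith
  obtain ⟨d, hd⟩ : ∃ d, d = α - T := ⟨_, rfl⟩
  have hd0 : 0 < d := by linarith
  refine ⟨1 / (27 * α * d), by positivity, ?_⟩
  intro δ hδ
  have h := cubic_bound a (kcont α) (kodd α) (T / α) (1 / (27 * α * d)) ?_ δ hδ
  · rw [hs] at h
    refine le_trans ?_ h
    have hv : T ≤ T / α - 1 / (27 * α * d) * (1 - α ^ 2) := by
      have e : T / α - 1 / (27 * α * d) * (1 - α ^ 2) - T
          = (1 - α) * (27 * d * T - (1 + α)) / (27 * α * d) := by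
        field_simp
        ring
      have : 0 ≤ (1 - α) * (27 * d * T - (1 + α)) / (27 * α * d) := by
        apply div_nonneg _ (by positivity)
        apply mul_nonneg (by linarith)
        rw [hd]
        nlinarith
      linarith
    nlinarith
  · intro r hr
    rcases le_total r (α - T) with h3 | h3
    · refine le_trans ?_ (kappa_ge_lin α T r hα (by linarith) hr h3)
      have : 0 ≤ 1 / (27 * α * d) * r ^ 3 := by positivity
      linarith
    · refine le_trans ?_ (kappa_ge_quad α T r hα (by linarith))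
      have e : r - (α + r - T) ^ 2 / (4 * α) - (T / α * r - 1 / (27 * α * d) * r ^ 3)
          = (r - 3 * d) ^ 2 * (4 * r - 3 * d) / (108 * α * d) := by
        rw [show T = α - d by linarith]
        field_simp
        ring
      have : 0 ≤ (r - 3 * d) ^ 2 * (4 * r - 3 * d) / (108 * α * d) := by
        apply div_nonneg _ (by positivity)
        apply mul_nonneg (sq_nonneg _)
        linarith
      linarith

lemma two_dim_ineq (α ρ : ℝ) (h1 : 0.585 ≤ α) (h2 : α ≤ 0.92) (hρ0 : 0 < ρ)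
    (hρ2 : ρ ^ 2 = 1 - α ^ 2) : (α + ρ - T) ^ 2 ≤ (1 - T) * (4 * α * ρ) := by
  have hw2 := Real.sq_sqrt (show (0 : ℝ) ≤ 2 by norm_num)
  have hw0 := Real.sqrt_nonneg 2
  have hTw : T = 2 * Real.sqrt 2 - 2 := rfl
  have hw1 : 1.4142 < Real.sqrt 2 := by
    apply Real.lt_sqrt_of_sq_lt; norm_num
  have hw3 : Real.sqrt 2 < 1.4143 := by
    rw [Real.sqrt_lt' (by norm_num)]; norm_num
  rw [hTw]
  generalize Real.sqrt 2 = w at *
  have hσle : α + ρ ≤ w := by
    have h : (α + ρ) ^ 2 ≤ w ^ 2 := by nlinarith [sq_nonneg (α - ρ)]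
    exact (abs_le_of_sq_le_sq' h hw0).2
  have hρlow : 0.39 ≤ ρ := by
    by_contra hcon
    rw [not_le] at hcon
    have : ρ ^ 2 < 0.39 ^ 2 := by
      apply pow_lt_pow_left₀ hcon hρ0.le (by norm_num)
    nlinarith
  have h5 : (α + ρ) ^ 2 = 1 + 2 * (α * ρ) := by linear_combination hρ2
  have h6 : 0.585 * 0.39 ≤ α * ρ := by
    apply mul_le_mul h1 hρlow (by norm_num) (by linarith)
  have hσge : 1.2 ≤ α + ρ := by
    by_contra hcon
    rw [not_le] at hcon
    have : (α + ρ) ^ 2 < 1.2 ^ 2 := by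
      apply pow_lt_pow_left₀ hcon (by linarith) (by norm_num)
    linarith
  have key : 0 ≤ (w - (α + ρ)) * ((4 * w - 5) * (α + ρ) - (9 * w - 12)) := by
    apply mul_nonneg (by linarith)
    have h8 : (4 * w - 5) * 1.2 ≤ (4 * w - 5) * (α + ρ) :=
      mul_le_mul_of_nonneg_left hσge (by linarith)
    linarith
  have e2 : (1 - (2 * w - 2)) * (4 * α * ρ) - (α + ρ - (2 * w - 2)) ^ 2
      = (w - (α + ρ)) * ((4 * w - 5) * (α + ρ) - (9 * w - 12)) := by
    linear_combination (5 - 4 * (α + ρ)) * hw2 - (1 - (2 * w - 2)) * 2 * h5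
  linarith

lemma regimeA2 {n : ℕ} (a : Fin n → ℝ) (α : ℝ) (h1 : 0.585 ≤ α) (h2 : α ≤ 0.92)
    (hs : ∑ i, a i ^ 2 = 1 - α ^ 2) :
    ∃ C : ℝ, 0 ≤ C ∧ ∀ δ, 0 ≤ δ → T * δ - C * δ ^ 3 ≤ cubeAvg a (Aop α (clamp T)) δ := by
  have hT1 := T_gt
  have hT2 := T_lt
  have hα : 0 < α := by linarith
  obtain ⟨d, hd⟩ : ∃ d, d = α - T := ⟨_, rfl⟩
  obtain ⟨ρ, hρ⟩ : ∃ ρ, ρ = Real.sqrt (1 - α ^ 2) := ⟨_, rfl⟩
  have hρ2 : ρ ^ 2 = 1 - α ^ 2 := by
    rw [hρ]; exact Real.sq_sqrt (by nlinarith)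
  have hρ0 : 0 < ρ := by
    rw [hρ]; exact Real.sqrt_pos.2 (by nlinarith)
  have h9 : 9 * d ^ 2 ≤ ρ ^ 2 := by
    rw [hρ2, hd]
    nlinarith [mul_nonneg (sub_nonneg.2 h1) (sub_nonneg.2 h2)]
  have h3d1 : 3 * d ≤ ρ := by nlinarith
  have h3d2 : -(3 * d) ≤ ρ := by nlinarith
  set c2 : ℝ := (ρ ^ 2 - d ^ 2) / (8 * α * ρ ^ 3) with hc2
  set c0 : ℝ := 1 - (ρ + d) * (ρ + 3 * d) / (8 * α * ρ) with hc0
  have hc2pos : 0 ≤ c2 := by
    rw [hc2]
    apply div_nonneg _ (by positivity)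
    nlinarith [sq_nonneg d]
  refine ⟨c2, hc2pos, ?_⟩
  intro δ hδ
  have h := cubic_bound a (kcont α) (kodd α) c0 c2 ?_ δ hδ
  · rw [hs, ← hρ2] at h
    refine le_trans ?_ h
    have hv : T ≤ c0 - c2 * ρ ^ 2 := by
      have e : c0 - c2 * ρ ^ 2 = 1 - (α + ρ - T) ^ 2 / (4 * α * ρ) := by
        rw [hc0, hc2, hd]
        field_simp
        ring
      rw [e]
      have hσ : (α + ρ - T) ^ 2 / (4 * α * ρ) ≤ 1 - T := by
        rw [div_le_iff₀ (by positivity)]
        exact two_dim_ineq α ρ h1 h2 hρ0 hρ2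
      linarith
    nlinarith
  · intro r hr
    rcases le_total r |d| with h3 | h3
    · -- near zero
      rcases le_total α T with h4 | h4
      · have hda : |d| = T - α := by rw [hd, abs_of_nonpos (by linarith)]; ring
        refine le_trans ?_ (kappa_ge_id α T r hα (by linarith))
        have h5 : c0 ≤ 1 := by
          rw [hc0]
          have : 0 ≤ (ρ + d) * (ρ + 3 * d) / (8 * α * ρ) := by
            apply div_nonneg _ (by positivity)
            apply mul_nonneg <;> linarith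
          linarith
        have : 0 ≤ c2 * r ^ 3 := by positivity
        nlinarith
      · have hda : |d| = α - T := by rw [hd, abs_of_nonneg (by linarith)]
        refine le_trans ?_ (kappa_ge_lin α T r hα (by linarith) hr (by linarith))
        have h5 : c0 ≤ T / α := by
          have e : T / α - c0 = (ρ - d) * (ρ - 3 * d) / (8 * α * ρ) := by
            rw [hc0, show T = α - d by linarith]
            field_simp
            ring
          have hd0 : 0 ≤ d := by linarith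
          have : 0 ≤ (ρ - d) * (ρ - 3 * d) / (8 * α * ρ) := by
            apply div_nonneg _ (by positivity)
            apply mul_nonneg <;> linarith
          linarith
        have : 0 ≤ c2 * r ^ 3 := by positivity
        nlinarith
    · refine le_trans ?_ (kappa_ge_quad α T r hα (by linarith))
      have e : r - (α + r - T) ^ 2 / (4 * α) - (c0 * r - c2 * r ^ 3)
          = (r - ρ) ^ 2 * ((ρ ^ 2 - d ^ 2) * r - 2 * d ^ 2 * ρ) / (8 * α * ρ ^ 3) := by
        rw [hc0, hc2, show T = α - d by linarith]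
        field_simp
        ring
      have h6 : 0 ≤ (ρ ^ 2 - d ^ 2) * r - 2 * d ^ 2 * ρ := by
        have h7 : (ρ ^ 2 - d ^ 2) * |d| ≤ (ρ ^ 2 - d ^ 2) * r :=
          mul_le_mul_of_nonneg_left h3 (by nlinarith [sq_nonneg d])
        have hdd : d ^ 2 = |d| ^ 2 := (sq_abs d).symm
        have h8 : 3 * |d| ≤ ρ := by
          rcases abs_cases d with h | h <;> linarith [h.1]
        have h9' : 0 ≤ |d| := abs_nonneg d
        have : 2 * d ^ 2 * ρ ≤ (ρ ^ 2 - d ^ 2) * |d| := by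
          rw [hdd]
          have h10 : 0 ≤ |d| * (ρ - 3 * |d|) * (ρ + |d|) := by
            apply mul_nonneg (mul_nonneg h9' (by linarith)) (by linarith)
          nlinarith [mul_nonneg h9' (mul_nonneg h9' h9')]
        linarith
      have : 0 ≤ (r - ρ) ^ 2 * ((ρ ^ 2 - d ^ 2) * r - 2 * d ^ 2 * ρ) / (8 * α * ρ ^ 3) := by
        apply div_nonneg _ (by positivity)
        exact mul_nonneg (sq_nonneg _) h6
      linarith

end Pool.Agent.Helper452
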