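import Pool.Agent.Helper452.SlabCube

set_option autoImplicit false

namespace Pool.Agent.Helper452

open MeasureTheory Set intervalIntegral

/-- the slab of the cube -/
def slab {n : ℕ} (a : Fin n → ℝ) (t : ℝ) : Set (Fin n → ℝ) :=
  {x | (∀ i, |x i| ≤ 1) ∧ |∑ i, a i * x i| ≤ t}

/-- clamping to `[-s, s]` -/
noncomputable def clamp (s r : ℝ) : ℝ := max (-s) (min r s)

lemma clamp_continuous (s : ℝ) : Continuous (clamp s) := by
  unfold clamp; fun_prop

lemma clamp_odd (s : ℝ) (hs : 0 ≤ s) (r : ℝ) : clamp s (-r) = -clamp s r := by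
  unfold clamp
  simp only [max_def, min_def]
  split_ifs <;> linarith

lemma clamp_diff_le (s d x : ℝ) (hs : 0 ≤ s) (hd : 0 ≤ d) :
    clamp s (d + x) - clamp s (-d + x) ≤ if |x| ≤ s + d then 2 * d else 0 := by
  unfold clamp
  split_ifs with h
  · simp only [max_def, min_def]
    split_ifs <;> linarith
  · rw [not_le, lt_abs] at h
    rcases h with h | h
    · simp only [max_def, min_def]
      split_ifs <;> linarith
    · simp only [max_def, min_def]
      split_ifs <;> linarith

lemma cubeAvg_odd {n : ℕ} (a : Fin n → ℝ) {f : ℝ → ℝ} (hf : Continuous f)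
    (hodd : ∀ x, f (-x) = -f x) (r : ℝ) : cubeAvg a f (-r) = -cubeAvg a f r := by
  induction n generalizing f with
  | zero => rw [cubeAvg_zero, cubeAvg_zero]; exact hodd r
  | succ n ih =>
    rw [cubeAvg_succ 0 a hf, cubeAvg_succ 0 a hf]
    exact ih _ (Aop_continuous _ hf) (Aop_odd _ hodd)

lemma mem_cube_iff {n : ℕ} (x : Fin n → ℝ) : x ∈ cube n ↔ ∀ i, |x i| ≤ 1 := by
  simp only [cube, mem_Icc, Pi.le_def, abs_le]
  exact ⟨fun h i => ⟨h.1 i, h.2 i⟩, fun h => ⟨fun i => (h i).1, fun i => (h i).2⟩⟩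

lemma slab_eq {n : ℕ} (a : Fin n → ℝ) (t : ℝ) :
    slab a t = {x | |∑ i, a i * x i| ≤ t} ∩ cube n := by
  ext x
  simp only [slab, Set.mem_ofPred_eq, mem_inter_iff, mem_cube_iff]
  tauto

lemma slab_volume_ne_top {n : ℕ} (a : Fin n → ℝ) (t : ℝ) : volume (slab a t) ≠ ⊤ := by
  rw [slab_eq]
  exact ((measure_mono inter_subset_right).trans_lt (isCompact_Icc.measure_lt_top)).ne

/-- lower bound for the volume of a slab through the clamped average -/
lemma slab_lower {n : ℕ} (a : Fin n → ℝ) (s d : ℝ) (hs : 0 ≤ s) (hd : 0 ≤ d) :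
    2 ^ n * cubeAvg a (clamp s) d ≤ d * (volume (slab a (s + d))).toReal := by
  have hc := clamp_continuous s
  have h1 : 2 ^ n * cubeAvg a (clamp s) d
      = (1 / 2) * ∫ x in cube n, (clamp s (d + ∑ i, a i * x i) - clamp s (-d + ∑ i, a i * x i)) := by
    have h2 : cubeAvg a (clamp s) d = (1 / 2) * (cubeAvg a (clamp s) d - cubeAvg a (clamp s) (-d)) := by
      rw [cubeAvg_odd a hc (clamp_odd s hs)]; ring
    rw [h2, integral_sub (integrableOn_cube (by fun_prop)) (integrableOn_cube (by fun_prop))]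
    unfold cubeAvg
    field_simp
  rw [h1]
  have hmeas : MeasurableSet {x : Fin n → ℝ | |∑ i, a i * x i| ≤ s + d} := by
    apply IsClosed.measurableSet
    exact isClosed_le (by fun_prop) continuous_const
  have h3 : ∫ x in cube n, (clamp s (d + ∑ i, a i * x i) - clamp s (-d + ∑ i, a i * x i))
      ≤ ∫ x in cube n, ({x : Fin n → ℝ | |∑ i, a i * x i| ≤ s + d}.indicator (fun _ => 2 * d)) x := by
    apply MeasureTheory.integral_mono
    · exact integrableOn_cube (by fun_prop)
    · apply Integrable.indicator _ hmeas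
      exact integrableOn_cube continuous_const
    · intro x
      have := clamp_diff_le s d (∑ i, a i * x i) hs hd
      simpa [Set.indicator_apply] using this
  rw [MeasureTheory.integral_indicator hmeas, Measure.restrict_restrict hmeas, ← slab_eq] at h3
  simp only [MeasureTheory.integral_const, smul_eq_mul, Measure.real, Measure.restrict_apply_univ] at h3
  nlinarith [h3]

end Pool.Agent.Helper452
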